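import Mathlib

/-!
# Reduction to primitive characters (job HH)

Let `q = ξ.conductor`, `χ = ξ.primitiveCharacter`. For `n` coprime to `d`: `ξ n = χ n` (`primitiveCharacter_apply_of_isCoprime`-like, or
`changeLevel_primitiveCharacter` and `changeLevel_eq_cast_of_dvd`); otherwise `ξ n = 0`. With `[gcd(n,d) = 1] = ∑_{e ∣ d, e ∣ n} μ(e)`
(`ArithmeticFunction.sum_moebius..`: `∑_{e ∣ k} μ(e) = [k = 1]` for `k = gcd(n,d)`, `Nat.divisors_gcd`-like):
`∑_{n ≤ N} ξ n = ∑_{e ∣ d} μ(e) ∑_{n ≤ N, e ∣ n} χ n = ∑_{e ∣ d} μ(e) χ(e) ∑_{m ≤ N/e} χ m`. Norms: `|μ(e)| ≤ 1`, `‖χ e‖ ≤ 1`.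
-/

namespace Pool.Agent.Lib.MP_42948a_nt.BU

open Finset

private theorem HH_moebius (d n : ℕ) (hd : d ≠ 0) :
    ∑ e ∈ d.divisors with e ∣ n, ArithmeticFunction.moebius e = if n.Coprime d then 1 else 0 := by
  have h1 : d.divisors.filter (fun e => e ∣ n) = (n.gcd d).divisors := by
    ext e
    rw [mem_filter, Nat.mem_divisors, Nat.mem_divisors, Nat.dvd_gcd_iff]
    constructor
    · rintro ⟨⟨h1, _⟩, h2⟩
      exact ⟨⟨h2, h1⟩, Nat.gcd_ne_zero_right hd⟩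
    · rintro ⟨⟨h1, h2⟩, _⟩
      exact ⟨⟨h2, hd⟩, h1⟩
  rw [h1, ← ArithmeticFunction.coe_mul_zeta_apply, ArithmeticFunction.moebius_mul_coe_zeta,
    ArithmeticFunction.one_apply]

private theorem HH_val {d : ℕ} [NeZero d] (ξ : DirichletCharacter ℂ d) (n : ℕ) :
    ξ (n : ZMod d) = ∑ e ∈ d.divisors, (if e ∣ n then
      ((ArithmeticFunction.moebius e : ℤ) : ℂ) * ξ.primitiveCharacter (n : ZMod ξ.conductor) else 0) := by
  rw [← Finset.sum_filter, ← Finset.sum_mul, ← Int.cast_sum, HH_moebius d n (NeZero.ne d)]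
  by_cases h : n.Coprime d
  · rw [if_pos h, Int.cast_one, one_mul]
    have h1 : IsCoprime (n : ℤ) (d : ℤ) := Nat.isCoprime_iff_coprime.2 h
    have h2 := DirichletCharacter.primitiveCharacter_apply_of_isCoprime ξ h1
    rw [Int.cast_natCast, Int.cast_natCast] at h2
    exact h2.symm
  · rw [if_neg h, Int.cast_zero, zero_mul]
    exact ξ.map_nonunit fun hu => h ((ZMod.isUnit_iff_coprime n d).1 hu)

private theorem HH_mult {q : ℕ} (χ : DirichletCharacter ℂ q) (N e : ℕ) (he : 0 < e) :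
    ∑ n ∈ Icc 1 N with e ∣ n, χ (n : ZMod q) =
      χ (e : ZMod q) * ∑ m ∈ Icc 1 (N / e), χ (m : ZMod q) := by
  rw [Finset.mul_sum]
  refine Finset.sum_nbij' (fun n => n / e) (fun m => e * m) ?_ ?_ ?_ ?_ ?_
  · intro n hn
    rw [mem_filter, mem_Icc] at hn
    obtain ⟨⟨h1, h2⟩, h3⟩ := hn
    rw [mem_Icc]
    exact ⟨Nat.div_pos (Nat.le_of_dvd (by omega) h3) he, Nat.div_le_div_right h2⟩
  · intro m hm
    rw [mem_Icc] at hm
    rw [mem_filter, mem_Icc]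
    refine ⟨⟨Nat.mul_pos he hm.1, ?_⟩, dvd_mul_right _ _⟩
    calc e * m ≤ e * (N / e) := Nat.mul_le_mul_left _ hm.2
      _ ≤ N := Nat.mul_div_le N e
  · intro n hn
    rw [mem_filter] at hn
    exact Nat.mul_div_cancel' hn.2
  · intro m _
    exact Nat.mul_div_cancel_left m he
  · intro n hn
    rw [mem_filter] at hn
    rw [← map_mul, ← Nat.cast_mul, Nat.mul_div_cancel' hn.2]

theorem imprim {d : ℕ} [NeZero d] (ξ : DirichletCharacter ℂ d) (N : ℕ) :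
    ‖∑ n ∈ Icc 1 N, ξ (n : ZMod d)‖ ≤
      ∑ e ∈ d.divisors, ‖∑ n ∈ Icc 1 (N / e), ξ.primitiveCharacter (n : ZMod ξ.conductor)‖ := by
  have h1 : ∑ n ∈ Icc 1 N, ξ (n : ZMod d) = ∑ e ∈ d.divisors, ((ArithmeticFunction.moebius e : ℤ) : ℂ) *
      (ξ.primitiveCharacter (e : ZMod ξ.conductor) *
        ∑ m ∈ Icc 1 (N / e), ξ.primitiveCharacter (m : ZMod ξ.conductor)) := by
    rw [Finset.sum_congr rfl fun n _ => HH_val ξ n, Finset.sum_comm]
    refine Finset.sum_congr rfl fun e he => ?_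
    rw [← Finset.sum_filter, ← Finset.mul_sum, HH_mult _ N e (Nat.pos_of_mem_divisors he)]
  rw [h1]
  refine (norm_sum_le _ _).trans (Finset.sum_le_sum fun e _ => ?_)
  rw [norm_mul, norm_mul]
  have h2 : ‖((ArithmeticFunction.moebius e : ℤ) : ℂ)‖ ≤ 1 := by
    rw [Complex.norm_intCast]
    have h3 := ArithmeticFunction.abs_moebius_le_one (n := e)
    exact_mod_cast h3
  have h3 := DirichletCharacter.norm_le_one ξ.primitiveCharacter (e : ZMod ξ.conductor)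
  have h4 := norm_nonneg (∑ m ∈ Icc 1 (N / e), ξ.primitiveCharacter (m : ZMod ξ.conductor))
  calc ‖((ArithmeticFunction.moebius e : ℤ) : ℂ)‖ * (‖ξ.primitiveCharacter (e : ZMod ξ.conductor)‖ *
        ‖∑ m ∈ Icc 1 (N / e), ξ.primitiveCharacter (m : ZMod ξ.conductor)‖) ≤
      1 * (1 * ‖∑ m ∈ Icc 1 (N / e), ξ.primitiveCharacter (m : ZMod ξ.conductor)‖) := by gcongr
    _ = _ := by rw [one_mul, one_mul]

end Pool.Agent.Lib.MP_42948a_nt.BU
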