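import Pool.Agent.Lib.MP_42948a_nt.BU.Defs

/-!
# First and second moment of `nu` (job HB)

`nu_sum`: for `(a, n) ∈ 𝒜 × Icc 1 N` there is exactly one `x` with `n = x a` (`a` is a unit: `ZMod.unitOfCoprime`), exchange the sums
(`Finset.card_filter`, `Finset.sum_comm`).
`nu_sq`: `(nu x)^2` is the number of pairs `((a, n), (a', n'))` with `n = x a`, `n' = x a'`. For such a pair `n a' = x a a' = n' a` in `ZMod q`, and
`n a', n' a ≤ N A < q`, so `n a' = n' a` as natural numbers. So `∑_x (nu x)^2` (for given pairs at most one `x`) is at most the number of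
`(a, n, a', n')` with `n a' = n' a`. Given `(a', n)`, put `v = n a' > 0`, `v ≤ A N`: `a ∣ v` and `n' = v / a` is determined by `a`, so there are at most
`v.divisors.card ≤ τm` possibilities. Total `≤ #𝒜 * N * τm`.
-/

namespace Pool.Agent.Lib.MP_42948a_nt.BU

open Finset

private theorem HB_iff {q a n : ℕ} (ha : a.Coprime q) (x : ZMod q) :
    (n : ZMod q) = x * (a : ZMod q) ↔ (n : ZMod q) * (a : ZMod q)⁻¹ = x := by
  have h1 := ZMod.coe_mul_inv_eq_one a ha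
  constructor
  · intro h
    rw [h, mul_assoc, h1, mul_one]
  · intro h
    rw [← h, mul_assoc, mul_comm (a : ZMod q)⁻¹, h1, mul_one]

open Classical in
private theorem HB_nu (q : ℕ) (𝒜 : Finset ℕ) (N : ℕ) (h𝒜 : ∀ a ∈ 𝒜, a.Coprime q) (x : ZMod q) :
    nu q 𝒜 N x = ((𝒜 ×ˢ Icc 1 N).filter (fun t : ℕ × ℕ => (t.2 : ZMod q) * (t.1 : ZMod q)⁻¹ = x)).card := by
  unfold nu
  congr 1
  ext t
  rw [mem_filter, mem_filter, mem_product]
  refine and_congr_right fun h => ?_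
  exact HB_iff (h𝒜 _ h.1) x

theorem nu_sum (q : ℕ) [NeZero q] (𝒜 : Finset ℕ) (N : ℕ) (h𝒜 : ∀ a ∈ 𝒜, a.Coprime q) :
    ∑ x : ZMod q, nu q 𝒜 N x = 𝒜.card * N := by
  classical
  have h := Finset.card_eq_sum_card_fiberwise (s := 𝒜 ×ˢ Icc 1 N) (t := (univ : Finset (ZMod q)))
    (f := fun t : ℕ × ℕ => (t.2 : ZMod q) * (t.1 : ZMod q)⁻¹) (fun _ _ => mem_coe.2 (mem_univ _))
  rw [card_product, Nat.card_Icc, Nat.add_sub_cancel] at h
  rw [h]
  exact Finset.sum_congr rfl fun x _ => HB_nu q 𝒜 N h𝒜 x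

theorem nu_sq (q A N τm : ℕ) [NeZero q] (𝒜 : Finset ℕ) (h𝒜 : ∀ a ∈ 𝒜, 1 ≤ a ∧ a ≤ A ∧ a.Coprime q)
    (hAN : A * N < q) (hτ : ∀ v : ℕ, 0 < v → v ≤ A * N → v.divisors.card ≤ τm) :
    ∑ x : ZMod q, (nu q 𝒜 N x) ^ 2 ≤ 𝒜.card * N * τm := by
  classical
  obtain ⟨f, hf⟩ : ∃ f : ℕ × ℕ → ZMod q, f = fun t : ℕ × ℕ => (t.2 : ZMod q) * (t.1 : ZMod q)⁻¹ := ⟨_, rfl⟩
  obtain ⟨S, hS⟩ : ∃ S : Finset (ℕ × ℕ), S = 𝒜 ×ˢ Icc 1 N := ⟨_, rfl⟩
  have hco : ∀ a ∈ 𝒜, a.Coprime q := fun a ha => (h𝒜 a ha).2.2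
  have hnu : ∀ x : ZMod q, nu q 𝒜 N x = (S.filter (fun t => f t = x)).card := by
    intro x
    rw [HB_nu q 𝒜 N hco x, hf, hS]
  have hQ : ((S ×ˢ S).filter (fun u => f u.1 = f u.2)).card = ∑ x : ZMod q, (nu q 𝒜 N x) ^ 2 := by
    rw [Finset.card_eq_sum_card_fiberwise (t := (univ : Finset (ZMod q)))
      (f := fun u : (ℕ × ℕ) × (ℕ × ℕ) => f u.1) (fun _ _ => mem_coe.2 (mem_univ _))]
    refine Finset.sum_congr rfl fun x _ => ?_
    rw [hnu x, sq, ← card_product]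
    congr 1
    ext u
    rw [mem_filter, mem_filter, mem_product, mem_product, mem_filter, mem_filter]
    constructor
    · rintro ⟨⟨⟨h1, h2⟩, h3⟩, h4⟩
      exact ⟨⟨h1, h4⟩, h2, h3.symm.trans h4⟩
    · rintro ⟨⟨h1, h4⟩, h2, h5⟩
      exact ⟨⟨⟨h1, h2⟩, h4.trans h5.symm⟩, h4⟩
  rw [← hQ]
  have hcard : S.card = 𝒜.card * N := by
    rw [hS, card_product, Nat.card_Icc, Nat.add_sub_cancel]
  rw [← hcard, mul_comm]
  refine Finset.card_le_mul_card_image_of_maps_to (f := fun u : (ℕ × ℕ) × (ℕ × ℕ) => (u.2.1, u.1.2)) ?_ τm ?_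
  · intro u hu
    rw [mem_filter, mem_product, hS, mem_product, mem_product] at hu
    rw [hS, mem_product]
    exact ⟨hu.1.2.1, hu.1.1.2⟩
  · rintro ⟨a', n⟩ hb
    rw [hS, mem_product] at hb
    obtain ⟨ha', hn⟩ := hb
    simp only at ha' hn
    obtain ⟨h1, h2, h3⟩ := h𝒜 a' ha'
    rw [mem_Icc] at hn
    have hkey : ∀ u ∈ ((S ×ˢ S).filter (fun u => f u.1 = f u.2)).filter
        (fun u : (ℕ × ℕ) × (ℕ × ℕ) => (u.2.1, u.1.2) = (a', n)),
        u.1.2 = n ∧ u.2.1 = a' ∧ 0 < u.1.1 ∧ n * a' = u.2.2 * u.1.1 := by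
      rintro ⟨⟨a, m⟩, ⟨b, n'⟩⟩ hu
      rw [mem_filter, mem_filter, mem_product, hS, mem_product, mem_product] at hu
      obtain ⟨⟨⟨⟨ha, hm⟩, hb, hn'⟩, hfe⟩, he⟩ := hu
      simp only [Prod.mk.injEq] at he
      simp only at ha hm hb hn' hfe
      obtain ⟨he1, he2⟩ := he
      subst he1 he2
      obtain ⟨g1, g2, g3⟩ := h𝒜 a ha
      rw [mem_Icc] at hm hn'
      refine ⟨rfl, rfl, g1, ?_⟩
      have e1 : (m : ZMod q) * (b : ZMod q) = (n' : ZMod q) * (a : ZMod q) := by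
        rw [hf] at hfe
        simp only at hfe
        have e2 := ZMod.coe_mul_inv_eq_one a g3
        have e3 := ZMod.coe_mul_inv_eq_one b h3
        calc (m : ZMod q) * (b : ZMod q) = (m * (a : ZMod q)⁻¹) * (a * b) := by
              rw [mul_assoc, ← mul_assoc (a : ZMod q)⁻¹, mul_comm (a : ZMod q)⁻¹, e2, one_mul]
          _ = (n' * (b : ZMod q)⁻¹) * (a * b) := by rw [hfe]
          _ = n' * a * ((b : ZMod q) * (b : ZMod q)⁻¹) := by ring
          _ = (n' : ZMod q) * (a : ZMod q) := by rw [e3, mul_one]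
      have e4 : ((m * b : ℕ) : ZMod q) = ((n' * a : ℕ) : ZMod q) := by
        push_cast
        exact e1
      rw [ZMod.natCast_eq_natCast_iff'] at e4
      have e5 : m * b < q := by
        calc m * b ≤ N * A := Nat.mul_le_mul hm.2 h2
          _ = A * N := Nat.mul_comm _ _
          _ < q := hAN
      have e6 : n' * a < q := by
        calc n' * a ≤ N * A := Nat.mul_le_mul hn'.2 g2
          _ = A * N := Nat.mul_comm _ _
          _ < q := hAN
      rw [Nat.mod_eq_of_lt e5, Nat.mod_eq_of_lt e6] at e4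
      exact e4
    have hv0 : 0 < n * a' := Nat.mul_pos hn.1 h1
    have hv1 : n * a' ≤ A * N := by
      rw [Nat.mul_comm A N]
      exact Nat.mul_le_mul hn.2 h2
    refine le_trans ?_ (hτ (n * a') hv0 hv1)
    refine Finset.card_le_card_of_injOn (fun u : (ℕ × ℕ) × (ℕ × ℕ) => u.1.1) ?_ ?_
    · intro u hu
      obtain ⟨_, _, _, g4⟩ := hkey u hu
      rw [mem_coe, Nat.mem_divisors]
      exact ⟨⟨u.2.2, by rw [g4, Nat.mul_comm]⟩, hv0.ne'⟩
    · intro u hu w hw huw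
      obtain ⟨g1, g2, g3, g4⟩ := hkey u hu
      obtain ⟨k1, k2, k3, k4⟩ := hkey w hw
      simp only at huw
      have e7 : u.2.2 = w.2.2 := by
        rw [g4, huw] at k4
        rw [← huw] at k4
        exact Nat.eq_of_mul_eq_mul_right g3 k4
      refine Prod.ext (Prod.ext huw (g1.trans k1.symm)) (Prod.ext (g2.trans k2.symm) e7)

end Pool.Agent.Lib.MP_42948a_nt.BU
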