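import Pool.Agent.Lib.MP_42948a_nt.BU.Defs

/-!
# The shift argument (job HC)

`shift_bound`: `∑_{n ∈ Icc 1 N} χ(n + t)` is the sum of `χ` over `Icc (t+1) (t+N)`; it differs from the sum over `Icc 1 N` by the sum over
`Icc 1 t` and the sum over `Icc (N+1) (N+t)` (`∑_{Icc 1 (N+t)} = ∑_{Icc 1 N} + ∑_{Icc (N+1) (N+t)} = ∑_{Icc 1 t} + ∑_{Icc (t+1) (t+N)}`), each of norm
`≤ t` (`DirichletCharacter.norm_le_one`).
`burgess_core`: for `a ∈ 𝒜`, `b ∈ Icc 1 B` let `t = a b q0 ≤ A B q0`; summing the equality with error term over `b`: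
`B * ‖∑_n χ n‖ ≤ ‖∑_{n} ∑_b χ(n + a b q0)‖ + B * 2 (A B q0) ≤ ∑_n ‖∑_b χ(n + a b q0)‖ + ..` (do it with the triangle inequality for
`B * ∑ χ(n) = ∑_b ∑_n χ(n + a b q0) + ∑_b err_b`). With `x = n a⁻¹ ∈ ZMod q` (`a` is a unit): `n + a b q0 = a (x + q0 b)`, so
`‖∑_b χ(n + a b q0)‖ = ‖χ a‖ * TS χ q0 B x = TS χ q0 B x` (`‖χ a‖ = 1`). Sum over `a ∈ 𝒜` and group the pairs `(a, n)` according to `x`
(`Finset.sum_fiberwise`-like: `∑_{(a,n)} TS (x_{a,n}) = ∑_x nu x * TS x`).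
-/

namespace Pool.Agent.Lib.MP_42948a_nt.BU

open Finset

private theorem HC_tele (g : ℕ → ℂ) (N : ℕ) :
    ∑ n ∈ Icc 1 N, g n - ∑ n ∈ Icc 1 N, g (n + 1) = g 1 - g (N + 1) := by
  induction N with
  | zero => simp
  | succ N ih =>
    rw [Finset.sum_Icc_succ_top (by omega), Finset.sum_Icc_succ_top (by omega)]
    linear_combination ih

theorem shift_bound {q : ℕ} (χ : DirichletCharacter ℂ q) (N t : ℕ) :
    ‖∑ n ∈ Icc 1 N, χ (n : ZMod q) - ∑ n ∈ Icc 1 N, χ ((n + t : ℕ) : ZMod q)‖ ≤ 2 * t := by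
  induction t with
  | zero => simp
  | succ t ih =>
    have h1 := HC_tele (fun n => χ ((n + t : ℕ) : ZMod q)) N
    have h2 : ∑ n ∈ Icc 1 N, χ ((n + 1 + t : ℕ) : ZMod q) = ∑ n ∈ Icc 1 N, χ ((n + (t + 1) : ℕ) : ZMod q) := by
      refine Finset.sum_congr rfl fun n _ => ?_
      rw [Nat.add_assoc, Nat.add_comm 1 t]
    rw [h2] at h1
    have h3 : ‖χ ((1 + t : ℕ) : ZMod q) - χ ((N + 1 + t : ℕ) : ZMod q)‖ ≤ 2 := by
      refine (norm_sub_le _ _).trans ?_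
      have e1 := DirichletCharacter.norm_le_one χ ((1 + t : ℕ) : ZMod q)
      have e2 := DirichletCharacter.norm_le_one χ ((N + 1 + t : ℕ) : ZMod q)
      linarith
    have h4 : ∑ n ∈ Icc 1 N, χ (n : ZMod q) - ∑ n ∈ Icc 1 N, χ ((n + (t + 1) : ℕ) : ZMod q) =
        (∑ n ∈ Icc 1 N, χ (n : ZMod q) - ∑ n ∈ Icc 1 N, χ ((n + t : ℕ) : ZMod q)) +
          (χ ((1 + t : ℕ) : ZMod q) - χ ((N + 1 + t : ℕ) : ZMod q)) := by
      rw [← h1]
      ring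
    rw [h4]
    refine (norm_add_le _ _).trans ?_
    have h5 : 2 * ((t + 1 : ℕ) : ℝ) = 2 * t + 2 := by
      push_cast
      ring
    rw [h5]
    linarith

theorem burgess_core {q : ℕ} [NeZero q] (χ : DirichletCharacter ℂ q) (𝒜 : Finset ℕ) (A B N q0 : ℕ)
    (h𝒜 : ∀ a ∈ 𝒜, 1 ≤ a ∧ a ≤ A ∧ a.Coprime q) :
    (𝒜.card : ℝ) * B * ‖∑ n ∈ Icc 1 N, χ (n : ZMod q)‖ ≤
      ∑ x : ZMod q, (nu q 𝒜 N x : ℝ) * TS χ q0 B x + (𝒜.card : ℝ) * B * (2 * (A * B * q0)) := by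
  classical
  obtain ⟨Z, hZ⟩ : ∃ Z : ℝ, ‖∑ n ∈ Icc 1 N, χ (n : ZMod q)‖ = Z := ⟨_, rfl⟩
  have hone : ∀ a ∈ 𝒜, (B : ℝ) * Z ≤
      ∑ n ∈ Icc 1 N, TS χ q0 B ((n : ZMod q) * (a : ZMod q)⁻¹) + (B : ℝ) * (2 * (A * B * q0)) := by
    intro a ha
    obtain ⟨ha1, ha2, ha3⟩ := h𝒜 a ha
    have hinv := ZMod.coe_mul_inv_eq_one a ha3
    have hna : ‖χ (a : ZMod q)‖ = 1 := by
      have hu : IsUnit (a : ZMod q) := (ZMod.isUnit_iff_coprime a q).2 ha3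
      obtain ⟨u, hu⟩ := hu
      rw [← hu]
      exact DirichletCharacter.unit_norm_eq_one χ u
    have hTS : ∀ n : ℕ, ‖∑ b ∈ Icc 1 B, χ ((n + a * b * q0 : ℕ) : ZMod q)‖ =
        TS χ q0 B ((n : ZMod q) * (a : ZMod q)⁻¹) := by
      intro n
      unfold TS
      have e1 : ∑ b ∈ Icc 1 B, χ ((n + a * b * q0 : ℕ) : ZMod q) =
          χ (a : ZMod q) * ∑ b ∈ Icc 1 B, χ ((n : ZMod q) * (a : ZMod q)⁻¹ + ((q0 * b : ℕ) : ZMod q)) := by
        rw [Finset.mul_sum]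
        refine Finset.sum_congr rfl fun b _ => ?_
        rw [← map_mul]
        congr 1
        push_cast
        calc (n : ZMod q) + a * b * q0 = n * ((a : ZMod q) * (a : ZMod q)⁻¹) + a * (q0 * b) := by
              rw [hinv]
              ring
          _ = (a : ZMod q) * (n * (a : ZMod q)⁻¹ + q0 * b) := by ring
      rw [e1, norm_mul, hna, one_mul]
    have hsum : (B : ℂ) * ∑ n ∈ Icc 1 N, χ (n : ZMod q) =
        (∑ n ∈ Icc 1 N, ∑ b ∈ Icc 1 B, χ ((n + a * b * q0 : ℕ) : ZMod q)) +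
          ∑ b ∈ Icc 1 B, (∑ n ∈ Icc 1 N, χ (n : ZMod q) -
            ∑ n ∈ Icc 1 N, χ ((n + a * b * q0 : ℕ) : ZMod q)) := by
      rw [Finset.sum_comm, ← Finset.sum_add_distrib]
      have e2 : ∀ b ∈ Icc 1 B, (∑ n ∈ Icc 1 N, χ ((n + a * b * q0 : ℕ) : ZMod q)) +
          (∑ n ∈ Icc 1 N, χ (n : ZMod q) - ∑ n ∈ Icc 1 N, χ ((n + a * b * q0 : ℕ) : ZMod q)) =
          ∑ n ∈ Icc 1 N, χ (n : ZMod q) := fun b _ => by ring
      rw [Finset.sum_congr rfl e2, Finset.sum_const, Nat.card_Icc, Nat.add_sub_cancel, nsmul_eq_mul]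
    have h1 : (B : ℝ) * Z = ‖(B : ℂ) * ∑ n ∈ Icc 1 N, χ (n : ZMod q)‖ := by
      rw [norm_mul, hZ, Complex.norm_natCast]
    rw [h1, hsum]
    refine (norm_add_le _ _).trans (add_le_add ?_ ?_)
    · refine (norm_sum_le _ _).trans (le_of_eq ?_)
      exact Finset.sum_congr rfl fun n _ => hTS n
    · refine (norm_sum_le _ _).trans ?_
      have e3 : ∀ b ∈ Icc 1 B, ‖∑ n ∈ Icc 1 N, χ (n : ZMod q) -
          ∑ n ∈ Icc 1 N, χ ((n + a * b * q0 : ℕ) : ZMod q)‖ ≤ 2 * (A * B * q0 : ℝ) := by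
        intro b hb
        rw [mem_Icc] at hb
        refine (shift_bound χ N (a * b * q0)).trans ?_
        have e4 : a * b * q0 ≤ A * B * q0 := Nat.mul_le_mul_right _ (Nat.mul_le_mul ha2 hb.2)
        have e5 : ((a * b * q0 : ℕ) : ℝ) ≤ ((A * B * q0 : ℕ) : ℝ) := by exact_mod_cast e4
        push_cast at e5 ⊢
        linarith
      refine (Finset.sum_le_sum e3).trans (le_of_eq ?_)
      rw [Finset.sum_const, Nat.card_Icc, Nat.add_sub_cancel, nsmul_eq_mul]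
  rw [hZ]
  have htot : ∑ a ∈ 𝒜, ((B : ℝ) * Z) ≤ ∑ a ∈ 𝒜,
      (∑ n ∈ Icc 1 N, TS χ q0 B ((n : ZMod q) * (a : ZMod q)⁻¹) + (B : ℝ) * (2 * (A * B * q0))) :=
    Finset.sum_le_sum hone
  rw [Finset.sum_add_distrib, Finset.sum_const, Finset.sum_const, nsmul_eq_mul, nsmul_eq_mul] at htot
  have hnu : ∑ a ∈ 𝒜, ∑ n ∈ Icc 1 N, TS χ q0 B ((n : ZMod q) * (a : ZMod q)⁻¹) =
      ∑ x : ZMod q, (nu q 𝒜 N x : ℝ) * TS χ q0 B x := by
    rw [← Finset.sum_product' 𝒜 (Icc 1 N) (fun a n => TS χ q0 B ((n : ZMod q) * (a : ZMod q)⁻¹))]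
    rw [← Finset.sum_fiberwise' (𝒜 ×ˢ Icc 1 N) (fun t : ℕ × ℕ => (t.2 : ZMod q) * (t.1 : ZMod q)⁻¹)
      (fun x => TS χ q0 B x)]
    refine Finset.sum_congr rfl fun x _ => ?_
    rw [Finset.sum_const, nsmul_eq_mul]
    congr 2
    unfold nu
    congr 1
    ext t
    rw [mem_filter, mem_filter, mem_product]
    refine and_congr_right fun h => ?_
    have h1 := ZMod.coe_mul_inv_eq_one t.1 (h𝒜 _ h.1).2.2
    constructor
    · intro h2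
      rw [← h2, mul_assoc, mul_comm (t.1 : ZMod q)⁻¹, h1, mul_one]
    · intro h2
      rw [h2, mul_assoc, h1, mul_one]
  rw [hnu] at htot
  linarith

end Pool.Agent.Lib.MP_42948a_nt.BU
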