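import Pool.Agent.Lib.MP_42948a_nt.BU.Defs

/-!
# Expansion of the moment (job SD)

For `x : ZMod q` let `T = ∑_{b ∈ Icc 1 B} χ(x + q0 b)`. `‖T‖^(2r) = T^r * conj(T)^r` (as a complex number, `Complex.mul_conj`, `Complex.normSq_eq_norm_sq`).
`T^r = ∑_{b ∈ piFinset (Fin r → Icc 1 B)} ∏_i χ(x + q0 (b i))` (`Finset.prod_univ_sum`, `Finset.prod_const`), the same for `conj T`. The tuples
`Fin r ⊕ Fin r → ℕ` in `Tup r B` correspond to pairs (`Equiv.sumArrowEquivProdArrow` / `Sum.elim`). Sum over `x`, exchange: the left side is the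
complex number `∑_{b ∈ Tup r B} CS χ (q0 b)` (casts: `((q0 * b : ℕ) : ZMod q) = (((q0 : ℤ) * (b : ℤ) : ℤ) : ZMod q)`), so it is at most
`∑ ‖CS ..‖`.
-/

namespace Pool.Agent.Lib.MP_42948a_nt.BU

open Finset

private theorem SD_point {r q : ℕ} [NeZero q] (q0 B : ℕ) (χ : DirichletCharacter ℂ q)
    (x : ZMod q) :
    ((TS χ q0 B x ^ (2 * r) : ℝ) : ℂ) =
      ∑ b ∈ Tup r B, (∏ i : Fin r,
          χ (x + ((((q0 : ℤ) * (b (Sum.inl i) : ℤ) : ℤ)) : ZMod q))) *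
        ∏ i : Fin r, (starRingEnd ℂ)
          (χ (x + ((((q0 : ℤ) * (b (Sum.inr i) : ℤ) : ℤ)) : ZMod q))) := by
  classical
  set T : ℂ := ∑ b ∈ Icc 1 B, χ (x + ((q0 * b : ℕ) : ZMod q)) with hT
  have h1 : ((TS χ q0 B x ^ (2 * r) : ℝ) : ℂ) = T ^ r * (starRingEnd ℂ) T ^ r := by
    rw [← mul_pow, Complex.mul_conj, Complex.normSq_eq_norm_sq]
    unfold TS
    rw [← hT]
    push_cast
    rw [← pow_mul]
  let f : Fin r ⊕ Fin r → ℕ → ℂ := fun j b =>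
    Sum.elim (fun _ => χ (x + ((q0 * b : ℕ) : ZMod q)))
      (fun _ => (starRingEnd ℂ) (χ (x + ((q0 * b : ℕ) : ZMod q)))) j
  have h2 : T ^ r * (starRingEnd ℂ) T ^ r = ∏ j : Fin r ⊕ Fin r, ∑ b ∈ Icc 1 B, f j b := by
    rw [Fintype.prod_sum_type]
    simp only [f, Sum.elim_inl, Sum.elim_inr, Finset.prod_const, Finset.card_univ,
      Fintype.card_fin]
    rw [← map_sum (starRingEnd ℂ)]
  rw [h1, h2, Finset.prod_univ_sum]
  unfold Tup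
  refine Finset.sum_congr rfl (fun b _ => ?_)
  rw [Fintype.prod_sum_type]
  simp only [f, Sum.elim_inl, Sum.elim_inr]
  push_cast
  rfl

theorem W_expand {r q : ℕ} [NeZero q] (q0 B : ℕ) (χ : DirichletCharacter ℂ q) :
    ∑ x : ZMod q, TS χ q0 B x ^ (2 * r) ≤
      ∑ b ∈ Tup r B, ‖CS χ (fun i => (q0 : ℤ) * (b i : ℤ))‖ := by
  classical
  have h0 : ((∑ x : ZMod q, TS χ q0 B x ^ (2 * r) : ℝ) : ℂ) =
      ∑ b ∈ Tup r B, CS χ (fun i => (q0 : ℤ) * (b i : ℤ)) := by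
    rw [Complex.ofReal_sum]
    rw [Finset.sum_congr rfl (fun x _ => SD_point q0 B χ x)]
    rw [Finset.sum_comm]
    rfl
  have h1 : (0 : ℝ) ≤ ∑ x : ZMod q, TS χ q0 B x ^ (2 * r) :=
    Finset.sum_nonneg (fun x _ => by unfold TS; positivity)
  calc ∑ x : ZMod q, TS χ q0 B x ^ (2 * r)
      = ‖((∑ x : ZMod q, TS χ q0 B x ^ (2 * r) : ℝ) : ℂ)‖ := by
        rw [Complex.norm_real, Real.norm_of_nonneg h1]
    _ ≤ ∑ b ∈ Tup r B, ‖CS χ (fun i => (q0 : ℤ) * (b i : ℤ))‖ := by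
        rw [h0]
        exact norm_sum_le _ _

end Pool.Agent.Lib.MP_42948a_nt.BU
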