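import Pool.Agent.Lib.MP_42948a_nt.BU.Defs

/-!
# Chinese remainder theorem for Dirichlet characters (job CA)

Let `e = ZMod.chineseRemainder hab : ZMod (a * b) ≃+* ZMod a × ZMod b` (`e x = (cast x, cast x)`; `e n = (n, n)` for integers, `map_intCast`).
`χa := MulChar.ofUnitHom` of `u ↦ χ.toUnitHom (unit of e.symm (u, 1))` (use `Units.mapEquiv e.symm.toMulEquiv`, `MulEquiv.prodUnits.symm`), `χb` with
`(1, u)`. For an integer `n` coprime to `a b`: `(n, n) = (n, 1) (1, n)` gives the product formula; if `n` is not coprime to `a b` then it is not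
a unit mod `a` or not a unit mod `b` (`ZMod.coe_int_isUnit_iff_isCoprime`, `IsCoprime.mul_right_iff`) and both sides vanish (`MulChar.map_nonunit`).
Powers: `(χa^m) u = χa(u)^m = χ(e.symm (u,1))^m = 1` for units `u` (`MulChar.ext`). `NT`: for `p ∣ a`, `a b / p = (a/p) b`, and `n` with
`n ≡ 1 mod (a/p) b` satisfies `n ≡ 1 mod a/p` and `n ≡ 1 mod b`, so `χb n = χb 1 = 1` and `χa n = χ n ≠ 1`; `n` is coprime to `a`.
-/

namespace Pool.Agent.Lib.MP_42948a_nt.BU

open Finset

/-- pull back of a multiplicative character along a multiplicative map reflecting units -/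
private noncomputable def CA_pull {R S : Type*} [CommRing R] [CommRing S] (χ : MulChar S ℂ) (i : R →* S)
    (hi : ∀ x, IsUnit (i x) → IsUnit x) : MulChar R ℂ where
  toMonoidHom := χ.toMonoidHom.comp i
  map_nonunit' := fun x hx => χ.map_nonunit (fun h => hx (hi x h))

private theorem CA_pull_apply {R S : Type*} [CommRing R] [CommRing S] (χ : MulChar S ℂ) (i : R →* S)
    (hi : ∀ x, IsUnit (i x) → IsUnit x) (x : R) : CA_pull χ i hi x = χ (i x) := rfl

private theorem CA_pull_pow {R S : Type*} [CommRing R] [CommRing S] (χ : MulChar S ℂ) (i : R →* S)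
    (hi : ∀ x, IsUnit (i x) → IsUnit x) (m : ℕ) (h : χ ^ m = 1) : CA_pull χ i hi ^ m = 1 := by
  ext u
  rw [MulChar.pow_apply_coe, MulChar.one_apply_coe, CA_pull_apply]
  have hu : IsUnit (i (u : R)) := u.isUnit.map i
  have h1 : χ (i (u : R)) ^ m = (χ ^ m) (i (u : R)) := by
    rw [← hu.unit_spec, MulChar.pow_apply_coe]
  rw [h1, h, ← hu.unit_spec, MulChar.one_apply_coe]

theorem crt_char (a b : ℕ) [NeZero a] [NeZero b] (hab : a.Coprime b) (χ : DirichletCharacter ℂ (a * b)) :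
    ∃ (χa : DirichletCharacter ℂ a) (χb : DirichletCharacter ℂ b),
      (∀ n : ℤ, χ (n : ZMod (a * b)) = χa (n : ZMod a) * χb (n : ZMod b)) ∧
      (∀ m : ℕ, χ ^ m = 1 → χa ^ m = 1 ∧ χb ^ m = 1) ∧
      (∀ p : ℕ, p.Prime → p ∣ a → NT χ p → NT χa p) ∧
      (∀ p : ℕ, p.Prime → p ∣ b → NT χ p → NT χb p) := by
  let e : ZMod (a * b) ≃+* ZMod a × ZMod b := ZMod.chineseRemainder hab
  let i1 : ZMod a →* ZMod (a * b) := (e.symm.toMulEquiv.toMonoidHom).comp (MonoidHom.inl (ZMod a) (ZMod b))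
  let i2 : ZMod b →* ZMod (a * b) := (e.symm.toMulEquiv.toMonoidHom).comp (MonoidHom.inr (ZMod a) (ZMod b))
  have e1 : ∀ x, e (i1 x) = (x, 1) := fun x => e.apply_symm_apply (x, 1)
  have e2 : ∀ x, e (i2 x) = (1, x) := fun x => e.apply_symm_apply (1, x)
  have h1 : ∀ x, IsUnit (i1 x) → IsUnit x := by
    intro x hx
    have h := hx.map e
    rw [e1, Prod.isUnit_iff] at h
    exact h.1
  have h2 : ∀ x, IsUnit (i2 x) → IsUnit x := by
    intro x hx
    have h := hx.map e
    rw [e2, Prod.isUnit_iff] at h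
    exact h.2
  have hprod : ∀ n : ℤ, χ (n : ZMod (a * b)) = CA_pull χ i1 h1 (n : ZMod a) * CA_pull χ i2 h2 (n : ZMod b) := by
    intro n
    rw [CA_pull_apply, CA_pull_apply, ← map_mul]
    congr 1
    apply e.injective
    rw [map_mul, e1, e2, map_intCast]
    ext <;> simp
  have hprod' : ∀ n : ℕ, χ (n : ZMod (a * b)) = CA_pull χ i1 h1 (n : ZMod a) * CA_pull χ i2 h2 (n : ZMod b) := by
    intro n
    have h := hprod (n : ℤ)
    rwa [Int.cast_natCast, Int.cast_natCast, Int.cast_natCast] at h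
  refine ⟨CA_pull χ i1 h1, CA_pull χ i2 h2, hprod, ?_, ?_, ?_⟩
  · intro m hm
    exact ⟨CA_pull_pow χ i1 h1 m hm, CA_pull_pow χ i2 h2 m hm⟩
  · rintro p hp hpa ⟨n, hn1, hn2, hn3⟩
    have hdiv : a * b / p = (a / p) * b := by
      rw [mul_comm a b, Nat.mul_div_assoc b hpa, mul_comm]
    rw [hdiv] at hn2
    refine ⟨n, hn1.coprime_mul_right_right, hn2.of_mul_right b, ?_⟩
    have hb : (n : ZMod b) = 1 := by
      have h := (ZMod.natCast_eq_natCast_iff n 1 b).2 (hn2.of_mul_left (a / p))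
      rwa [Nat.cast_one] at h
    rw [hprod' n, hb, map_one, mul_one] at hn3
    exact hn3
  · rintro p hp hpb ⟨n, hn1, hn2, hn3⟩
    have hdiv : a * b / p = a * (b / p) := Nat.mul_div_assoc a hpb
    rw [hdiv] at hn2
    refine ⟨n, hn1.coprime_mul_left_right, hn2.of_mul_left a, ?_⟩
    have ha : (n : ZMod a) = 1 := by
      have h := (ZMod.natCast_eq_natCast_iff n 1 a).2 (hn2.of_mul_right (b / p))
      rwa [Nat.cast_one] at h
    rw [hprod' n, ha, map_one, one_mul] at hn3
    exact hn3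

end Pool.Agent.Lib.MP_42948a_nt.BU
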