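import Pool.Agent.Lib.MP_42948a_nt.BU.Defs

/-!
# The complete sum is multiplicative (job CB)

`e = ZMod.chineseRemainder hab`. For `x : ZMod (a * b)`, `x = (n : ZMod (a * b))` with the integer `n = x.val`; `x + β = ((n + β : ℤ) : ZMod (a*b))`, so by `h`
the summand of `CS χ β` at `x` is the product of the summand of `CS χa β` at `(n : ZMod a)` and that of `CS χb β` at `(n : ZMod b)`
(`Finset.prod_mul_distrib`, `map_mul` for the conjugation), and `e x = (n, n)`. Sum over `x` via `e` (`Equiv.sum_comp`,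
`Fintype.sum_prod_type`) and `Finset.sum_mul_sum`.
-/

namespace Pool.Agent.Lib.MP_42948a_nt.BU

open Finset

theorem CS_mul {r : ℕ} (a b : ℕ) [NeZero a] [NeZero b] [NeZero (a * b)] (hab : a.Coprime b)
    (χ : DirichletCharacter ℂ (a * b)) (χa : DirichletCharacter ℂ a) (χb : DirichletCharacter ℂ b)
    (h : ∀ n : ℤ, χ (n : ZMod (a * b)) = χa (n : ZMod a) * χb (n : ZMod b)) (β : Fin r ⊕ Fin r → ℤ) :
    CS χ β = CS χa β * CS χb β := by
  set e := ZMod.chineseRemainder hab with he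
  have key : ∀ (x : ZMod (a * b)) (m : ℤ), χ (x + (m : ZMod (a * b))) =
      χa ((e x).1 + (m : ZMod a)) * χb ((e x).2 + (m : ZMod b)) := by
    intro x m
    have hx : x = (((x.val : ℤ)) : ZMod (a * b)) := by
      rw [Int.cast_natCast, ZMod.natCast_zmod_val]
    have hex : e x = (((x.val : ℤ) : ZMod a), ((x.val : ℤ) : ZMod b)) := by
      conv_lhs => rw [hx]
      rw [map_intCast]
      rfl
    rw [hex]
    have h1 := h ((x.val : ℤ) + m)
    have h2 : (((x.val : ℤ) + m : ℤ) : ZMod (a * b)) = x + (m : ZMod (a * b)) := by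
      rw [Int.cast_add, ← hx]
    rw [h2] at h1
    rw [h1, Int.cast_add, Int.cast_add]
  unfold CS
  rw [Finset.sum_mul_sum, ← Fintype.sum_prod_type']
  rw [← Equiv.sum_comp e.toEquiv]
  apply Finset.sum_congr rfl
  intro x _
  show _ = ((∏ i : Fin r, χa ((e x).1 + (β (Sum.inl i) : ZMod a))) *
    ∏ i : Fin r, (starRingEnd ℂ) (χa ((e x).1 + (β (Sum.inr i) : ZMod a)))) *
    ((∏ i : Fin r, χb ((e x).2 + (β (Sum.inl i) : ZMod b))) *
    ∏ i : Fin r, (starRingEnd ℂ) (χb ((e x).2 + (β (Sum.inr i) : ZMod b))))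
  simp only [key, map_mul, Finset.prod_mul_distrib]
  ring

/-- the trivial bound -/
theorem CS_trivial {r q : ℕ} [NeZero q] (χ : DirichletCharacter ℂ q) (β : Fin r ⊕ Fin r → ℤ) : ‖CS χ β‖ ≤ q := by
  unfold CS
  refine (norm_sum_le _ _).trans ?_
  have h1 : ∀ x ∈ (Finset.univ : Finset (ZMod q)), ‖(∏ i : Fin r, χ (x + (β (Sum.inl i) : ZMod q))) *
      ∏ i : Fin r, (starRingEnd ℂ) (χ (x + (β (Sum.inr i) : ZMod q)))‖ ≤ 1 := by
    intro x _
    rw [norm_mul, norm_prod, norm_prod]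
    refine mul_le_one₀ ?_ (Finset.prod_nonneg fun _ _ => norm_nonneg _) ?_
    · exact Finset.prod_le_one (fun _ _ => norm_nonneg _) (fun _ _ => DirichletCharacter.norm_le_one χ _)
    · refine Finset.prod_le_one (fun _ _ => norm_nonneg _) (fun _ _ => ?_)
      rw [RCLike.norm_conj]
      exact DirichletCharacter.norm_le_one χ _
  refine (Finset.sum_le_sum h1).trans ?_
  simp [ZMod.card]

end Pool.Agent.Lib.MP_42948a_nt.BU
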