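import Pool.Agent.Lib.MP_42948a_nt.BU.WH
import Pool.Agent.Lib.MP_42948a_nt.BU.CA
import Pool.Agent.Lib.MP_42948a_nt.BU.CB

/-!
# Complete sums to squarefree moduli (job CC)

`CS_prime`: `q = p` prime (`Fact p.Prime`), `NT χ p`: `p / p = 1`, so some `n` coprime to `p` has `χ n ≠ 1` and `χ ≠ 1`. If `p ∣ Dl β j` use `CS_trivial`.
Otherwise `p` divides no difference `β i - β j`, `i ≠ j`, so `(β i : ZMod p) ≠ β j` (`ZMod.intCast_eq_intCast_iff_dvd_sub`) and `WeilC` applies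
with `b i = (β i : ZMod p)`.
`CS_sqfree`: strong induction on `q` (`∀ q, NeZero q → ..`; the instance is a subsingleton, use `haveI`). `q = 1`: `ZMod 1` has one element, so `‖CS‖ ≤ 1`
by `CS_trivial` and the product is empty. `q > 1`: `p = q.minFac`, `q = p * q'`, `q'` coprime to `p` and squarefree (`Nat.squarefree_mul_iff`-like), `subst`;
`crt_char p q'` and `CS_mul` give `CS χ β = CS χp β * CS χ' β`; `CS_prime` for `χp` (`NT χ p → NT χp p`), the induction hypothesis for `χ'`, and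
`(p * q').primeFactors = insert p q'.primeFactors` (`Nat.Coprime.primeFactors_mul`, `Nat.Prime.primeFactors`), all factors are `≥ 0`.
-/

namespace Pool.Agent.Lib.MP_42948a_nt.BU

open Finset

theorem CS_prime {M0 r : ℕ} {C : ℝ} (hC : WeilC M0 r C) {m : ℕ} (hm1 : 1 ≤ m) (hm : m ≤ M0)
    (β : Fin r ⊕ Fin r → ℤ) (j : Fin r ⊕ Fin r) (p : ℕ) [Fact p.Prime] (χ : DirichletCharacter ℂ p) (hχ : χ ^ m = 1) (hNT : NT χ p) :
    ‖CS χ β‖ ≤ if (p : ℤ) ∣ Dl β j then (p : ℝ) else C * √(p : ℝ) := by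
  split_ifs with hd
  · exact CS_trivial χ β
  · obtain ⟨n, hn, -, hne⟩ := hNT
    have hχ1 : χ ≠ 1 := by
      rintro rfl
      apply hne
      have hu : IsUnit (n : ZMod p) := (ZMod.isUnit_iff_coprime n p).mpr hn
      exact MulChar.one_apply hu
    have hb : ∀ i, i ≠ j → ((β i : ZMod p)) ≠ (β j : ZMod p) := by
      intro i hij heq
      apply hd
      have h1 : (p : ℤ) ∣ β i - β j := (ZMod.intCast_eq_intCast_iff_dvd_sub (β j) (β i) p).mp heq.symm
      exact h1.trans (Finset.dvd_prod_of_mem (fun i => β i - β j) (Finset.mem_erase.mpr ⟨hij, Finset.mem_univ i⟩))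
    exact hC p χ m hm1 hm hχ hχ1 (fun i => (β i : ZMod p)) j hb

private theorem CC_sqfree_aux {M0 r : ℕ} {C : ℝ} (hC1 : 1 ≤ C) (hC : WeilC M0 r C) {m : ℕ} (hm1 : 1 ≤ m) (hm : m ≤ M0)
    (β : Fin r ⊕ Fin r → ℤ) (j : Fin r ⊕ Fin r) : ∀ (q : ℕ) (hq0 : NeZero q), Squarefree q → ∀ χ : DirichletCharacter ℂ q,
    χ ^ m = 1 → (∀ p : ℕ, p.Prime → p ∣ q → NT χ p) →
    ‖CS χ β‖ ≤ ∏ p ∈ q.primeFactors, (if (p : ℤ) ∣ Dl β j then (p : ℝ) else C * √(p : ℝ)) := by
  intro q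
  induction q using Nat.strong_induction_on with
  | _ q ih =>
    intro hq0 hq χ hχ hNT
    by_cases h1 : q = 1
    · subst h1
      have h := CS_trivial χ β
      simpa using h
    · obtain ⟨p, hp, q', rfl⟩ : ∃ p : ℕ, p.Prime ∧ ∃ q', q = p * q' :=
        ⟨q.minFac, Nat.minFac_prime h1, Nat.minFac_dvd q⟩
      have hq'0 : q' ≠ 0 := by
        rintro rfl
        exact hq0.out (by simp)
      haveI : NeZero q' := ⟨hq'0⟩
      haveI : NeZero p := ⟨hp.ne_zero⟩
      haveI : Fact p.Prime := ⟨hp⟩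
      obtain ⟨hcop, -, hq'⟩ := Nat.squarefree_mul_iff.mp hq
      have hlt : q' < p * q' := by
        have h2 := hp.two_le
        have : 0 < q' := Nat.pos_of_ne_zero hq'0
        nlinarith
      obtain ⟨χp, χ', hmul, hpow, hNTp, hNT'⟩ := crt_char p q' hcop χ
      have hCS : CS χ β = CS χp β * CS χ' β := CS_mul p q' hcop χ χp χ' hmul β
      have hA := CS_prime hC hm1 hm β j p χp (hpow m hχ).1 (hNTp p hp dvd_rfl (hNT p hp (dvd_mul_right p q')))
      have hB := ih q' hlt ‹NeZero q'› hq' χ' (hpow m hχ).2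
        (fun l hl hlq => hNT' l hl hlq (hNT l hl (hlq.mul_left p)))
      have hfac : (p * q').primeFactors = insert p q'.primeFactors := by
        rw [hcop.primeFactors_mul, hp.primeFactors, Finset.insert_eq]
      have hnot : p ∉ q'.primeFactors := by
        intro hmem
        have h2 : p ∣ q' := Nat.dvd_of_mem_primeFactors hmem
        have h3 : p ∣ 1 := by
          have := Nat.dvd_gcd (dvd_refl p) h2
          rwa [hcop] at this
        exact hp.one_lt.ne' (Nat.dvd_one.mp h3)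
      have hCS' : ‖CS χ β‖ = ‖CS χp β‖ * ‖CS χ' β‖ := by
        rw [hCS, norm_mul]
      rw [hfac, Finset.prod_insert hnot]
      have h0 : (0 : ℝ) ≤ if (p : ℤ) ∣ Dl β j then (p : ℝ) else C * √(p : ℝ) := by
        split_ifs
        · positivity
        · have : 0 ≤ C := by linarith
          positivity
      calc ‖CS χ β‖ = ‖CS χp β‖ * ‖CS χ' β‖ := hCS'
        _ ≤ _ := mul_le_mul hA hB (norm_nonneg _) h0

theorem CS_sqfree {M0 r : ℕ} {C : ℝ} (hC1 : 1 ≤ C) (hC : WeilC M0 r C) {m : ℕ} (hm1 : 1 ≤ m) (hm : m ≤ M0)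
    (β : Fin r ⊕ Fin r → ℤ) (j : Fin r ⊕ Fin r) (q : ℕ) [NeZero q] (hq : Squarefree q) (χ : DirichletCharacter ℂ q)
    (hχ : χ ^ m = 1) (hNT : ∀ p : ℕ, p.Prime → p ∣ q → NT χ p) :
    ‖CS χ β‖ ≤ ∏ p ∈ q.primeFactors, (if (p : ℤ) ∣ Dl β j then (p : ℝ) else C * √(p : ℝ)) :=
  CC_sqfree_aux hC1 hC hm1 hm β j q inferInstance hq χ hχ hNT

end Pool.Agent.Lib.MP_42948a_nt.BU
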