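import Pool.Agent.Lib.MP_42948a_nt.BU.CC

/-!
# Complete sums to the modulus `q0 q1` with shifts divisible by `q0` (job CD)

`crt_char q0 q1` and `CS_mul`: `CS χ β' = CS χ0 β' * CS χ1 β'`, `β' i = q0 * β i`. `‖CS χ0 β'‖ ≤ q0` (`CS_trivial`), and `CS_sqfree` for `χ1` and `β'`
(`NT χ p → NT χ1 p` for `p ∣ q1`). For a prime `p ∣ q1`: `Dl β' j = q0^k * Dl β j` (`Finset.prod_mul_distrib`/`prod_const`, `β' i - β' j = q0 (β i - β j)`) and
`p` does not divide `q0`, so `p ∣ Dl β' j ↔ p ∣ Dl β j`.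
-/

namespace Pool.Agent.Lib.MP_42948a_nt.BU

open Finset

private theorem CD_Dl {r : ℕ} (q : ℤ) (β : Fin r ⊕ Fin r → ℤ) (j : Fin r ⊕ Fin r) :
    Dl (fun i => q * β i) j = q ^ (univ.erase j).card * Dl β j := by
  rw [Dl, Dl, ← Finset.prod_const, ← Finset.prod_mul_distrib]
  refine Finset.prod_congr rfl fun i _ => ?_
  ring

theorem CS_bound {M0 r : ℕ} {C : ℝ} (hC1 : 1 ≤ C) (hC : WeilC M0 r C) {m : ℕ} (hm1 : 1 ≤ m) (hm : m ≤ M0)
    (β : Fin r ⊕ Fin r → ℤ) (j : Fin r ⊕ Fin r) (q0 q1 : ℕ) [NeZero q0] [NeZero q1] [NeZero (q0 * q1)]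
    (hco : q0.Coprime q1) (hq : Squarefree q1) (χ : DirichletCharacter ℂ (q0 * q1))
    (hχ : χ ^ m = 1) (hNT : ∀ p : ℕ, p.Prime → p ∣ q1 → NT χ p) :
    ‖CS χ (fun i => (q0 : ℤ) * β i)‖ ≤
      (q0 : ℝ) * ∏ p ∈ q1.primeFactors, (if (p : ℤ) ∣ Dl β j then (p : ℝ) else C * √(p : ℝ)) := by
  obtain ⟨χ0, χ1, hmul, hpow, _, hNT1⟩ := crt_char q0 q1 hco χ
  rw [CS_mul q0 q1 hco χ χ0 χ1 hmul, norm_mul]
  have h1 : ‖CS χ0 (fun i => (q0 : ℤ) * β i)‖ ≤ (q0 : ℝ) := CS_trivial χ0 _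
  have h2 := CS_sqfree hC1 hC hm1 hm (fun i => (q0 : ℤ) * β i) j q1 hq χ1 (hpow m hχ).2
    (fun p hp hpq => hNT1 p hp hpq (hNT p hp hpq))
  have h3 : ∏ p ∈ q1.primeFactors, (if (p : ℤ) ∣ Dl (fun i => (q0 : ℤ) * β i) j then (p : ℝ) else C * √(p : ℝ)) =
      ∏ p ∈ q1.primeFactors, (if (p : ℤ) ∣ Dl β j then (p : ℝ) else C * √(p : ℝ)) := by
    refine Finset.prod_congr rfl fun p hp => ?_
    have hpp : p.Prime := Nat.prime_of_mem_primeFactors hp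
    have hpq : p ∣ q1 := Nat.dvd_of_mem_primeFactors hp
    have hpi : Prime (p : ℤ) := Nat.prime_iff_prime_int.mp hpp
    have h4 : (p : ℤ) ∣ Dl (fun i => (q0 : ℤ) * β i) j ↔ (p : ℤ) ∣ Dl β j := by
      rw [CD_Dl]
      constructor
      · intro h
        rcases hpi.dvd_or_dvd h with h5 | h5
        · exfalso
          have h6 : (p : ℤ) ∣ (q0 : ℤ) := hpi.dvd_of_dvd_pow h5
          have h7 : p ∣ q0 := by exact_mod_cast h6
          exact hpp.one_lt.ne' (Nat.eq_one_of_dvd_coprimes hco h7 hpq)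
        · exact h5
      · intro h
        exact Dvd.dvd.mul_left h _
    simp only [h4]
  rw [h3] at h2
  exact mul_le_mul h1 h2 (norm_nonneg _) (Nat.cast_nonneg _)

end Pool.Agent.Lib.MP_42948a_nt.BU
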