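import Pool.Agent.Lib.MP_42948a_nt.BU.Defs

/-!
# Greatest common divisors and products (job CE)

`prod_gcd`: for `p` with `p ∣ D`: `p = √p * √p ≤ C √p √p`; so the product is `≤ ∏_{p ∣ q} C √p * ∏_{p ∣ q, p ∣ D} √p = C^ω √(∏_{p ∣ q} p) √(∏_{p ∣ q, p ∣ D} p)`,
`∏_{p ∣ q} p = q` (squarefree, `Nat.prod_primeFactors_of_squarefree`) and `∏_{p ∣ q, p ∣ D} p ∣ gcd(q, |D|)` (distinct primes,
`Finset.prod_primes_dvd`), which is positive, so `∏ ≤ gcd`.
`gcd_prod_le`: induction on `s`: `Nat.gcd q (m n) ∣ Nat.gcd q m * Nat.gcd q n` (`Nat.gcd_mul_dvd_mul_gcd`), all positive.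
`sqrt_gcd_Dl`: `(Dl β j).natAbs = ∏ (β i - β j).natAbs` (`Int.natAbs_prod` or `map_prod Int.natAbsHom`), `gcd_prod_le`, `Real.sqrt` of a product
(`Real.sqrt_le_sqrt`, `Real.sqrt_prod`-like by induction or `Real.sqrt_eq_rpow` with `Real.finset_prod_rpow`).
-/

namespace Pool.Agent.Lib.MP_42948a_nt.BU

open Finset

private theorem CE_sqrt_prod {ι : Type*} (s : Finset ι) (f : ι → ℕ) :
    √((∏ i ∈ s, f i : ℕ) : ℝ) = ∏ i ∈ s, √((f i : ℕ) : ℝ) := by
  classical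
  induction s using Finset.induction_on with
  | empty => simp
  | insert a s ha ih =>
    rw [Finset.prod_insert ha, Finset.prod_insert ha, Nat.cast_mul, Real.sqrt_mul (Nat.cast_nonneg _),
      ih]

theorem prod_gcd (q : ℕ) (hq : Squarefree q) (D : ℤ) (C : ℝ) (hC : 1 ≤ C) :
    ∏ p ∈ q.primeFactors, (if (p : ℤ) ∣ D then (p : ℝ) else C * √(p : ℝ)) ≤
      C ^ q.primeFactors.card * √(q : ℝ) * √((Nat.gcd q D.natAbs : ℕ) : ℝ) := by
  classical
  have hq0 : q ≠ 0 := hq.ne_zero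
  have h1 : ∏ p ∈ q.primeFactors, (if (p : ℤ) ∣ D then (p : ℝ) else C * √(p : ℝ)) ≤
      ∏ p ∈ q.primeFactors, (C * √(p : ℝ) * (if (p : ℤ) ∣ D then √(p : ℝ) else 1)) := by
    refine prod_le_prod (fun p _ => ?_) (fun p _ => ?_)
    · split_ifs
      · exact Nat.cast_nonneg _
      · positivity
    · split_ifs with h
      · rw [mul_assoc, Real.mul_self_sqrt (Nat.cast_nonneg _)]
        have : (0 : ℝ) ≤ p := Nat.cast_nonneg _
        nlinarith
      · rw [mul_one]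
  refine h1.trans ?_
  rw [prod_mul_distrib, prod_mul_distrib, prod_const, ← prod_filter, ← CE_sqrt_prod,
    Nat.prod_primeFactors_of_squarefree hq, ← CE_sqrt_prod]
  refine mul_le_mul_of_nonneg_left ?_ (by positivity)
  refine Real.sqrt_le_sqrt ?_
  have hdvd : ∏ p ∈ q.primeFactors.filter (fun p : ℕ => (p : ℤ) ∣ D), p ∣ Nat.gcd q D.natAbs := by
    refine Finset.prod_primes_dvd _ (fun p hp => ?_) (fun p hp => ?_)
    · rw [mem_filter] at hp
      exact (Nat.prime_of_mem_primeFactors hp.1).prime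
    · rw [mem_filter] at hp
      exact Nat.dvd_gcd (Nat.dvd_of_mem_primeFactors hp.1) (Int.natCast_dvd.1 hp.2)
  exact_mod_cast Nat.le_of_dvd (Nat.gcd_pos_of_pos_left _ (Nat.pos_of_ne_zero hq0)) hdvd

theorem gcd_prod_le {ι : Type*} (q : ℕ) (hq : 0 < q) (s : Finset ι) (f : ι → ℕ) :
    Nat.gcd q (∏ i ∈ s, f i) ≤ ∏ i ∈ s, Nat.gcd q (f i) := by
  classical
  induction s using Finset.induction_on with
  | empty => simp
  | insert a s ha ih =>
    rw [Finset.prod_insert ha, Finset.prod_insert ha]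
    have h1 : Nat.gcd q (f a * ∏ i ∈ s, f i) ≤ Nat.gcd q (f a) * Nat.gcd q (∏ i ∈ s, f i) :=
      Nat.le_of_dvd (Nat.mul_pos (Nat.gcd_pos_of_pos_left _ hq) (Nat.gcd_pos_of_pos_left _ hq))
        (Nat.gcd_mul_right_dvd_mul_gcd _ _ _)
    exact h1.trans (Nat.mul_le_mul_left _ ih)

theorem sqrt_gcd_Dl {r : ℕ} (q : ℕ) (hq : 0 < q) (β : Fin r ⊕ Fin r → ℤ) (j : Fin r ⊕ Fin r) :
    √((Nat.gcd q (Dl β j).natAbs : ℕ) : ℝ) ≤ ∏ i ∈ univ.erase j, √((Nat.gcd q (β i - β j).natAbs : ℕ) : ℝ) := by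
  have e : (Dl β j).natAbs = ∏ i ∈ univ.erase j, (β i - β j).natAbs := by
    rw [Dl]
    exact map_prod Int.natAbsHom _ _
  rw [← CE_sqrt_prod, e]
  refine Real.sqrt_le_sqrt ?_
  exact_mod_cast gcd_prod_le q hq _ _

end Pool.Agent.Lib.MP_42948a_nt.BU
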