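import Mathlib

/-!
# Burgess' bound for characters of bounded order: definitions
-/

namespace Pool.Agent.Lib.MP_42948a_nt.BU

open Finset

/-- `χ` is not trivial on the units congruent to `1` modulo `q / p` -/
def NT {q : ℕ} (χ : DirichletCharacter ℂ q) (p : ℕ) : Prop :=
  ∃ n : ℕ, n.Coprime q ∧ n ≡ 1 [MOD q / p] ∧ χ (n : ZMod q) ≠ 1

/-- the complete sum -/
noncomputable def CS {r q : ℕ} [NeZero q] (χ : DirichletCharacter ℂ q) (β : Fin r ⊕ Fin r → ℤ) : ℂ :=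
  ∑ x : ZMod q, (∏ i : Fin r, χ (x + (β (Sum.inl i) : ZMod q))) *
    ∏ i : Fin r, (starRingEnd ℂ) (χ (x + (β (Sum.inr i) : ZMod q)))

/-- the product of the differences with `β j` -/
def Dl {r : ℕ} (β : Fin r ⊕ Fin r → ℤ) (j : Fin r ⊕ Fin r) : ℤ :=
  ∏ i ∈ univ.erase j, (β i - β j)

/-- all tuples of numbers `1 ≤ b ≤ B` -/
def Tup (r B : ℕ) : Finset (Fin r ⊕ Fin r → ℕ) := Fintype.piFinset (fun _ => Icc 1 B)

open Classical in
/-- the number of pairs `(a, n)`, `a ∈ 𝒜`, `1 ≤ n ≤ N`, with `n / a = x` -/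
noncomputable def nu (q : ℕ) (𝒜 : Finset ℕ) (N : ℕ) (x : ZMod q) : ℕ :=
  ((𝒜 ×ˢ Icc 1 N).filter (fun t : ℕ × ℕ => (t.2 : ZMod q) = x * (t.1 : ZMod q))).card

/-- the short sum -/
noncomputable def TS {q : ℕ} (χ : DirichletCharacter ℂ q) (q0 B : ℕ) (x : ZMod q) : ℝ :=
  ‖∑ b ∈ Icc 1 B, χ (x + ((q0 * b : ℕ) : ZMod q))‖

end Pool.Agent.Lib.MP_42948a_nt.BU
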