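import Mathlib

/-!
# Hölder's inequality with three factors (job HA)

(1) `(∑ ν T)^r ≤ (∑ ν)^(r-1) * ∑ ν T^r`: if `∑ ν = 0` then `ν = 0` on `s` and both sides are `0` (`r ≥ 1`); otherwise this is
`Real.pow_arith_mean_le_arith_mean_pow` with the weights `ν / ∑ ν`, multiplied by `(∑ ν)^r`.
(2) Cauchy-Schwarz (`Finset.sum_mul_sq_le_sq_mul_sq`): `(∑ ν * T^r)^2 ≤ (∑ ν^2) (∑ T^(2r))`. Square (1) and use (2); `(2r - 2) = 2 (r - 1)`.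
-/

namespace Pool.Agent.Lib.MP_42948a_nt.BU

open Finset

theorem holder3 {X : Type*} (s : Finset X) (ν T : X → ℝ) (hν : ∀ x ∈ s, 0 ≤ ν x) (hT : ∀ x ∈ s, 0 ≤ T x) (r : ℕ)
    (hr : 1 ≤ r) :
    (∑ x ∈ s, ν x * T x) ^ (2 * r) ≤
      (∑ x ∈ s, ν x) ^ (2 * r - 2) * (∑ x ∈ s, ν x ^ 2) * ∑ x ∈ s, T x ^ (2 * r) := by
  have h1 : (∑ x ∈ s, ν x * T x) ^ r ≤ (∑ x ∈ s, ν x) ^ (r - 1) * ∑ x ∈ s, ν x * T x ^ r := by
    have hS0 : 0 ≤ ∑ x ∈ s, ν x := Finset.sum_nonneg hν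
    rcases hS0.eq_or_lt with h0 | h0
    · have hz : ∀ x ∈ s, ν x = 0 := (Finset.sum_eq_zero_iff_of_nonneg hν).1 h0.symm
      have e1 : ∑ x ∈ s, ν x * T x = 0 := Finset.sum_eq_zero fun x hx => by rw [hz x hx, zero_mul]
      have e2 : ∑ x ∈ s, ν x * T x ^ r = 0 := Finset.sum_eq_zero fun x hx => by rw [hz x hx, zero_mul]
      rw [e1, e2, mul_zero, zero_pow (by omega)]
    · have hw1 : ∑ x ∈ s, ν x / ∑ y ∈ s, ν y = 1 := by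
        rw [← Finset.sum_div, div_self h0.ne']
      have h2 := Real.pow_arith_mean_le_arith_mean_pow s (fun x => ν x / ∑ y ∈ s, ν y) T
        (fun x hx => div_nonneg (hν x hx) hS0) hw1 hT r
      have e1 : ∑ x ∈ s, ν x / (∑ y ∈ s, ν y) * T x = (∑ x ∈ s, ν x * T x) / ∑ y ∈ s, ν y := by
        rw [Finset.sum_div]
        exact Finset.sum_congr rfl fun x _ => by ring
      have e2 : ∑ x ∈ s, ν x / (∑ y ∈ s, ν y) * T x ^ r = (∑ x ∈ s, ν x * T x ^ r) / ∑ y ∈ s, ν y := by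
        rw [Finset.sum_div]
        exact Finset.sum_congr rfl fun x _ => by ring
      rw [e1, e2, div_pow, div_le_div_iff₀ (pow_pos h0 r) h0] at h2
      obtain ⟨m, rfl⟩ : ∃ m, r = m + 1 := ⟨r - 1, by omega⟩
      rw [Nat.add_sub_cancel]
      rw [pow_succ (∑ y ∈ s, ν y) m, ← mul_assoc] at h2
      have h3 := le_of_mul_le_mul_right h2 h0
      linarith
  have h2 : (∑ x ∈ s, ν x * T x ^ r) ^ 2 ≤ (∑ x ∈ s, ν x ^ 2) * ∑ x ∈ s, T x ^ (2 * r) := by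
    have h3 := Finset.sum_mul_sq_le_sq_mul_sq s ν (fun x => T x ^ r)
    refine h3.trans (le_of_eq ?_)
    congr 1
    exact Finset.sum_congr rfl fun x _ => by rw [← pow_mul, mul_comm r 2]
  have hl : 0 ≤ (∑ x ∈ s, ν x * T x) ^ r :=
    pow_nonneg (Finset.sum_nonneg fun x hx => mul_nonneg (hν x hx) (hT x hx)) r
  have hS0 : 0 ≤ ∑ x ∈ s, ν x := Finset.sum_nonneg hν
  calc (∑ x ∈ s, ν x * T x) ^ (2 * r) = ((∑ x ∈ s, ν x * T x) ^ r) ^ 2 := by rw [← pow_mul, mul_comm r 2]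
    _ ≤ ((∑ x ∈ s, ν x) ^ (r - 1) * ∑ x ∈ s, ν x * T x ^ r) ^ 2 := pow_le_pow_left₀ hl h1 2
    _ = (∑ x ∈ s, ν x) ^ (2 * r - 2) * (∑ x ∈ s, ν x * T x ^ r) ^ 2 := by
        rw [mul_pow, ← pow_mul]
        congr 2
        omega
    _ ≤ (∑ x ∈ s, ν x) ^ (2 * r - 2) * ((∑ x ∈ s, ν x ^ 2) * ∑ x ∈ s, T x ^ (2 * r)) :=
        mul_le_mul_of_nonneg_left h2 (pow_nonneg hS0 _)
    _ = _ := by ring

end Pool.Agent.Lib.MP_42948a_nt.BU
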