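import Pool.Agent.Lib.MP_42948a_nt.BU.SE
import Pool.Agent.Lib.MP_42948a_nt.BU.HA
import Pool.Agent.Lib.MP_42948a_nt.BU.HB
import Pool.Agent.Lib.MP_42948a_nt.BU.HC

/-!
# Burgess' inequality before the choice of parameters (job HD)

`Z = ∑_x nu x * TS x`. `burgess_core` is the first claim. `holder3` on `univ` with `ν = nu`, `T = TS` (`≥ 0`) and `nu_sum`, `nu_sq` (cast to `ℝ`) and
`W_bound` give `Z^(2r) ≤ (#𝒜 N)^(2r-2) (#𝒜 N τm) W`.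
-/

namespace Pool.Agent.Lib.MP_42948a_nt.BU

open Finset

theorem burgess_ineq {M0 r : ℕ} (hr : 1 ≤ r) {C : ℝ} (hC1 : 1 ≤ C) (hC : WeilC M0 r C) {m : ℕ} (hm1 : 1 ≤ m) (hm : m ≤ M0)
    (q0 q1 A B N τm : ℕ) [NeZero q0] [NeZero q1] [NeZero (q0 * q1)] (hco : q0.Coprime q1) (hq : Squarefree q1)
    (χ : DirichletCharacter ℂ (q0 * q1)) (hχ : χ ^ m = 1) (hNT : ∀ p : ℕ, p.Prime → p ∣ q1 → NT χ p)
    (𝒜 : Finset ℕ) (h𝒜 : ∀ a ∈ 𝒜, 1 ≤ a ∧ a ≤ A ∧ a.Coprime (q0 * q1)) (hAN : A * N < q0 * q1)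
    (hτ : ∀ v : ℕ, 0 < v → v ≤ A * N → v.divisors.card ≤ τm) :
    ∃ Z : ℝ, 0 ≤ Z ∧
      (𝒜.card : ℝ) * B * ‖∑ n ∈ Icc 1 N, χ (n : ZMod (q0 * q1))‖ ≤ Z + (𝒜.card : ℝ) * B * (2 * (A * B * q0)) ∧
      Z ^ (2 * r) ≤ ((𝒜.card : ℝ) * N) ^ (2 * r - 2) * ((𝒜.card : ℝ) * N * τm) *
        ((q0 : ℝ) * ((r : ℝ) ^ (2 * r) * (B : ℝ) ^ r * q1 +
          2 * r * (B * (2 * B * (q1.divisors.card : ℝ)) ^ (2 * r - 1)) * (C ^ q1.primeFactors.card * √(q1 : ℝ)))) := by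
  have hT0 : ∀ x : ZMod (q0 * q1), 0 ≤ TS χ q0 B x := fun x => norm_nonneg _
  refine ⟨∑ x : ZMod (q0 * q1), (nu (q0 * q1) 𝒜 N x : ℝ) * TS χ q0 B x,
    Finset.sum_nonneg fun x _ => mul_nonneg (Nat.cast_nonneg _) (hT0 x), burgess_core χ 𝒜 A B N q0 h𝒜, ?_⟩
  have h1 := holder3 (Finset.univ : Finset (ZMod (q0 * q1))) (fun x => (nu (q0 * q1) 𝒜 N x : ℝ)) (TS χ q0 B)
    (fun x _ => Nat.cast_nonneg _) (fun x _ => hT0 x) r hr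
  have h2 : ∑ x : ZMod (q0 * q1), (nu (q0 * q1) 𝒜 N x : ℝ) = (𝒜.card : ℝ) * N := by
    have := nu_sum (q0 * q1) 𝒜 N (fun a ha => (h𝒜 a ha).2.2)
    exact_mod_cast this
  have h3 : ∑ x : ZMod (q0 * q1), (nu (q0 * q1) 𝒜 N x : ℝ) ^ 2 ≤ (𝒜.card : ℝ) * N * τm := by
    have := nu_sq (q0 * q1) A N τm 𝒜 h𝒜 hAN hτ
    exact_mod_cast this
  have h4 := W_bound hr hC1 hC hm1 hm q0 q1 B hco hq χ hχ hNT
  have h5 : 0 ≤ ∑ x : ZMod (q0 * q1), TS χ q0 B x ^ (2 * r) :=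
    Finset.sum_nonneg fun x _ => pow_nonneg (hT0 x) _
  have h6 : (0 : ℝ) ≤ ((𝒜.card : ℝ) * N) ^ (2 * r - 2) := by positivity
  have h7 : (0 : ℝ) ≤ (𝒜.card : ℝ) * N * τm := by positivity
  simp only [h2] at h1
  refine h1.trans ?_
  exact mul_le_mul (mul_le_mul_of_nonneg_left h3 h6) h4 h5 (mul_nonneg h6 h7)

end Pool.Agent.Lib.MP_42948a_nt.BU
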