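import Mathlib

/-!
# The choice of the parameters in Burgess' inequality (job HF)

`B = ⌈q^(1/(2r))⌉`, `A = ⌊N q^(-κ/4) / (q0 B)⌋`. `B ≥ 1`, `B^r ≥ q^(1/2)`, `B ≤ 2 q^(1/(2r)) ≤ 2 q^(κ/4)` (`1/(2r) ≤ κ/4` from `2/κ ≤ r`), and `B ≥ 2` for `q ≥ 2`.
`N q^(-κ/4)/(q0 B) ≥ q^(1/4 + κ - κ/4 - κ/4)/(2 Q0) ≥ 2` for large `q`, so `A ≥ 1` and `A ≥ N q^(-κ/4)/(2 q0 B) ≥ N q^(-κ/2)/(4 Q0)`. `A N ≤ N^2 q^(-κ/4)/(q0 B) ≤
q^(1 + κ/4 - κ/4)/2 < q`; `A ≤ N ≤ q`. `A B q0 ≤ N q^(-κ/4)`.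
Last claim. Put `s = κ/100`, `S' = S - 2 A B q0`. If `S' ≤ 0` then `S ≤ 2 N q^(-κ/4) ≤ N q^(-κ/(4r))` for large `q` (`r ≥ 8`). Otherwise `a B S' ≤ Z`, so
`(a B S')^(2r) ≤ (a N)^(2r-1) τm q^s B^(2r) q^(1/2)`, i.e. `S'^(2r) ≤ N^(2r-1) τm q^s q^(1/2) / a ≤ N^(2r) q^(3 s) q^(1/2) / (A N)` (`a ≥ A q^(-s)`, `τm ≤ q^s`), and
`A N ≥ N^2 q^(-κ/2)/(4 Q0) ≥ q^(1/2 + 2κ - κ/2)/(4 Q0) ≥ q^(1/2 + κ)` for large `q`. So `S'^(2r) ≤ N^(2r) q^(3s - κ) ≤ (N q^(-(κ/2)(1/(2r)) ...))^(2r)`, i.e.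
`S' ≤ N q^(-(κ - 3s)/(2r)) ≤ N q^(-(9/10) κ/(2r))`, and `S ≤ N (2 q^(-κ/4) + q^(-(9/20) κ/r)) ≤ N q^(-κ/(4r))` for large `q`.
-/

namespace Pool.Agent.Lib.MP_42948a_nt.BU

open Finset

private theorem HF_large (c : ℝ) (hc : 0 < c) (C : ℝ) : ∃ n0 : ℕ, ∀ q : ℕ, n0 ≤ q → C ≤ (q : ℝ) ^ c := by
  have h := (tendsto_rpow_atTop hc).comp (tendsto_natCast_atTop_atTop (R := ℝ))
  obtain ⟨n0, hn0⟩ := Filter.eventually_atTop.mp (h.eventually_ge_atTop C)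
  exact ⟨n0, hn0⟩

/-- The last claim: from the two inequalities to the bound for `S`. -/
private theorem HF_last (κ x : ℝ) (hκ : 0 < κ) (hx : 1 < x) (r : ℕ) (hr : 1 ≤ r) (A B N q0 : ℕ) (hB : 1 ≤ B)
    (hN : 0 < (N : ℝ)) (hAN : x ^ (1 / 2 + κ) ≤ (A : ℝ) * N) (hABq : (A : ℝ) * B * q0 ≤ N * x ^ (-(κ / 4)))
    (h3 : 2 ≤ x ^ (47 * κ / (200 * r))) (h4 : 4 ≤ x ^ (κ / 4 - κ / (4 * r)))
    (S a τm W Z : ℝ) (ha : 0 < a) (hAa : (A : ℝ) * x ^ (-(κ / 100)) ≤ a) 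
    (hτ : τm ≤ x ^ (κ / 100)) (hW0 : 0 ≤ W) (hW : W ≤ x ^ (κ / 100) * ((B : ℝ) ^ (2 * r) * x ^ (1 / 2 : ℝ)))
    (h1 : a * B * S ≤ Z + a * B * (2 * (A * B * q0))) (h2 : Z ^ (2 * r) ≤ (a * N) ^ (2 * r - 2) * (a * N * τm) * W) :
    S ≤ N * x ^ (-(κ / (4 * r))) := by
  have hx0 : 0 < x := by linarith
  have hr0 : (0 : ℝ) < r := by exact_mod_cast (show 0 < r by omega)
  have hB0 : (0 : ℝ) < B := by exact_mod_cast (show 0 < B by omega)
  set S' : ℝ := S - 2 * (A * B * q0) with hS'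
  set y : ℝ := x ^ (-(97 * κ / (200 * r))) with hy
  have hy0 : 0 < y := Real.rpow_pos_of_pos hx0 _
  -- the main part
  have key : S' ≤ N * y := by
    rcases le_or_gt S' 0 with h0 | h0
    · exact h0.trans (by positivity)
    · have e1 : a * B * S' ≤ Z := by
        rw [hS']; linarith [h1]
      have e0 : 0 < a * B * S' := by positivity
      obtain ⟨m, hm⟩ : ∃ m, 2 * r = m + 2 := ⟨2 * r - 2, by omega⟩
      have e2 : (a * B * S') ^ (m + 2) ≤ Z ^ (m + 2) := pow_le_pow_left₀ e0.le e1 _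
      have hm' : 2 * r - 2 = m := by omega
      rw [hm'] at h2
      rw [hm] at h2 hW
      set X : ℝ := x ^ (κ / 100) with hX
      have hX0 : 0 < X := Real.rpow_pos_of_pos hx0 _
      have hhalf : 0 < x ^ (1 / 2 : ℝ) := Real.rpow_pos_of_pos hx0 _
      have e3 : (a * N) ^ m * (a * N * τm) * W ≤
          (a * N) ^ m * (a * N * X) * (X * ((B : ℝ) ^ (m + 2) * x ^ (1 / 2 : ℝ))) := by
        apply mul_le_mul _ hW hW0 (by positivity)
        apply mul_le_mul_of_nonneg_left _ (by positivity)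
        exact mul_le_mul_of_nonneg_left hτ (by positivity)
      have e4 : (a * B * S') ^ (m + 2) ≤
          (a * N) ^ m * (a * N * X) * (X * ((B : ℝ) ^ (m + 2) * x ^ (1 / 2 : ℝ))) := e2.trans (h2.trans e3)
      have e5 : a * S' ^ (m + 2) ≤ (N : ℝ) ^ (m + 1) * (X * X * x ^ (1 / 2 : ℝ)) := by
        have e6 : (a ^ (m + 1) * (B : ℝ) ^ (m + 2)) * (a * S' ^ (m + 2)) ≤
            (a ^ (m + 1) * (B : ℝ) ^ (m + 2)) * ((N : ℝ) ^ (m + 1) * (X * X * x ^ (1 / 2 : ℝ))) := by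
          calc (a ^ (m + 1) * (B : ℝ) ^ (m + 2)) * (a * S' ^ (m + 2)) = (a * B * S') ^ (m + 2) := by
                rw [mul_pow, mul_pow, pow_succ a (m + 1)]; ring
            _ ≤ _ := e4
            _ = _ := by ring
        exact le_of_mul_le_mul_left e6 (by positivity)
      have e7 : x ^ (1 / 2 + κ) * x ^ (-(κ / 100)) ≤ a * N := by
        calc x ^ (1 / 2 + κ) * x ^ (-(κ / 100)) ≤ (A : ℝ) * N * x ^ (-(κ / 100)) :=
              mul_le_mul_of_nonneg_right hAN (Real.rpow_nonneg hx0.le _)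
          _ = (A : ℝ) * x ^ (-(κ / 100)) * N := by ring
          _ ≤ a * N := mul_le_mul_of_nonneg_right hAa hN.le
      have e8 : (x ^ (1 / 2 + κ) * x ^ (-(κ / 100))) * S' ^ (m + 2) ≤
          (N : ℝ) ^ (m + 2) * (X * X * x ^ (1 / 2 : ℝ)) := by
        calc (x ^ (1 / 2 + κ) * x ^ (-(κ / 100))) * S' ^ (m + 2) ≤ (a * N) * S' ^ (m + 2) :=
              mul_le_mul_of_nonneg_right e7 (by positivity)
          _ = N * (a * S' ^ (m + 2)) := by ring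
          _ ≤ N * ((N : ℝ) ^ (m + 1) * (X * X * x ^ (1 / 2 : ℝ))) := mul_le_mul_of_nonneg_left e5 hN.le
          _ = _ := by ring
      have hyp : y ^ (m + 2) = x ^ (-(97 * κ / 100)) := by
        rw [← hm, hy, ← Real.rpow_natCast, ← Real.rpow_mul hx0.le]
        congr 1
        push_cast
        field_simp
        norm_num
      have e9 : S' ^ (m + 2) ≤ (N * y) ^ (m + 2) := by
        have e10 : X * X * x ^ (1 / 2 : ℝ) =
            (x ^ (1 / 2 + κ) * x ^ (-(κ / 100))) * x ^ (-(97 * κ / 100)) := by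
          rw [hX, ← Real.rpow_add hx0, ← Real.rpow_add hx0, ← Real.rpow_add hx0, ← Real.rpow_add hx0]
          congr 1
          ring
        rw [e10] at e8
        have hc : 0 < x ^ (1 / 2 + κ) * x ^ (-(κ / 100)) :=
          mul_pos (Real.rpow_pos_of_pos hx0 _) (Real.rpow_pos_of_pos hx0 _)
        have e11 : (x ^ (1 / 2 + κ) * x ^ (-(κ / 100))) * S' ^ (m + 2) ≤
            (x ^ (1 / 2 + κ) * x ^ (-(κ / 100))) * ((N * y) ^ (m + 2)) := by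
          calc _ ≤ _ := e8
            _ = _ := by rw [mul_pow, hyp]; ring
        exact le_of_mul_le_mul_left e11 hc
      exact (pow_le_pow_iff_left₀ h0.le (by positivity) (by omega)).mp e9
  -- the end
  have hS : S ≤ N * y + 2 * (N * x ^ (-(κ / 4))) := by
    have : S = S' + 2 * (A * B * q0) := by rw [hS']; ring
    rw [this]
    have h5 : (2 : ℝ) * (A * B * q0) ≤ 2 * (N * x ^ (-(κ / 4))) := by linarith
    linarith
  set z : ℝ := x ^ (-(κ / (4 * r))) with hz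
  have hz0 : 0 < z := Real.rpow_pos_of_pos hx0 _
  have f1 : 2 * y ≤ z := by
    have g1 : z = x ^ (47 * κ / (200 * r)) * y := by
      rw [hz, hy, ← Real.rpow_add hx0]
      congr 1
      ring
    rw [g1]
    exact mul_le_mul_of_nonneg_right h3 hy0.le
  have f2 : 4 * x ^ (-(κ / 4)) ≤ z := by
    have g1 : z = x ^ (κ / 4 - κ / (4 * r)) * x ^ (-(κ / 4)) := by
      rw [hz, ← Real.rpow_add hx0]
      congr 1
      ring
    rw [g1]
    exact mul_le_mul_of_nonneg_right h4 (Real.rpow_nonneg hx0.le _)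
  have f3 : N * y ≤ N * (z / 2) := mul_le_mul_of_nonneg_left (by linarith) hN.le
  have f4 : 2 * (N * x ^ (-(κ / 4))) ≤ N * (z / 2) := by
    have : N * (4 * x ^ (-(κ / 4))) ≤ N * z := mul_le_mul_of_nonneg_left f2 hN.le
    linarith
  linarith

theorem fin_num (κ : ℝ) (hκ : 0 < κ) (hκ1 : κ ≤ 1 / 4) (r : ℕ) (hr : 2 / κ ≤ r) (Q0 : ℕ) :
    ∃ q00 : ℕ, ∀ q q0 N : ℕ, q00 ≤ q → 1 ≤ q0 → q0 ≤ Q0 → (q : ℝ) ^ (1 / 4 + κ) ≤ N → (N : ℝ) ≤ (q : ℝ) ^ (1 / 2 + κ / 8) →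
      ∃ A B : ℕ, 1 ≤ B ∧ (q : ℝ) ^ (1 / 2 : ℝ) ≤ (B : ℝ) ^ r ∧ 1 ≤ A ∧ A * N < q ∧ (A : ℝ) ≤ (q : ℝ) ^ (2 : ℝ) ∧
        ∀ S a τm W Z : ℝ, 0 ≤ S → 0 < a → (A : ℝ) * (q : ℝ) ^ (-(κ / 100)) ≤ a → 0 ≤ τm → τm ≤ (q : ℝ) ^ (κ / 100) →
          0 ≤ W → W ≤ (q : ℝ) ^ (κ / 100) * ((B : ℝ) ^ (2 * r) * (q : ℝ) ^ (1 / 2 : ℝ)) → 0 ≤ Z →
          a * B * S ≤ Z + a * B * (2 * (A * B * q0)) →
          Z ^ (2 * r) ≤ (a * N) ^ (2 * r - 2) * (a * N * τm) * W →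
          S ≤ N * (q : ℝ) ^ (-(κ / (4 * r))) := by
  have hrr : 8 ≤ (r : ℝ) := by
    have : 8 ≤ 2 / κ := by
      rw [le_div_iff₀ hκ]; linarith
    linarith
  have hr0 : (0 : ℝ) < r := by linarith
  have hr1 : 1 ≤ r := by
    have : (0 : ℝ) < (r : ℝ) := hr0
    have := Nat.cast_pos.mp this
    omega
  obtain ⟨n1, hn1⟩ := HF_large (1 / 4 + κ / 2) (by positivity) (4 * Q0)
  obtain ⟨n2, hn2⟩ := HF_large (κ / 2) (by positivity) (4 * Q0)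
  obtain ⟨n3, hn3⟩ := HF_large (47 * κ / (200 * r)) (by positivity) 2
  have hpos4 : 0 < κ / 4 - κ / (4 * r) := by
    have : κ / (4 * r) ≤ κ / 32 := by
      apply div_le_div_of_nonneg_left hκ.le (by norm_num) (by linarith)
    linarith
  obtain ⟨n4, hn4⟩ := HF_large (κ / 4 - κ / (4 * r)) hpos4 4
  refine ⟨n1 + n2 + n3 + n4 + 2, ?_⟩
  intro q q0 N hq hq0 hq0Q hN1 hN2
  have E1 := hn1 q (by omega)
  have E2 := hn2 q (by omega)
  have E3 := hn3 q (by omega)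
  have E4 := hn4 q (by omega)
  set x : ℝ := (q : ℝ) with hxdef
  have hx2 : (2 : ℝ) ≤ x := by
    rw [hxdef]; exact_mod_cast (show 2 ≤ q by omega)
  have hx1 : 1 < x := by linarith
  have hx0 : 0 < x := by linarith
  have hQ : (q0 : ℝ) ≤ Q0 := by exact_mod_cast hq0Q
  have hq0R : (1 : ℝ) ≤ q0 := by exact_mod_cast hq0
  have hQ0 : (0 : ℝ) ≤ Q0 := Nat.cast_nonneg _
  have hNpos : 0 < (N : ℝ) := lt_of_lt_of_le (Real.rpow_pos_of_pos hx0 _) hN1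
  -- B
  set b0 : ℝ := x ^ (1 / (2 * r) : ℝ) with hb0
  have hb01 : 1 < b0 := Real.one_lt_rpow hx1 (by positivity)
  set B : ℕ := ⌈b0⌉₊ with hB
  have hBge : b0 ≤ (B : ℝ) := Nat.le_ceil _
  have hBlt : (B : ℝ) < b0 + 1 := Nat.ceil_lt_add_one (by linarith)
  have hB2 : 2 ≤ B := by
    have : (1 : ℝ) < B := lt_of_lt_of_le hb01 hBge
    have : 1 < B := by exact_mod_cast this
    omega
  have hB2R : (2 : ℝ) ≤ B := by exact_mod_cast hB2
  have hbk : b0 ≤ x ^ (κ / 4) := by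
    apply Real.rpow_le_rpow_of_exponent_le hx1.le
    rw [div_le_div_iff₀ (by positivity) (by norm_num)]
    have : 2 / κ * κ ≤ r * κ := mul_le_mul_of_nonneg_right hr hκ.le
    rw [div_mul_cancel₀ _ hκ.ne'] at this
    linarith
  have hBle : (B : ℝ) ≤ 2 * x ^ (κ / 4) := by linarith
  have hBr : x ^ (1 / 2 : ℝ) ≤ (B : ℝ) ^ r := by
    have h1 : b0 ^ r = x ^ (1 / 2 : ℝ) := by
      rw [hb0, ← Real.rpow_natCast, ← Real.rpow_mul hx0.le]
      congr 1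
      field_simp
    rw [← h1]
    exact pow_le_pow_left₀ (by linarith) hBge r
  -- A
  have hD : 0 < (q0 : ℝ) * B := by positivity
  have hDle : (q0 : ℝ) * B ≤ Q0 * (2 * x ^ (κ / 4)) := mul_le_mul hQ hBle (by linarith) hQ0
  set M : ℝ := (N : ℝ) * x ^ (-(κ / 4)) with hM
  have hM0 : 0 < M := mul_pos hNpos (Real.rpow_pos_of_pos hx0 _)
  have hMlow : x ^ (1 / 4 + κ / 2) * x ^ (κ / 4) ≤ M := by
    have e : x ^ (1 / 4 + κ / 2) * x ^ (κ / 4) = x ^ (1 / 4 + κ) * x ^ (-(κ / 4)) := by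
      rw [← Real.rpow_add hx0, ← Real.rpow_add hx0]
      congr 1
      ring
    rw [e, hM]
    exact mul_le_mul_of_nonneg_right hN1 (Real.rpow_nonneg hx0.le _)
  set a0 : ℝ := M / (q0 * B) with ha0
  have ha02 : 2 ≤ a0 := by
    rw [ha0, le_div_iff₀ hD]
    calc 2 * ((q0 : ℝ) * B) ≤ 2 * (Q0 * (2 * x ^ (κ / 4))) := by linarith
      _ = (4 * Q0) * x ^ (κ / 4) := by ring
      _ ≤ x ^ (1 / 4 + κ / 2) * x ^ (κ / 4) := mul_le_mul_of_nonneg_right E1 (Real.rpow_nonneg hx0.le _)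
      _ ≤ M := hMlow
  set A : ℕ := ⌊a0⌋₊ with hA
  have hAle : (A : ℝ) ≤ a0 := Nat.floor_le (by linarith)
  have hAgt : a0 < (A : ℝ) + 1 := Nat.lt_floor_add_one _
  have hAhalf : a0 / 2 ≤ (A : ℝ) := by linarith
  have hA1 : 1 ≤ A := by
    have : (0 : ℝ) < A := by linarith
    have := Nat.cast_pos.mp this
    omega
  have hAB : (A : ℝ) * B * q0 ≤ M := by
    calc (A : ℝ) * B * q0 = A * (q0 * B) := by ring
      _ ≤ a0 * (q0 * B) := mul_le_mul_of_nonneg_right hAle hD.le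
      _ = M := by rw [ha0]; field_simp
  have hMN : M * N ≤ x := by
    calc M * N = N * N * x ^ (-(κ / 4)) := by rw [hM]; ring
      _ ≤ x ^ (1 / 2 + κ / 8) * x ^ (1 / 2 + κ / 8) * x ^ (-(κ / 4)) := by
          apply mul_le_mul_of_nonneg_right _ (Real.rpow_nonneg hx0.le _)
          exact mul_le_mul hN2 hN2 hNpos.le (Real.rpow_nonneg hx0.le _)
      _ = x := by
          rw [← Real.rpow_add hx0, ← Real.rpow_add hx0]
          have : (1 / 2 + κ / 8 + (1 / 2 + κ / 8) + -(κ / 4) : ℝ) = 1 := by ring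
          rw [this, Real.rpow_one]
  have hD2 : 2 ≤ (q0 : ℝ) * B := hB2R.trans (le_mul_of_one_le_left (by linarith) hq0R)
  have hANlt : (A : ℝ) * N < x := by
    have h1 : (A : ℝ) * N ≤ a0 * N := mul_le_mul_of_nonneg_right hAle hNpos.le
    have h2 : a0 * N = M * N / (q0 * B) := by rw [ha0]; ring
    have h3 : M * N / (q0 * B) ≤ x / 2 := by
      apply div_le_div₀ hx0.le hMN (by norm_num) hD2
    linarith
  have hx1' : x ^ (-(κ / 4)) ≤ 1 := Real.rpow_le_one_of_one_le_of_nonpos hx1.le (by linarith)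
  have hAN : x ^ (1 / 2 + κ) ≤ (A : ℝ) * N := by
    have h1 : a0 / 2 * N ≤ A * N := mul_le_mul_of_nonneg_right hAhalf hNpos.le
    refine le_trans ?_ h1
    have h2 : a0 / 2 * N = M * N / (2 * (q0 * B)) := by rw [ha0]; field_simp
    rw [h2, le_div_iff₀ (by positivity)]
    have h3 : x ^ (1 / 2 + κ) * (2 * ((q0 : ℝ) * B)) ≤ x ^ (1 / 2 + κ) * ((4 * Q0) * x ^ (κ / 4)) := by
      apply mul_le_mul_of_nonneg_left _ (Real.rpow_nonneg hx0.le _)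
      calc 2 * ((q0 : ℝ) * B) ≤ 2 * (Q0 * (2 * x ^ (κ / 4))) := by linarith
        _ = (4 * Q0) * x ^ (κ / 4) := by ring
    have h4 : x ^ (1 / 2 + κ) * ((4 * Q0) * x ^ (κ / 4)) ≤ x ^ (1 / 2 + κ) * (x ^ (κ / 2) * x ^ (κ / 4)) := by
      apply mul_le_mul_of_nonneg_left _ (Real.rpow_nonneg hx0.le _)
      exact mul_le_mul_of_nonneg_right E2 (Real.rpow_nonneg hx0.le _)
    have h5 : x ^ (1 / 2 + κ) * (x ^ (κ / 2) * x ^ (κ / 4)) =
        x ^ (1 / 4 + κ) * x ^ (-(κ / 4)) * x ^ (1 / 4 + κ) := by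
      rw [← Real.rpow_add hx0, ← Real.rpow_add hx0, ← Real.rpow_add hx0, ← Real.rpow_add hx0]
      congr 1
      ring
    have h6 : x ^ (1 / 4 + κ) * x ^ (-(κ / 4)) * x ^ (1 / 4 + κ) ≤ M * N := by
      apply mul_le_mul _ hN1 (Real.rpow_nonneg hx0.le _) hM0.le
      rw [hM]
      exact mul_le_mul_of_nonneg_right hN1 (Real.rpow_nonneg hx0.le _)
    linarith
  have hAx : (A : ℝ) ≤ x ^ (2 : ℝ) := by
    have h1 : a0 ≤ N := by
      rw [ha0, div_le_iff₀ hD]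
      have h2 : M ≤ N := by
        rw [hM]
        calc (N : ℝ) * x ^ (-(κ / 4)) ≤ N * 1 := mul_le_mul_of_nonneg_left hx1' hNpos.le
          _ = N := mul_one _
      exact h2.trans (le_mul_of_one_le_right hNpos.le (by linarith))
    calc (A : ℝ) ≤ a0 := hAle
      _ ≤ N := h1
      _ ≤ x ^ (1 / 2 + κ / 8) := hN2
      _ ≤ x ^ (2 : ℝ) := Real.rpow_le_rpow_of_exponent_le hx1.le (by linarith)
  refine ⟨A, B, by omega, hBr, hA1, ?_, hAx, ?_⟩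
  · have : ((A * N : ℕ) : ℝ) < (q : ℝ) := by push_cast; exact hANlt
    exact_mod_cast this
  · intro S a τm W Z _ ha hAa hτ0 hτ hW0 hW _ h1 h2
    exact HF_last κ x hκ hx1 r hr1 A B N q0 (by omega) hNpos hAN hAB E3 E4 S a τm W Z ha hAa hτ hW0 hW h1 h2

end Pool.Agent.Lib.MP_42948a_nt.BU
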