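import Pool.Agent.Lib.MP_42948a_nt.BU.Defs

/-!
# Primitive characters are nontrivial at every prime of the modulus (job MA)

Suppose `¬ NT χ p`: every `n` coprime to `q` with `n ≡ 1 mod q/p` has `χ n = 1`. Then `χ` factors through `q / p`
(`DirichletCharacter.factorsThrough_iff_ker_unitsMap`, `Nat.div_dvd_of_dvd hpq`): for `u` in the kernel of `ZMod.unitsMap` take `n = (u : ZMod q).val`
(coprime to `q`: `ZMod.val_coe_unit_coprime`; `n ≡ 1 mod q/p` because its image in `ZMod (q/p)` is `1`: `ZMod.natCast_eq_natCast_iff`,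
`ZMod.unitsMap_def`/`ZMod.unitsMap_val`-like, `ZMod.natCast_val`). So `q / p ∈ χ.conductorSet` and `χ.conductor ≤ q / p < q`
(`DirichletCharacter.conductor_le_conductor_mem_conductorSet`-like or `Nat.sInf_le`), contradicting `χ.IsPrimitive` (`conductor = q`).
`prim_pow`: `changeLevel (ξ.primitiveCharacter) = ξ` (`changeLevel_primitiveCharacter`), `map_pow`, `changeLevel_eq_one_iff`.
-/

namespace Pool.Agent.Lib.MP_42948a_nt.BU

open Finset

theorem NT_of_primitive {q : ℕ} [NeZero q] (χ : DirichletCharacter ℂ q) (hχ : χ.IsPrimitive) (p : ℕ) (hp : p.Prime)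
    (hpq : p ∣ q) : NT χ p := by
  by_contra hcon
  have hq : 0 < q := Nat.pos_of_ne_zero (NeZero.ne q)
  have hd : q / p ∣ q := Nat.div_dvd_of_dvd hpq
  have hF : χ.FactorsThrough (q / p) := by
    refine (DirichletCharacter.factorsThrough_iff_ker_unitsMap hd).2 ?_
    intro u hu
    rw [MonoidHom.mem_ker, Units.ext_iff, MulChar.coe_toUnitHom, Units.val_one]
    rw [MonoidHom.mem_ker, Units.ext_iff, ZMod.unitsMap_val, ← ZMod.natCast_val,
      Units.val_one, ← Nat.cast_one, ZMod.natCast_eq_natCast_iff] at hu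
    by_contra hne
    refine hcon ⟨(u : ZMod q).val, ZMod.val_coe_unit_coprime u, hu, ?_⟩
    rw [ZMod.natCast_zmod_val]
    exact hne
  have h1 : χ.conductor ≤ q / p := Nat.sInf_le hF
  have h2 : χ.conductor = q := hχ
  have h3 : q / p < q := Nat.div_lt_self hq hp.one_lt
  omega

theorem prim_pow {d : ℕ} [NeZero d] (ξ : DirichletCharacter ℂ d) (m : ℕ) (h : ξ ^ m = 1) :
    ξ.primitiveCharacter ^ m = 1 := by
  have h1 := ξ.changeLevel_primitiveCharacter
  rw [← DirichletCharacter.changeLevel_eq_one_iff ξ.conductor_dvd_level, map_pow, h1]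
  exact h

end Pool.Agent.Lib.MP_42948a_nt.BU
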