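import Pool.Agent.Lib.MP_42948a_nt.BU.Defs

/-!
# The square part of the modulus of a character of bounded order (job MB)

Let `k = q.factorization p ≥ 2`, `j = k / 2 ≥ 1`, so `2 j ≤ k ≤ 2 j + 1 ≤ 3 j`. Put `c = q / p^j` (so `c p^j = q`, and `q ∣ c^2` because `p^(2j) ∣ q`,
`c^2 = q (q / p^(2j))`), and `u t = 1 + c t ∈ ZMod q` for `t : ℕ`. `u t * u t' = 1 + c (t + t') + c^2 t t' = u (t + t')`, and `u (p^j) = 1 + q = 1`.
Let `w = χ (u 1)`. Then `χ (u t) = w^t` and `w^(p^j) = 1`. `NT χ p` gives `n` coprime to `q`, `n ≡ 1 mod q/p`, `χ n ≠ 1`. As `q / p = c p^(j-1)`, in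
`ZMod q` we have `n = 1 + c p^(j-1) t0` for some natural `t0` (from `Nat.ModEq`: `n = 1 + (q/p) t0` with integer `t0`; add multiples of `q` to make `t0 ≥ 0`),
so `χ n = w^(p^(j-1) t0) ≠ 1`, hence `w^(p^(j-1)) ≠ 1`. So `orderOf w = p^j` (`orderOf_eq_prime_pow`), and `w^m = χ^m (u 1) = 1` (`u 1` is a unit,
inverse `u (p^j - 1)`) gives `p^j ∣ m`, `p^j ≤ m ≤ M0`. So `p ≤ p^j ≤ M0` and `p^k ≤ p^(3j) ≤ M0^3`.
-/

namespace Pool.Agent.Lib.MP_42948a_nt.BU

open Finset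

theorem local_bound {q : ℕ} [NeZero q] (χ : DirichletCharacter ℂ q) {m M0 : ℕ} (hm1 : 1 ≤ m) (hm : m ≤ M0)
    (hχ : χ ^ m = 1) (p : ℕ) (hp : p.Prime) (hNT : NT χ p) (hk : 2 ≤ q.factorization p) :
    p ≤ M0 ∧ p ^ (q.factorization p) ≤ M0 ^ 3 := by
  have hq0 : q ≠ 0 := NeZero.ne q
  set k := q.factorization p with hkdef
  set j := k / 2 with hjdef
  have hj1 : 1 ≤ j := by omega
  have hj2 : 2 * j ≤ k := by omega
  have hj3 : k ≤ 3 * j := by omega
  have hpk : p ^ k ∣ q := Nat.ordProj_dvd q p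
  obtain ⟨e, he⟩ : p ^ (2 * j) ∣ q := dvd_trans (pow_dvd_pow p hj2) hpk
  have hppos : 0 < p := hp.pos
  set c : ℕ := p ^ j * e with hcdef
  have hcq : c * p ^ j = q := by
    rw [he, hcdef, two_mul, pow_add]
    ring
  have hcc : c * c = q * e := by
    rw [hcdef, he, two_mul, pow_add]
    ring
  have hccz : (c : ZMod q) * (c : ZMod q) = 0 := by
    rw [← Nat.cast_mul, hcc, Nat.cast_mul, ZMod.natCast_self, zero_mul]
  have hpow : ∀ t : ℕ, (1 + (c : ZMod q)) ^ t = 1 + (c : ZMod q) * (t : ZMod q) := by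
    intro t
    induction t with
    | zero => simp
    | succ t ih =>
      rw [pow_succ, ih]
      push_cast
      linear_combination (t : ZMod q) * hccz
  set w : ℂ := χ (1 + (c : ZMod q)) with hw
  have hχpow : ∀ t : ℕ, χ (1 + (c : ZMod q) * (t : ZMod q)) = w ^ t := by
    intro t
    rw [← hpow t, map_pow]
  have hone : (1 + (c : ZMod q)) ^ (p ^ j) = 1 := by
    rw [hpow, ← Nat.cast_mul, hcq, ZMod.natCast_self, add_zero]
  have hw1 : w ^ (p ^ j) = 1 := by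
    rw [hw, ← map_pow, hone, map_one]
  have hunit : IsUnit (1 + (c : ZMod q)) :=
    IsUnit.of_pow_eq_one hone (pow_ne_zero _ hppos.ne')
  haveI : Fact p.Prime := ⟨hp⟩
  obtain ⟨n, hnq, hn1, hnχ⟩ := hNT
  have hq1 : q ≠ 1 := by
    intro h1
    rw [h1] at hkdef
    simp at hkdef
    omega
  have hn0 : n ≠ 0 := by
    intro h0
    rw [h0] at hnq
    exact hq1 (Nat.coprime_zero_left q |>.1 hnq)
  have hqp : q / p = c * p ^ (j - 1) := by
    apply Nat.div_eq_of_eq_mul_left hppos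
    rw [mul_assoc, ← pow_succ, Nat.sub_add_cancel hj1, hcq]
  have hneq : w ^ p ^ (j - 1) ≠ 1 := by
    intro hcon
    apply hnχ
    have h1 : q / p ∣ n - 1 := (Nat.modEq_iff_dvd' (Nat.one_le_iff_ne_zero.2 hn0)).1 hn1.symm
    obtain ⟨t0, ht0⟩ := h1
    have h2 : n = 1 + c * (p ^ (j - 1) * t0) := by
      rw [hqp] at ht0
      rw [← mul_assoc, ← ht0]
      omega
    have h3 : (n : ZMod q) = 1 + (c : ZMod q) * ((p ^ (j - 1) * t0 : ℕ) : ZMod q) := by
      rw [h2]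
      push_cast
      ring
    rw [h3, hχpow, pow_mul, hcon, one_pow]
  have hord : orderOf w = p ^ j := by
    have h1 := orderOf_eq_prime_pow (x := w) (n := j - 1) (p := p) hneq (by rw [Nat.sub_add_cancel hj1]; exact hw1)
    rwa [Nat.sub_add_cancel hj1] at h1
  have hwm : w ^ m = 1 := by
    have h1 : (χ ^ m) (1 + (c : ZMod q)) = 1 := by
      rw [hχ]
      exact MulChar.one_apply hunit
    rwa [MulChar.pow_apply' χ (by omega)] at h1
  have hdvd : p ^ j ∣ m := by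
    rw [← hord]
    exact orderOf_dvd_of_pow_eq_one hwm
  have hle : p ^ j ≤ M0 := le_trans (Nat.le_of_dvd (by omega) hdvd) hm
  refine ⟨le_trans ?_ hle, ?_⟩
  · calc p = p ^ 1 := (pow_one p).symm
      _ ≤ p ^ j := Nat.pow_le_pow_right hppos hj1
  · calc p ^ k ≤ p ^ (3 * j) := Nat.pow_le_pow_right hppos hj3
      _ = (p ^ j) ^ 3 := by rw [mul_comm, pow_mul]
      _ ≤ M0 ^ 3 := Nat.pow_le_pow_left hle 3

end Pool.Agent.Lib.MP_42948a_nt.BU
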