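import Mathlib

/-!
# Splitting the modulus (job MC)

`q = ∏_{p ∈ q.primeFactors} p^(v_p)` (`Nat.prod_factorization_pow_eq_self`). Let `q0` be the product over the primes with `v_p ≥ 2`, `q1` the
product over the primes with `v_p = 1` (i.e. of these primes themselves). `q = q0 q1` (`Finset.prod_filter_mul_prod_filter_not`), coprime
(`Nat.Coprime.prod_left/right`, `Nat.coprime_pow_primes`/`Nat.coprime_primes`), `q1` squarefree (`Finset.squarefree_prod_of_pairwise_isCoprime`-like or
`Nat.squarefree_iff_prime_squarefree`: a product of distinct primes). Every factor of `q0` is `≤ M0^3` and these primes are distinct numbers in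
`Icc 1 M0`, so there are at most `M0` of them: `q0 ≤ (M0^3)^#{..} ≤ (M0^3)^M0 = M0^(3 M0)` (`Finset.prod_le_pow_card`, `1 ≤ M0`).
-/

namespace Pool.Agent.Lib.MP_42948a_nt.BU

open Finset

theorem modulus_split (M0 : ℕ) (hM0 : 1 ≤ M0) (q : ℕ) (hq : 0 < q)
    (h : ∀ p : ℕ, p.Prime → 2 ≤ q.factorization p → p ≤ M0 ∧ p ^ (q.factorization p) ≤ M0 ^ 3) :
    ∃ q0 q1 : ℕ, q = q0 * q1 ∧ 0 < q0 ∧ 0 < q1 ∧ q0.Coprime q1 ∧ Squarefree q1 ∧ q0 ≤ M0 ^ (3 * M0) := by
  classical
  set P0 : Finset ℕ := q.primeFactors.filter (fun p => 2 ≤ q.factorization p) with hP0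
  set P1 : Finset ℕ := q.primeFactors.filter (fun p => ¬ 2 ≤ q.factorization p) with hP1
  have hpr0 : ∀ p ∈ P0, p.Prime := fun p hp => Nat.prime_of_mem_primeFactors (Finset.mem_filter.1 hp).1
  have hpr1 : ∀ p ∈ P1, p.Prime := fun p hp => Nat.prime_of_mem_primeFactors (Finset.mem_filter.1 hp).1
  have hf1 : ∀ p ∈ P1, q.factorization p = 1 := by
    intro p hp
    obtain ⟨h1, h2⟩ := Finset.mem_filter.1 hp
    have h3 : q.factorization p ≠ 0 := by
      rw [← Nat.support_factorization] at h1
      exact Finsupp.mem_support_iff.1 h1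
    omega
  have hprod : q = (∏ p ∈ P0, p ^ q.factorization p) * ∏ p ∈ P1, p ^ q.factorization p := by
    have h1 := Nat.prod_factorization_pow_eq_self hq.ne'
    rw [Finsupp.prod, Nat.support_factorization] at h1
    rw [hP0, hP1, Finset.prod_filter_mul_prod_filter_not]
    exact h1.symm
  refine ⟨∏ p ∈ P0, p ^ q.factorization p, ∏ p ∈ P1, p ^ q.factorization p, hprod, ?_, ?_, ?_, ?_, ?_⟩
  · exact Finset.prod_pos fun p hp => pow_pos (hpr0 p hp).pos _
  · exact Finset.prod_pos fun p hp => pow_pos (hpr1 p hp).pos _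
  · refine Nat.Coprime.prod_left fun p hp => Nat.Coprime.prod_right fun r hr => ?_
    refine Nat.coprime_pow_primes _ _ (hpr0 p hp) (hpr1 r hr) ?_
    rintro rfl
    exact (Finset.mem_filter.1 hr).2 (Finset.mem_filter.1 hp).2
  · have h2 : ∏ p ∈ P1, p ^ q.factorization p = ∏ p ∈ P1, p :=
      Finset.prod_congr rfl fun p hp => by rw [hf1 p hp, pow_one]
    rw [h2]
    have key : ∀ S : Finset ℕ, (∀ p ∈ S, p.Prime) → Squarefree (∏ p ∈ S, p) := by
      intro S
      induction S using Finset.induction_on with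
      | empty => intro _; simp
      | insert a S ha ih =>
        intro hS
        rw [Finset.prod_insert ha]
        have ha' : a.Prime := hS a (Finset.mem_insert_self a S)
        have hcop : a.Coprime (∏ p ∈ S, p) := by
          refine Nat.Coprime.prod_right fun r hr => ?_
          refine (Nat.coprime_primes ha' (hS r (Finset.mem_insert_of_mem hr))).2 ?_
          rintro rfl
          exact ha hr
        exact (Nat.squarefree_mul hcop).2 ⟨ha'.prime.squarefree, ih fun p hp => hS p (Finset.mem_insert_of_mem hp)⟩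
    exact key P1 hpr1
  · have h3 : ∏ p ∈ P0, p ^ q.factorization p ≤ (M0 ^ 3) ^ P0.card := by
      refine Finset.prod_le_pow_card _ _ _ fun p hp => ?_
      exact (h p (hpr0 p hp) (Finset.mem_filter.1 hp).2).2
    have h4 : P0.card ≤ M0 := by
      have h5 : P0 ⊆ Finset.Icc 1 M0 := by
        intro p hp
        exact Finset.mem_Icc.2 ⟨(hpr0 p hp).one_le, (h p (hpr0 p hp) (Finset.mem_filter.1 hp).2).1⟩
      have h6 := Finset.card_le_card h5
      simpa using h6
    refine h3.trans ?_
    rw [pow_mul]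
    exact Nat.pow_le_pow_right (Nat.pos_of_ne_zero (pow_ne_zero _ (by omega))) h4

end Pool.Agent.Lib.MP_42948a_nt.BU
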