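import Pool.Agent.Lib.MP_42948a_nt.BU.HD
import Pool.Agent.Lib.MP_42948a_nt.BU.HE
import Pool.Agent.Lib.MP_42948a_nt.BU.HF
import Pool.Agent.Lib.MP_42948a_nt.BU.MA
import Pool.Agent.Lib.MP_42948a_nt.BU.MB
import Pool.Agent.Lib.MP_42948a_nt.BU.MC
import Pool.Agent.Lib.MP_42948a_nt.TQ.B4
import Pool.Agent.Lib.MP_42948a_nt.AC.N4

/-!
# Burgess' bound for primitive characters of bounded order (job HG)

`r = ⌈2/κ⌉`, `Q0 = M0^(3 M0)`, `C` from `weil_tuple M0 r`, `κ' = min (κ/(4r)) (κ/32)`. Let `q ≥ q00`, `m ≤ M0` with `χ^m = 1`.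
(1) `N > q^(1/2 + κ/8)`: `χ ≠ 1` (primitive, `q ≥ 2`: `conductor_one`), `polya` and `BB_le` with `κ/16`: `‖∑‖ ≤ BB q ≤ q^(1/2 + κ/16) ≤ N q^(-κ/16)`.
(2) `N ≤ q^(1/2 + κ/8)`: for every prime `p ∣ q`: `NT χ p` (`NT_of_primitive`); `local_bound` and `modulus_split` give `q = q0 q1`; `subst`
(instances `NeZero q0`, `NeZero q1` from positivity). `fin_num` gives `A, B`; `𝒜 = RC q 1 A`: `#𝒜 ≥ A q^(-κ/100)` by `RC_lower` with `η = κ/200`, `z = 1`,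
`M = A ≤ q^2`; its elements are `1 ≤ a ≤ A` coprime to `q`. `τm = ⌊q^(κ/100)⌋`: for `0 < v ≤ A N < q`, `τ(v) ≤ C' v^(κ/200) ≤ C' q^(κ/200) ≤ q^(κ/100)`
(`divisor_bound`), so `τ(v) ≤ τm` (`Nat.le_floor`). `burgess_ineq`, `W_num` with `s = κ/100`, and the last part of `fin_num` with `a = #𝒜 > 0`.
-/

namespace Pool.Agent.Lib.MP_42948a_nt.BU

open Finset Pool.Agent.Lib.MP_42948a_nt.OA Pool.Agent.Lib.MP_42948a_nt.AC

theorem burgess_prim (M0 : ℕ) (κ : ℝ) (hκ : 0 < κ) (hκ1 : κ ≤ 1 / 4) :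
    ∃ κ' : ℝ, 0 < κ' ∧ ∃ q00 : ℕ, ∀ q : ℕ, q00 ≤ q → ∀ [NeZero q] (χ : DirichletCharacter ℂ q), χ.IsPrimitive →
      (∃ m, 1 ≤ m ∧ m ≤ M0 ∧ χ ^ m = 1) → ∀ N : ℕ, (q : ℝ) ^ (1 / 4 + κ) ≤ N →
      ‖∑ n ∈ Icc 1 N, χ (n : ZMod q)‖ ≤ N * (q : ℝ) ^ (-κ') := by
  classical
  obtain ⟨r, hr_def⟩ : ∃ r : ℕ, r = ⌈2 / κ⌉₊ := ⟨_, rfl⟩
  have hrκ : 2 / κ ≤ r := by rw [hr_def]; exact Nat.le_ceil _
  have h8 : (8 : ℝ) ≤ 2 / κ := by rw [le_div_iff₀ hκ]; linarith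
  have hr8 : (8 : ℝ) ≤ r := h8.trans hrκ
  have hr1 : 1 ≤ r := by
    have : (1 : ℝ) ≤ r := by linarith
    exact_mod_cast this
  obtain ⟨C, hC1, hC⟩ := weil_tuple M0 r hr1
  obtain ⟨Q0, hQ0⟩ : ∃ Q0 : ℕ, Q0 = M0 ^ (3 * M0) := ⟨_, rfl⟩
  obtain ⟨qa, ha⟩ := W_num r hr1 C hC1 (κ / 100) (by positivity) Q0
  obtain ⟨qb, hb⟩ := fin_num κ hκ hκ1 r hrκ Q0
  obtain ⟨qc, hc⟩ := RC_lower (κ / 200) (by positivity) (by linarith)
  obtain ⟨C', hC'1, hC'⟩ := divisor_bound (κ / 200) (by positivity)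
  obtain ⟨qd, hd⟩ := BB_le (κ / 16) (by positivity)
  have he : ∀ᶠ q : ℕ in Filter.atTop, C' ≤ (q : ℝ) ^ (κ / 200) :=
    (tendsto_natCast_atTop_atTop (R := ℝ)).eventually
      ((tendsto_rpow_atTop (by positivity : 0 < κ / 200)).eventually_ge_atTop C')
  obtain ⟨qe, he⟩ := Filter.eventually_atTop.mp he
  have hrpos : (0 : ℝ) < r := by linarith
  have hκr : 0 < κ / (4 * r) := by positivity
  refine ⟨min (κ / (4 * r)) (κ / 32), lt_min hκr (by positivity), max (max (max qa qb) (max qc qd)) (max qe 2), ?_⟩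
  intro q hq _ χ hχ hm N hN
  obtain ⟨m, hm1, hm, hχm⟩ := hm
  simp only [max_le_iff] at hq
  obtain ⟨⟨⟨hqa, hqb⟩, hqc, hqd⟩, hqe, hq2⟩ := hq
  have hq1R : (1 : ℝ) ≤ q := by exact_mod_cast (by omega : 1 ≤ q)
  have hqpos : (0 : ℝ) < q := by linarith
  have hN0 : (0 : ℝ) ≤ N := Nat.cast_nonneg _
  have hfin : ∀ t : ℝ, min (κ / (4 * r)) (κ / 32) ≤ t →
      (N : ℝ) * (q : ℝ) ^ (-t) ≤ N * (q : ℝ) ^ (-(min (κ / (4 * r)) (κ / 32))) := by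
    intro t ht
    refine mul_le_mul_of_nonneg_left ?_ hN0
    exact Real.rpow_le_rpow_of_exponent_le hq1R (by linarith)
  rcases lt_or_ge ((q : ℝ) ^ (1 / 2 + κ / 8)) (N : ℝ) with hNbig | hNsmall
  · -- the range of the inequality of Pólya and Vinogradov
    have hχ1 : χ ≠ 1 := by
      rintro rfl
      have h1 : (1 : DirichletCharacter ℂ q).conductor = q := hχ
      rw [DirichletCharacter.conductor_one] at h1
      omega
    refine (TQ.polya q χ hχ1 N).trans ((hd q hqd).1.trans ?_)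
    refine le_trans ?_ (hfin (κ / 16) ((min_le_right _ _).trans (by linarith)))
    calc (q : ℝ) ^ (1 / 2 + κ / 16) = (q : ℝ) ^ (1 / 2 + κ / 8) * (q : ℝ) ^ (-(κ / 16)) := by
          rw [← Real.rpow_add hqpos]; congr 1; ring
      _ ≤ N * (q : ℝ) ^ (-(κ / 16)) := by gcongr
  · refine le_trans ?_ (hfin (κ / (4 * r)) (min_le_left _ _))
    have hNT : ∀ p : ℕ, p.Prime → p ∣ q → NT χ p := fun p hp hpq => NT_of_primitive χ hχ p hp hpq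
    have hq0 : 0 < q := by omega
    obtain ⟨q0, q1, hqq, hq0pos, hq1pos, hco, hsq, hq0le⟩ := modulus_split M0 (hm1.trans hm) q hq0 (by
      intro p hp h2
      have hpq : p ∣ q := by
        by_contra hn
        rw [Nat.factorization_eq_zero_of_not_dvd hn] at h2
        omega
      exact local_bound χ hm1 hm hχm p hp (hNT p hp hpq) h2)
    subst hqq
    haveI : NeZero q0 := ⟨hq0pos.ne'⟩
    haveI : NeZero q1 := ⟨hq1pos.ne'⟩
    rw [← hQ0] at hq0le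
    obtain ⟨A, B, hB1, hBr, hA1, hAN, hA2, hlast⟩ := hb (q0 * q1) q0 N hqb hq0pos hq0le hN hNsmall
    obtain ⟨𝒜, h𝒜def⟩ : ∃ 𝒜 : Finset ℕ, 𝒜 = RC (q0 * q1) 1 A := ⟨_, rfl⟩
    have h𝒜 : ∀ a ∈ 𝒜, 1 ≤ a ∧ a ≤ A ∧ a.Coprime (q0 * q1) := by
      intro a haa
      rw [h𝒜def] at haa
      unfold RC at haa
      rw [mem_filter, mem_Icc] at haa
      exact ⟨haa.1.1, haa.1.2, haa.2.2⟩
    have hcard : (A : ℝ) * ((q0 * q1 : ℕ) : ℝ) ^ (-(κ / 100)) ≤ (𝒜.card : ℝ) := by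
      have h1 := hc (q0 * q1) hqc 1 (by
        rw [Nat.cast_one]
        exact Real.one_le_rpow hq1R (by positivity)) A hA1 hA2
      rw [h𝒜def]
      have h2 : (2 * (κ / 200)) = κ / 100 := by ring
      rw [h2] at h1
      exact h1
    have hcardpos : (0 : ℝ) < (𝒜.card : ℝ) := by
      refine lt_of_lt_of_le ?_ hcard
      have : (0 : ℝ) < (A : ℝ) := by exact_mod_cast hA1
      have h3 : (0 : ℝ) < ((q0 * q1 : ℕ) : ℝ) ^ (-(κ / 100)) := Real.rpow_pos_of_pos hqpos _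
      positivity
    obtain ⟨τm, hτm⟩ : ∃ τm : ℕ, τm = ⌊((q0 * q1 : ℕ) : ℝ) ^ (κ / 100)⌋₊ := ⟨_, rfl⟩
    have hτmle : (τm : ℝ) ≤ ((q0 * q1 : ℕ) : ℝ) ^ (κ / 100) := by
      rw [hτm]
      exact Nat.floor_le (Real.rpow_nonneg hqpos.le _)
    have hτ : ∀ v : ℕ, 0 < v → v ≤ A * N → v.divisors.card ≤ τm := by
      intro v hv hvA
      rw [hτm]
      refine Nat.le_floor ?_
      have hvq : (v : ℝ) ≤ ((q0 * q1 : ℕ) : ℝ) := by exact_mod_cast hvA.trans hAN.le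
      calc (v.divisors.card : ℝ) ≤ C' * (v : ℝ) ^ (κ / 200) := hC' v hv
        _ ≤ ((q0 * q1 : ℕ) : ℝ) ^ (κ / 200) * ((q0 * q1 : ℕ) : ℝ) ^ (κ / 200) := by
            refine mul_le_mul (he (q0 * q1) hqe) ?_ (Real.rpow_nonneg (Nat.cast_nonneg _) _)
              (Real.rpow_nonneg hqpos.le _)
            exact Real.rpow_le_rpow (Nat.cast_nonneg _) hvq (by positivity)
        _ = ((q0 * q1 : ℕ) : ℝ) ^ (κ / 100) := by
            rw [← Real.rpow_add hqpos]; congr 1; ring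
    obtain ⟨Z, hZ0, hZ1, hZ2⟩ := burgess_ineq hr1 hC1 hC hm1 hm q0 q1 A B N τm hco hsq χ hχm
      (fun p hp hpq => hNT p hp (hpq.trans (Dvd.intro_left q0 rfl))) 𝒜 h𝒜 hAN hτ
    have hW := ha (q0 * q1) q0 q1 hqa rfl hq0pos hq0le hq1pos B hB1 hBr
    refine hlast _ (𝒜.card : ℝ) τm _ Z (norm_nonneg _) hcardpos hcard (Nat.cast_nonneg _) hτmle ?_ hW hZ0 ?_ hZ2
    · positivity
    · exact hZ1

end Pool.Agent.Lib.MP_42948a_nt.BU
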