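import Pool.Agent.Lib.MP_42948a_nt.BU.HI

/-!
# Burgess' bound for characters of bounded order: final form
-/

namespace Pool.Agent.Lib.MP_42948a_nt.BU

open Finset

/-- Burgess' bound: for a nonprincipal character `χ` mod `d` with `χ ^ m = 1` and `N ≥ d ^ (1/4 + κ)` there is a power saving. -/
theorem burgess_main (m : ℕ) (hm : 1 ≤ m) (κ : ℝ) (hκ : 0 < κ) :
    ∃ κ' : ℝ, 0 < κ' ∧ ∃ d0 : ℕ, ∀ d : ℕ, d0 ≤ d → ∀ χ : DirichletCharacter ℂ d, χ ≠ 1 → χ ^ m = 1 →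
      ∀ N : ℕ, (d : ℝ) ^ (1 / 4 + κ) ≤ (N : ℝ) →
      ‖∑ n ∈ Finset.Icc 1 N, χ (n : ZMod d)‖ ≤ (N : ℝ) * (d : ℝ) ^ (-κ') := by
  obtain ⟨κ', hκ', d0, hd0⟩ := burgess m (min κ (1 / 4)) (lt_min hκ (by norm_num)) (min_le_right _ _)
  refine ⟨κ', hκ', max d0 1, fun d hd χ hχ hm1 N hN => ?_⟩
  have hd1 : 1 ≤ d := (le_max_right _ _).trans hd
  haveI : NeZero d := ⟨by omega⟩
  refine hd0 d ((le_max_left _ _).trans hd) χ hχ ⟨m, hm, le_rfl, hm1⟩ N (le_trans ?_ hN)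
  exact Real.rpow_le_rpow_of_exponent_le (by exact_mod_cast hd1) (by linarith [min_le_left κ (1 / 4)])

end Pool.Agent.Lib.MP_42948a_nt.BU
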