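import Pool.Agent.Lib.MP_42948a_nt.BU.Defs

/-!
# Sums of square roots of greatest common divisors (job SA)

`gcd_sqrt_sum`: `√gcd(q,t) ≤ ∑_{g ∈ q.divisors, g ∣ t} √g` (the divisor `g = gcd(q,t)` is one of them, all terms `≥ 0`). Exchange the sums:
`∑_{g ∣ q} √g #{t ≤ B : g ∣ t} ≤ ∑_{g ∣ q} √g B/g ≤ ∑_{g ∣ q} B` (`Nat.card_multiples`/`Nat.count`-like: `#{t ∈ Icc 1 B : g ∣ t} = B / g`).
`gcd_sqrt_shift`: split `u > v` (`t = u - v`, `1 ≤ t ≤ B`) and `u < v` (`t = v - u`, `1 ≤ t ≤ B`); in each case `u ↦ t` is injective.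
-/

namespace Pool.Agent.Lib.MP_42948a_nt.BU

open Finset

private theorem SA_card (g B : ℕ) (hg : 0 < g) :
    ((((Icc 1 B).filter (fun t => g ∣ t)).card : ℕ) : ℝ) * √(g : ℝ) ≤ B := by
  have h1 : ((Icc 1 B).filter (fun t => g ∣ t)).card = B / g := by
    have e : (Icc 1 B).filter (fun t => g ∣ t) = (Ioc 0 B).filter (fun t => g ∣ t) := by
      ext t
      simp only [mem_filter, mem_Icc, mem_Ioc]
      constructor
      · rintro ⟨⟨h1, h2⟩, h3⟩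
        exact ⟨⟨by omega, h2⟩, h3⟩
      · rintro ⟨⟨h1, h2⟩, h3⟩
        exact ⟨⟨by omega, h2⟩, h3⟩
    rw [e, Nat.Ioc_filter_dvd_card_eq_div]
  have hg' : (1 : ℝ) ≤ g := by exact_mod_cast hg
  have h2 : √(g : ℝ) ≤ g := by
    rw [Real.sqrt_le_left (by linarith)]
    nlinarith
  have h3 : ((B / g : ℕ) : ℝ) * g ≤ B := by exact_mod_cast Nat.div_mul_le_self B g
  rw [h1]
  calc ((B / g : ℕ) : ℝ) * √(g : ℝ) ≤ ((B / g : ℕ) : ℝ) * g :=
        mul_le_mul_of_nonneg_left h2 (Nat.cast_nonneg _)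
    _ ≤ B := h3

theorem gcd_sqrt_sum (q B : ℕ) (hq : 0 < q) :
    ∑ t ∈ Icc 1 B, √((Nat.gcd q t : ℕ) : ℝ) ≤ B * (q.divisors.card : ℝ) := by
  classical
  have h1 : ∀ t ∈ Icc 1 B, √((Nat.gcd q t : ℕ) : ℝ) ≤
      ∑ g ∈ q.divisors, if g ∣ t then √(g : ℝ) else 0 := by
    intro t _
    have hm : Nat.gcd q t ∈ q.divisors := Nat.mem_divisors.2 ⟨Nat.gcd_dvd_left q t, hq.ne'⟩
    have h2 := Finset.single_le_sum (f := fun g : ℕ => if g ∣ t then √(g : ℝ) else 0)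
      (s := q.divisors) (fun g _ => by
        show 0 ≤ (if g ∣ t then √(g : ℝ) else 0)
        split_ifs
        · exact Real.sqrt_nonneg _
        · exact le_rfl) hm
    have h3 : (if Nat.gcd q t ∣ t then √((Nat.gcd q t : ℕ) : ℝ) else 0) =
        √((Nat.gcd q t : ℕ) : ℝ) := if_pos (Nat.gcd_dvd_right q t)
    rw [← h3]
    exact h2
  calc ∑ t ∈ Icc 1 B, √((Nat.gcd q t : ℕ) : ℝ)
      ≤ ∑ t ∈ Icc 1 B, ∑ g ∈ q.divisors, (if g ∣ t then √(g : ℝ) else 0) := sum_le_sum h1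
    _ = ∑ g ∈ q.divisors, ∑ t ∈ Icc 1 B, (if g ∣ t then √(g : ℝ) else 0) := sum_comm
    _ ≤ ∑ g ∈ q.divisors, (B : ℝ) := by
        refine sum_le_sum fun g hg => ?_
        rw [← sum_filter, sum_const, nsmul_eq_mul]
        exact SA_card g B (Nat.pos_of_mem_divisors hg)
    _ = B * (q.divisors.card : ℝ) := by rw [sum_const, nsmul_eq_mul, mul_comm]

theorem gcd_sqrt_shift (q B v : ℕ) (hq : 0 < q) (hv : v ∈ Icc 1 B) :
    ∑ u ∈ (Icc 1 B).erase v, √((Nat.gcd q ((u : ℤ) - (v : ℤ)).natAbs : ℕ) : ℝ) ≤ 2 * B * (q.divisors.card : ℝ) := by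
  classical
  rw [mem_Icc] at hv
  have key : ∀ (S : Finset ℕ), (∀ u ∈ S, u ∈ Icc 1 B ∧ u ≠ v) →
      (∀ u ∈ S, ∀ u' ∈ S, ((u : ℤ) - (v : ℤ)).natAbs = ((u' : ℤ) - (v : ℤ)).natAbs → u = u') →
      ∑ u ∈ S, √((Nat.gcd q ((u : ℤ) - (v : ℤ)).natAbs : ℕ) : ℝ) ≤ B * (q.divisors.card : ℝ) := by
    intro S h1 h2
    refine le_trans ?_ (gcd_sqrt_sum q B hq)
    have e := Finset.sum_image (s := S) (g := fun u : ℕ => ((u : ℤ) - (v : ℤ)).natAbs)
      (f := fun t : ℕ => √((Nat.gcd q t : ℕ) : ℝ)) (fun u hu u' hu' h => h2 u hu u' hu' h)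
    rw [← e]
    refine Finset.sum_le_sum_of_subset_of_nonneg ?_ (fun _ _ _ => Real.sqrt_nonneg _)
    intro t ht
    obtain ⟨u, hu, rfl⟩ := mem_image.1 ht
    obtain ⟨h3, h4⟩ := h1 u hu
    rw [mem_Icc] at h3 ⊢
    omega
  have hs := Finset.sum_filter_add_sum_filter_not ((Icc 1 B).erase v) (fun u => v < u)
    (fun u => √((Nat.gcd q ((u : ℤ) - (v : ℤ)).natAbs : ℕ) : ℝ))
  rw [← hs]
  have a1 := key (((Icc 1 B).erase v).filter (fun u => v < u)) (by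
    intro u hu
    rw [mem_filter, mem_erase] at hu
    exact ⟨hu.1.2, hu.1.1⟩) (by
    intro u hu u' hu' h
    rw [mem_filter] at hu hu'
    have := hu.2
    have := hu'.2
    omega)
  have a2 := key (((Icc 1 B).erase v).filter (fun u => ¬ v < u)) (by
    intro u hu
    rw [mem_filter, mem_erase] at hu
    exact ⟨hu.1.2, hu.1.1⟩) (by
    intro u hu u' hu' h
    rw [mem_filter] at hu hu'
    have := hu.2
    have := hu'.2
    omega)
  linarith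

end Pool.Agent.Lib.MP_42948a_nt.BU
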