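import Pool.Agent.Lib.MP_42948a_nt.BU.SA

/-!
# Tuples with a value taken exactly once (job SB)

Split the sum according to `v = b j ∈ Icc 1 B` (`Finset.sum_fiberwise_of_maps_to`). For fixed `v` the tuples lie in
`Fintype.piFinset (S v)`, `S v i = if i = j then {v} else (Icc 1 B).erase v`, and the summand is `∏_i g i (b i)` with `g j = 1`,
`g i u = √gcd(q, |u - v|)` for `i ≠ j`. All terms are nonnegative, so the sum is `≤ ∑_{b ∈ piFinset (S v)} ∏_i g i (b i) = ∏_i ∑_{u ∈ S v i} g i u`
(`Finset.prod_univ_sum`), and this is `1 * ∏_{i ≠ j} ∑_{u ∈ (Icc 1 B).erase v} √gcd ≤ (2 B τ(q))^(2r-1)` (`gcd_sqrt_shift`;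
`#(univ.erase j) = 2r - 1`). Sum over the `B` values of `v`.
-/

namespace Pool.Agent.Lib.MP_42948a_nt.BU

open Finset

open Classical in
private theorem SB_fix (q B r : ℕ) (hq : 0 < q) (j : Fin r ⊕ Fin r) (v : ℕ) (hv : v ∈ Icc 1 B) :
    ∑ b ∈ ((Tup r B).filter (fun b => ∀ i, i ≠ j → b i ≠ b j)).filter (fun b => b j = v),
        ∏ i ∈ univ.erase j, √((Nat.gcd q ((b i : ℤ) - (b j : ℤ)).natAbs : ℕ) : ℝ) ≤
      (2 * B * (q.divisors.card : ℝ)) ^ (2 * r - 1) := by
  set S : Fin r ⊕ Fin r → Finset ℕ := fun i => if i = j then {v} else (Icc 1 B).erase v with hS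
  set g : Fin r ⊕ Fin r → ℕ → ℝ := fun i u =>
    if i = j then 1 else √((Nat.gcd q ((u : ℤ) - (v : ℤ)).natAbs : ℕ) : ℝ) with hg
  have hgnn : ∀ i u, 0 ≤ g i u := by
    intro i u
    simp only [hg]
    split_ifs
    · exact zero_le_one
    · exact Real.sqrt_nonneg _
  calc ∑ b ∈ ((Tup r B).filter (fun b => ∀ i, i ≠ j → b i ≠ b j)).filter (fun b => b j = v),
        ∏ i ∈ univ.erase j, √((Nat.gcd q ((b i : ℤ) - (b j : ℤ)).natAbs : ℕ) : ℝ)
      = ∑ b ∈ ((Tup r B).filter (fun b => ∀ i, i ≠ j → b i ≠ b j)).filter (fun b => b j = v),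
        ∏ i, g i (b i) := by
        apply Finset.sum_congr rfl
        intro b hb
        have hbj : b j = v := (Finset.mem_filter.mp hb).2
        rw [← Finset.mul_prod_erase univ (fun i => g i (b i)) (Finset.mem_univ j)]
        have h1 : g j (b j) = 1 := by simp only [hg, if_pos]
        rw [h1, one_mul]
        apply Finset.prod_congr rfl
        intro i hi
        have hij : i ≠ j := (Finset.mem_erase.mp hi).1
        simp only [hg, if_neg hij, hbj]
    _ ≤ ∑ b ∈ Fintype.piFinset S, ∏ i, g i (b i) := by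
        apply Finset.sum_le_sum_of_subset_of_nonneg
        · intro b hb
          have hb1 := Finset.mem_filter.mp hb
          have hb2 := Finset.mem_filter.mp hb1.1
          have hT : ∀ i, b i ∈ Icc 1 B := by
            have := hb2.1
            rw [Tup, Fintype.mem_piFinset] at this
            exact this
          rw [Fintype.mem_piFinset]
          intro i
          by_cases hij : i = j
          · simp only [hS, if_pos hij, Finset.mem_singleton]
            rw [hij]; exact hb1.2
          · simp only [hS, if_neg hij]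
            rw [Finset.mem_erase]
            refine ⟨?_, hT i⟩
            rw [← hb1.2]
            exact hb2.2 i hij
        · intro b _ _
          exact Finset.prod_nonneg (fun i _ => hgnn i (b i))
    _ = ∏ i, ∑ u ∈ S i, g i u := (Finset.prod_univ_sum S g).symm
    _ = (∑ u ∈ S j, g j u) * ∏ i ∈ univ.erase j, ∑ u ∈ S i, g i u :=
        (Finset.mul_prod_erase univ (fun i => ∑ u ∈ S i, g i u) (Finset.mem_univ j)).symm
    _ ≤ 1 * ∏ _i ∈ univ.erase j, (2 * (B : ℝ) * (q.divisors.card : ℝ)) := by
        have h1 : ∑ u ∈ S j, g j u = 1 := by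
          have : S j = {v} := by simp only [hS, if_pos]
          rw [this, Finset.sum_singleton]
          simp only [hg, if_pos]
        rw [h1]
        apply mul_le_mul_of_nonneg_left _ zero_le_one
        apply Finset.prod_le_prod
        · intro i _
          exact Finset.sum_nonneg (fun u _ => hgnn i u)
        · intro i hi
          have hij : i ≠ j := (Finset.mem_erase.mp hi).1
          have h2 : S i = (Icc 1 B).erase v := by simp only [hS, if_neg hij]
          rw [h2]
          have h3 := gcd_sqrt_shift q B v hq hv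
          refine le_trans (le_of_eq ?_) h3
          apply Finset.sum_congr rfl
          intro u _
          simp only [hg, if_neg hij]
    _ = (2 * B * (q.divisors.card : ℝ)) ^ (2 * r - 1) := by
        rw [one_mul, Finset.prod_const, Finset.card_erase_of_mem (Finset.mem_univ j), Finset.card_univ,
          Fintype.card_sum, Fintype.card_fin]
        have : r + r - 1 = 2 * r - 1 := by omega
        rw [this]

open Classical in
theorem tuples_unique (q B r : ℕ) (hq : 0 < q) (j : Fin r ⊕ Fin r) :
    ∑ b ∈ (Tup r B).filter (fun b => ∀ i, i ≠ j → b i ≠ b j),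
        ∏ i ∈ univ.erase j, √((Nat.gcd q ((b i : ℤ) - (b j : ℤ)).natAbs : ℕ) : ℝ) ≤
      B * (2 * B * (q.divisors.card : ℝ)) ^ (2 * r - 1) := by
  have hmaps : ∀ b ∈ (Tup r B).filter (fun b => ∀ i, i ≠ j → b i ≠ b j), b j ∈ Icc 1 B := by
    intro b hb
    have := (Finset.mem_filter.mp hb).1
    rw [Tup, Fintype.mem_piFinset] at this
    exact this j
  rw [← Finset.sum_fiberwise_of_maps_to hmaps]
  calc _ ≤ ∑ _v ∈ Icc 1 B, (2 * B * (q.divisors.card : ℝ)) ^ (2 * r - 1) :=
        Finset.sum_le_sum (fun v hv => SB_fix q B r hq j v hv)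
    _ = B * (2 * B * (q.divisors.card : ℝ)) ^ (2 * r - 1) := by
        rw [Finset.sum_const, Nat.card_Icc, nsmul_eq_mul]
        simp

end Pool.Agent.Lib.MP_42948a_nt.BU
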