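import Pool.Agent.Lib.MP_42948a_nt.BU.Defs

/-!
# Tuples without a value taken exactly once (job SC)

For such a tuple `b` every value is taken at least twice, so the set `V` of its values has at most `r` elements: `2 #V ≤ ∑_{v ∈ V} #{i : b i = v} = 2 r`
(`Finset.card_eq_sum_card_image`, each fibre has at least two elements). Hence there are `φ : Fin r → Icc 1 B` (as a function with values in `ℕ`, an
element of `Fintype.piFinset (fun _ : Fin r => Icc 1 B)`) and `g : Fin r ⊕ Fin r → Fin r` with `b = φ ∘ g` (enumerate `V` by an injection into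
`Fin r`; fill up `φ` with an element of `Icc 1 B`, `B ≥ 1` because `r ≥ 1` and `b` exists). So the set is contained in the image of
`(φ, g) ↦ φ ∘ g`, of cardinality `≤ B^r * r^(2r)` (`Finset.card_image_le`, `Fintype.card_piFinset`, `Fintype.card_fun`).
-/

namespace Pool.Agent.Lib.MP_42948a_nt.BU

open Finset

open Classical in
private theorem SC_card {r : ℕ} (b : Fin r ⊕ Fin r → ℕ) (hb : ∀ j, ∃ i, i ≠ j ∧ b i = b j) :
    (univ.image b).card ≤ r := by
  have h1 : (univ : Finset (Fin r ⊕ Fin r)).card =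
      ∑ v ∈ univ.image b, (univ.filter (fun i => b i = v)).card :=
    Finset.card_eq_sum_card_image b univ
  have h2 : ∑ _v ∈ univ.image b, 2 ≤ ∑ v ∈ univ.image b, (univ.filter (fun i => b i = v)).card := by
    apply Finset.sum_le_sum
    intro v hv
    obtain ⟨j, _, hj⟩ := Finset.mem_image.mp hv
    obtain ⟨i, hij, hi⟩ := hb j
    have h3 : ({i, j} : Finset (Fin r ⊕ Fin r)) ⊆ univ.filter (fun i => b i = v) := by
      intro x hx
      rw [Finset.mem_insert, Finset.mem_singleton] at hx
      rw [Finset.mem_filter]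
      refine ⟨Finset.mem_univ _, ?_⟩
      rcases hx with hx | hx
      · rw [hx, hi, hj]
      · rw [hx, hj]
    calc 2 = ({i, j} : Finset (Fin r ⊕ Fin r)).card := (Finset.card_pair hij).symm
      _ ≤ _ := Finset.card_le_card h3
  rw [← h1, Finset.sum_const, smul_eq_mul, Finset.card_univ, Fintype.card_sum, Fintype.card_fin] at h2
  omega

open Classical in
theorem tuples_paired (B r : ℕ) (hr : 1 ≤ r) :
    ((Tup r B).filter (fun b => ∀ j, ∃ i, i ≠ j ∧ b i = b j)).card ≤ r ^ (2 * r) * B ^ r := by
  set X : Finset ((Fin r → ℕ) × (Fin r ⊕ Fin r → Fin r)) :=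
    (Fintype.piFinset (fun _ : Fin r => Icc 1 B)) ×ˢ (univ : Finset (Fin r ⊕ Fin r → Fin r)) with hX
  have hsub : (Tup r B).filter (fun b => ∀ j, ∃ i, i ≠ j ∧ b i = b j) ⊆
      X.image (fun t => fun i => t.1 (t.2 i)) := by
    intro b hb
    obtain ⟨hb1, hb2⟩ := Finset.mem_filter.mp hb
    have hT : ∀ i, b i ∈ Icc 1 B := by
      rw [Tup, Fintype.mem_piFinset] at hb1
      exact hb1
    have hc : (univ.image b).card ≤ r := SC_card b hb2
    have hmem : ∀ i, b i ∈ univ.image b := fun i => Finset.mem_image_of_mem b (Finset.mem_univ i)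
    let e := (univ.image b).equivFin
    let φ : Fin r → ℕ := fun k =>
      if h : k.val < (univ.image b).card then ((e.symm ⟨k.val, h⟩ : {x // x ∈ univ.image b}) : ℕ)
      else b (Sum.inl ⟨0, hr⟩)
    let g : Fin r ⊕ Fin r → Fin r := fun i => Fin.castLE hc (e ⟨b i, hmem i⟩)
    have hφ : ∀ i, φ (g i) = b i := by
      intro i
      have hlt : (g i).val < (univ.image b).card := (e ⟨b i, hmem i⟩).isLt
      have h1 : φ (g i) = ((e.symm ⟨(g i).val, hlt⟩ : {x // x ∈ univ.image b}) : ℕ) := dif_pos hlt
      rw [h1]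
      have h2 : (⟨(g i).val, hlt⟩ : Fin (univ.image b).card) = e ⟨b i, hmem i⟩ := by
        apply Fin.ext
        rfl
      rw [h2, Equiv.symm_apply_apply]
    rw [Finset.mem_image]
    refine ⟨(φ, g), ?_, ?_⟩
    · rw [hX, Finset.mem_product]
      refine ⟨?_, Finset.mem_univ _⟩
      rw [Fintype.mem_piFinset]
      intro k
      by_cases h : k.val < (univ.image b).card
      · have h1 : φ k = ((e.symm ⟨k.val, h⟩ : {x // x ∈ univ.image b}) : ℕ) := dif_pos h
        show φ k ∈ Icc 1 B
        rw [h1]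
        obtain ⟨i, _, hi⟩ := Finset.mem_image.mp (e.symm ⟨k.val, h⟩).2
        rw [← hi]
        exact hT i
      · have h1 : φ k = b (Sum.inl ⟨0, hr⟩) := dif_neg h
        show φ k ∈ Icc 1 B
        rw [h1]
        exact hT _
    · funext i
      exact hφ i
  calc ((Tup r B).filter (fun b => ∀ j, ∃ i, i ≠ j ∧ b i = b j)).card
      ≤ (X.image (fun t => fun i => t.1 (t.2 i))).card := Finset.card_le_card hsub
    _ ≤ X.card := Finset.card_image_le
    _ = B ^ r * r ^ (2 * r) := by
        rw [hX, Finset.card_product, Fintype.card_piFinset, Finset.card_univ, Fintype.card_fun,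
          Fintype.card_sum]
        simp [Nat.card_Icc, two_mul]
    _ = r ^ (2 * r) * B ^ r := mul_comm _ _

end Pool.Agent.Lib.MP_42948a_nt.BU
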