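import Pool.Agent.Lib.MP_42948a_nt.BU.CD
import Pool.Agent.Lib.MP_42948a_nt.BU.CE
import Pool.Agent.Lib.MP_42948a_nt.BU.SB
import Pool.Agent.Lib.MP_42948a_nt.BU.SC
import Pool.Agent.Lib.MP_42948a_nt.BU.SD

/-!
# The moment of the short sums (job SE)

`W_expand`. A tuple `b ∈ Tup r B` either has a `j` with `b i ≠ b j` for all `i ≠ j`, or it is in the set of `tuples_paired`. The paired ones contribute
at most `#paired * (q0 q1) ≤ r^(2r) B^r q0 q1` (`CS_trivial`). The others are covered by the `2 r` sets of `tuples_unique` (sum over `j` of the sums over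
these sets, all terms `≥ 0`); for `b` in the set with index `j`, `CS_bound` with `β i = b i`, `prod_gcd` with `D = Dl β j` and `sqrt_gcd_Dl`:
`‖CS‖ ≤ q0 C^ω √q1 ∏_{i ≠ j} √gcd(q1, |b i - b j|)`, then `tuples_unique`.
-/

namespace Pool.Agent.Lib.MP_42948a_nt.BU

open Finset

theorem W_bound {M0 r : ℕ} (hr : 1 ≤ r) {C : ℝ} (hC1 : 1 ≤ C) (hC : WeilC M0 r C) {m : ℕ} (hm1 : 1 ≤ m) (hm : m ≤ M0)
    (q0 q1 B : ℕ) [NeZero q0] [NeZero q1] [NeZero (q0 * q1)] (hco : q0.Coprime q1) (hq : Squarefree q1)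
    (χ : DirichletCharacter ℂ (q0 * q1)) (hχ : χ ^ m = 1) (hNT : ∀ p : ℕ, p.Prime → p ∣ q1 → NT χ p) :
    ∑ x : ZMod (q0 * q1), TS χ q0 B x ^ (2 * r) ≤
      (q0 : ℝ) * ((r : ℝ) ^ (2 * r) * (B : ℝ) ^ r * q1 +
        2 * r * (B * (2 * B * (q1.divisors.card : ℝ)) ^ (2 * r - 1)) * (C ^ q1.primeFactors.card * √(q1 : ℝ))) := by
  classical
  have hq1 : 0 < q1 := Nat.pos_of_ne_zero (NeZero.ne q1)
  have hq0 : (0 : ℝ) ≤ (q0 : ℝ) := Nat.cast_nonneg _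
  have hC0 : (0 : ℝ) ≤ C := le_trans zero_le_one hC1
  have hK : (0 : ℝ) ≤ C ^ q1.primeFactors.card * √(q1 : ℝ) := mul_nonneg (pow_nonneg hC0 _) (Real.sqrt_nonneg _)
  set F : (Fin r ⊕ Fin r → ℕ) → ℝ := fun b => ‖CS χ (fun i => (q0 : ℤ) * (b i : ℤ))‖ with hF
  have hF0 : ∀ b, 0 ≤ F b := fun b => norm_nonneg _
  have h1 : ∑ x : ZMod (q0 * q1), TS χ q0 B x ^ (2 * r) ≤ ∑ b ∈ Tup r B, F b := W_expand q0 B χ
  have h2 : ∑ b ∈ Tup r B, F b = ∑ b ∈ (Tup r B).filter (fun b => ∀ j, ∃ i, i ≠ j ∧ b i = b j), F b +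
      ∑ b ∈ (Tup r B).filter (fun b => ¬ ∀ j, ∃ i, i ≠ j ∧ b i = b j), F b :=
    (Finset.sum_filter_add_sum_filter_not _ _ _).symm
  have h3 : ∑ b ∈ (Tup r B).filter (fun b => ∀ j, ∃ i, i ≠ j ∧ b i = b j), F b ≤
      (r : ℝ) ^ (2 * r) * (B : ℝ) ^ r * ((q0 : ℝ) * (q1 : ℝ)) := by
    have h4 : ∀ b ∈ (Tup r B).filter (fun b => ∀ j, ∃ i, i ≠ j ∧ b i = b j), F b ≤ ((q0 : ℝ) * (q1 : ℝ)) := by
      intro b _
      have := CS_trivial χ (fun i => (q0 : ℤ) * (b i : ℤ))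
      refine this.trans ?_
      push_cast
      exact le_rfl
    refine (Finset.sum_le_card_nsmul _ _ _ h4).trans ?_
    rw [nsmul_eq_mul]
    refine mul_le_mul_of_nonneg_right ?_ (mul_nonneg hq0 (Nat.cast_nonneg _))
    have h5 := tuples_paired B r hr
    have h6 : (((Tup r B).filter (fun b => ∀ j, ∃ i, i ≠ j ∧ b i = b j)).card : ℝ) ≤ ((r ^ (2 * r) * B ^ r : ℕ) : ℝ) := by
      exact_mod_cast h5
    refine h6.trans (le_of_eq ?_)
    push_cast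
    ring
  have h7 : ∑ b ∈ (Tup r B).filter (fun b => ¬ ∀ j, ∃ i, i ≠ j ∧ b i = b j), F b ≤
      ∑ j : Fin r ⊕ Fin r, ∑ b ∈ (Tup r B).filter (fun b => ∀ i, i ≠ j → b i ≠ b j), F b := by
    have e1 : ∑ j : Fin r ⊕ Fin r, ∑ b ∈ (Tup r B).filter (fun b => ∀ i, i ≠ j → b i ≠ b j), F b =
        ∑ b ∈ Tup r B, ∑ j : Fin r ⊕ Fin r, (if (∀ i, i ≠ j → b i ≠ b j) then F b else 0) := by
      rw [Finset.sum_comm]
      refine Finset.sum_congr rfl fun j _ => ?_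
      rw [Finset.sum_filter]
    rw [e1, Finset.sum_filter]
    refine Finset.sum_le_sum fun b _ => ?_
    have hnn : ∀ j ∈ (univ : Finset (Fin r ⊕ Fin r)), 0 ≤ (if (∀ i, i ≠ j → b i ≠ b j) then F b else 0) := by
      intro j _
      split_ifs
      · exact hF0 b
      · exact le_rfl
    by_cases hb : ∀ j, ∃ i, i ≠ j ∧ b i = b j
    · rw [if_neg (not_not.2 hb)]
      exact Finset.sum_nonneg hnn
    · rw [if_pos hb]
      obtain ⟨j, hj⟩ := not_forall.1 hb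
      have hj' : ∀ i, i ≠ j → b i ≠ b j := fun i hi he => hj ⟨i, hi, he⟩
      refine le_trans (le_of_eq ?_) (Finset.single_le_sum hnn (Finset.mem_univ j))
      rw [if_pos hj']
  have h8 : ∀ j : Fin r ⊕ Fin r, ∑ b ∈ (Tup r B).filter (fun b => ∀ i, i ≠ j → b i ≠ b j), F b ≤
      (q0 : ℝ) * (C ^ q1.primeFactors.card * √(q1 : ℝ)) * (B * (2 * B * (q1.divisors.card : ℝ)) ^ (2 * r - 1)) := by
    intro j
    have h9 : ∀ b ∈ (Tup r B).filter (fun b => ∀ i, i ≠ j → b i ≠ b j), F b ≤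
        (q0 : ℝ) * (C ^ q1.primeFactors.card * √(q1 : ℝ)) *
          ∏ i ∈ univ.erase j, √((Nat.gcd q1 ((b i : ℤ) - (b j : ℤ)).natAbs : ℕ) : ℝ) := by
      intro b _
      have k1 := CS_bound hC1 hC hm1 hm (fun i => (b i : ℤ)) j q0 q1 hco hq χ hχ hNT
      have k2 := prod_gcd q1 hq (Dl (fun i => (b i : ℤ)) j) C hC1
      have k3 := sqrt_gcd_Dl q1 hq1 (fun i => (b i : ℤ)) j
      refine k1.trans ?_
      rw [mul_assoc]
      exact mul_le_mul_of_nonneg_left (k2.trans (mul_le_mul_of_nonneg_left k3 hK)) hq0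
    refine (Finset.sum_le_sum h9).trans ?_
    rw [← Finset.mul_sum]
    exact mul_le_mul_of_nonneg_left (tuples_unique q1 B r hq1 j) (mul_nonneg hq0 hK)
  have h10 : ∑ j : Fin r ⊕ Fin r, ∑ b ∈ (Tup r B).filter (fun b => ∀ i, i ≠ j → b i ≠ b j), F b ≤
      (2 * r : ℝ) * ((q0 : ℝ) * (C ^ q1.primeFactors.card * √(q1 : ℝ)) * (B * (2 * B * (q1.divisors.card : ℝ)) ^ (2 * r - 1))) := by
    refine (Finset.sum_le_card_nsmul _ _ _ (fun j _ => h8 j)).trans (le_of_eq ?_)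
    rw [nsmul_eq_mul]
    have : ((univ : Finset (Fin r ⊕ Fin r)).card : ℝ) = 2 * r := by
      rw [Finset.card_univ, Fintype.card_sum, Fintype.card_fin]
      push_cast
      ring
    rw [this]
  calc ∑ x : ZMod (q0 * q1), TS χ q0 B x ^ (2 * r) ≤ ∑ b ∈ Tup r B, F b := h1
    _ ≤ (r : ℝ) ^ (2 * r) * (B : ℝ) ^ r * ((q0 : ℝ) * (q1 : ℝ)) +
        (2 * r : ℝ) * ((q0 : ℝ) * (C ^ q1.primeFactors.card * √(q1 : ℝ)) * (B * (2 * B * (q1.divisors.card : ℝ)) ^ (2 * r - 1))) := by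
      rw [h2]
      exact add_le_add h3 (h7.trans h10)
    _ = _ := by ring

end Pool.Agent.Lib.MP_42948a_nt.BU
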