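import Mathlib

/-!
# Derivatives of `f ^ E * h` (job WA)

`Hd_zero`, `Hd_succ`: unfold. `iterate_form`: induction on `k` (`Function.iterate_succ_apply'`). Step: `E - k = (E - (k+1)) + 1` and
`D (f^(E-k) * G * X^(p l)) = (E - k) f^(E-(k+1)) f' G X^(p l) + f^(E-k) G' X^(p l) + f^(E-k) G (p l) X^(p l - 1)`; the last term is `0`
in characteristic `p` (`derivative_X_pow`, `CharP.cast_eq_zero`), and `((E - k : ℕ) : F) = (E : F) - k` (`Nat.cast_sub`).
`Hd_degree`: induction on `k`: `derivative G` has degree `< A + k n` too (`degree_derivative_le` / `derivative` lowers the degree),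
`degree (f * G') ≤ n + degree G'`, `degree (derivative f) < n` or `≤ n - 1`, `1 ≤ n` (treat `G = 0` and `derivative f = 0` separately, or work
with `degreeLT`/coefficients). It is enough to show `degree < A + (k+1) n` for both summands.
-/

namespace Pool.Agent.Lib.MP_42948a_nt.BU

open Polynomial Finset

/-- the factor `Hd f E k h` of the `k`-th derivative: `D^k (f^E h) = f^(E-k) * Hd f E k h` -/
noncomputable def Hd {F : Type*} [Field F] (f : F[X]) (E : ℕ) : ℕ → F[X] →ₗ[F] F[X]
  | 0 => LinearMap.id
  | k + 1 => (LinearMap.mulLeft F f) ∘ₗ derivative ∘ₗ (Hd f E k) +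
      (LinearMap.mulLeft F (C ((E : F) - k) * derivative f)) ∘ₗ (Hd f E k)

variable {F : Type*} [Field F]

theorem Hd_zero (f : F[X]) (E : ℕ) (h : F[X]) : Hd f E 0 h = h := by
  rfl

theorem Hd_succ (f : F[X]) (E k : ℕ) (h : F[X]) :
    Hd f E (k + 1) h = f * derivative (Hd f E k h) + C ((E : F) - k) * derivative f * Hd f E k h := by
  rfl

theorem iterate_form (p : ℕ) [CharP F p] (f h : F[X]) (E l k : ℕ) (hk : k ≤ E) :
    derivative^[k] (f ^ E * h * X ^ (p * l)) = f ^ (E - k) * Hd f E k h * X ^ (p * l) := by
  induction k with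
  | zero => rw [Function.iterate_zero_apply, Hd_zero, Nat.sub_zero]
  | succ k ih =>
    rw [Function.iterate_succ_apply', ih (by omega), Hd_succ]
    have h1 : E - k = (E - (k + 1)) + 1 := by omega
    have h2 : derivative (X ^ (p * l) : F[X]) = 0 := by
      rw [derivative_X_pow, Nat.cast_mul, CharP.cast_eq_zero F p, zero_mul, C_0, zero_mul]
    have h3 : ((E - k : ℕ) : F) = (E : F) - k := by
      rw [Nat.cast_sub (by omega)]
    rw [derivative_mul, h2, mul_zero, add_zero, derivative_mul, derivative_pow, h3]
    rw [h1, Nat.add_sub_cancel, pow_succ]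
    ring

theorem Hd_degree (f h : F[X]) (n A E k : ℕ) (hf : f.natDegree ≤ n) (hn : 1 ≤ n) (hh : h.degree < (A : WithBot ℕ)) :
    (Hd f E k h).degree < ((A + k * n : ℕ) : WithBot ℕ) := by
  induction k with
  | zero =>
    rw [Hd_zero, Nat.zero_mul, Nat.add_zero]
    exact hh
  | succ k ih =>
    rw [Hd_succ]
    generalize Hd f E k h = G at ih ⊢
    rcases eq_or_ne G 0 with h0 | h0
    · rw [h0, derivative_zero, mul_zero, mul_zero, add_zero, degree_zero]
      exact WithBot.bot_lt_coe _
    · have h1 : G.natDegree < A + k * n := by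
        rw [degree_eq_natDegree h0] at ih
        exact_mod_cast ih
      have h2 : (f * derivative G + C ((E : F) - k) * derivative f * G).natDegree ≤ n + G.natDegree := by
        refine natDegree_add_le_of_degree_le ?_ ?_
        · refine natDegree_mul_le.trans (add_le_add hf ?_)
          exact (natDegree_derivative_le G).trans (Nat.sub_le _ _)
        · refine natDegree_mul_le.trans (Nat.add_le_add_right ?_ _)
          refine (natDegree_C_mul_le _ _).trans ?_
          exact (natDegree_derivative_le f).trans ((Nat.sub_le _ _).trans hf)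
      refine lt_of_le_of_lt (degree_le_of_natDegree_le h2) ?_
      have h3 : n + G.natDegree < A + (k + 1) * n := by
        have h4 : (k + 1) * n = k * n + n := by ring
        omega
      exact_mod_cast h3

end Pool.Agent.Lib.MP_42948a_nt.BU
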