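import Mathlib

/-!
# Nonvanishing of the auxiliary polynomial (job WB)

`sum_ne_zero_of_trailing`: let `i0` be an index with `g i0 ≠ 0` and least `w = (g i0).natTrailingDegree` among the nonzero `g i`
(`Finset.exists_min_image` on the filter `g i ≠ 0`). The coefficient of `X^w` of the sum is `(g i0).trailingCoeff ≠ 0`: for `i ≠ i0` either
`g i = 0` or `natTrailingDegree (g i) > w` (it is `≥ w` and `≠ w` by `hd`), so the coefficient at `w` vanishes
(`coeff_eq_zero_of_lt_natTrailingDegree`).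

`block_trailing`: `K = ∑_l h l * X^(p l)`. The coefficient of `K` at `p l0 + v`, `v < p`, is `(h l0).coeff v` (the terms `l ≠ l0` contribute
nothing: `(h l * X^(p l)).coeff N = if p l ≤ N then (h l).coeff (N - p l) else 0` and a nonzero coefficient needs `N - p l < A ≤ p`, so `l = N / p`).
So `K ≠ 0` and the least `N` with nonzero coefficient has `N % p < A` (if `N / p < B`, otherwise the coefficient is zero anyway).

`stepanov_ne`: let `g j = (∑_l h j l * X^(p l)) * f^(j P)`; the given sum is `∑_j g j`. `g j ≠ 0` iff some `h j l ≠ 0` (`block_trailing`, `f ≠ 0`).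
If `g j ≠ 0` then `natTrailingDegree (g j) = p l_j + v_j + j e P` with `v_j < A` (`natTrailingDegree_mul`, `natTrailingDegree_pow`; the trailing
degree of `f = X^e f1` is `e` since `f1.coeff 0 ≠ 0`). Write `j e = q_j m + r_j`, `r_j = (j e) % m`, `q_j = (j e) / m`; since `j ≤ m - 1` we have
`q_j ≤ e - 1` if `e ≥ 1` (`e = 0` is impossible: `Nat.Coprime 0 m` means `m = 1`). As `m P = p - 1`:
`natTrailingDegree (g j) = p (l_j + q_j) + (v_j + r_j P) - q_j`. If two of them are equal for `j, j'`: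
`p (l_j + q_j - l_j' - q_j') = (v_j' - v_j) + (r_j' - r_j) P - (q_j' - q_j)` (integers), the right side has absolute value at most
`(A - 1) + (m - 1) P + (e - 1) < p = m P + 1` (`A + e ≤ P + 1`), so both sides vanish; then `(r_j' - r_j) P` has absolute value
`≤ (A - 1) + (e - 1) < P`, so `r_j = r_j'`, `m ∣ (j - j') e`, `m ∣ j - j'` (coprime), `j = j'`. Apply `sum_ne_zero_of_trailing`.
-/

namespace Pool.Agent.Lib.MP_42948a_nt.BU

open Polynomial Finset

theorem sum_ne_zero_of_trailing {F ι : Type*} [Field F] [Fintype ι] (g : ι → F[X]) (hne : ∃ i, g i ≠ 0)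
    (hd : ∀ i j, g i ≠ 0 → g j ≠ 0 → (g i).natTrailingDegree = (g j).natTrailingDegree → i = j) :
    ∑ i, g i ≠ 0 := by
  classical
  obtain ⟨i1, hi1⟩ := hne
  obtain ⟨i0, hi0, hmin⟩ := Finset.exists_min_image (univ.filter (fun i => g i ≠ 0))
    (fun i => (g i).natTrailingDegree) ⟨i1, by simp [hi1]⟩
  rw [Finset.mem_filter] at hi0
  intro h0
  have hc : (∑ i, g i).coeff (g i0).natTrailingDegree = (g i0).trailingCoeff := by
    rw [Polynomial.finsetSum_coeff, Finset.sum_eq_single i0]
    · rfl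
    · intro i _ hi
      by_cases h : g i = 0
      · rw [h, coeff_zero]
      · apply coeff_eq_zero_of_lt_natTrailingDegree
        have h1 := hmin i (by simp [h])
        exact lt_of_le_of_ne h1 fun h2 => hi (hd i i0 h hi0.2 h2.symm)
    · intro h; exact absurd (mem_univ _) h
  rw [h0, coeff_zero] at hc
  exact hi0.2 (trailingCoeff_eq_zero.1 hc.symm)

private theorem WB_coeff {F : Type*} [Field F] {p B : ℕ} (h : Fin B → F[X]) (N : ℕ) :
    (∑ l : Fin B, h l * X ^ (p * (l : ℕ))).coeff N =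
      ∑ l : Fin B, if p * (l : ℕ) ≤ N then (h l).coeff (N - p * (l : ℕ)) else 0 := by
  rw [Polynomial.finsetSum_coeff]
  exact Finset.sum_congr rfl fun l _ => coeff_mul_X_pow' _ _ _

theorem block_trailing {F : Type*} [Field F] {p A B : ℕ} (hp : 0 < p) (hA : A ≤ p) (h : Fin B → F[X])
    (hdeg : ∀ l, (h l).degree < (A : WithBot ℕ)) (hne : ∃ l, h l ≠ 0) :
    ∑ l : Fin B, h l * X ^ (p * (l : ℕ)) ≠ 0 ∧
      ∃ l v : ℕ, v < A ∧ (∑ l : Fin B, h l * X ^ (p * (l : ℕ))).natTrailingDegree = p * l + v := by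
  classical
  have hz : ∀ (l : Fin B) (n : ℕ), A ≤ n → (h l).coeff n = 0 := fun l n hn =>
    coeff_eq_zero_of_degree_lt (lt_of_lt_of_le (hdeg l) (by exact_mod_cast hn))
  have hne0 : ∑ l : Fin B, h l * X ^ (p * (l : ℕ)) ≠ 0 := by
    obtain ⟨l0, hl0⟩ := hne
    set v := (h l0).natDegree with hv
    have hv0 : (h l0).coeff v ≠ 0 := leadingCoeff_ne_zero.2 hl0
    have hvA : v < A := by
      by_contra hc
      exact hv0 (hz l0 v (by omega))
    intro h0
    have hc := WB_coeff (p := p) h (p * (l0 : ℕ) + v)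
    rw [h0, coeff_zero, Finset.sum_eq_single l0] at hc
    · rw [if_pos (Nat.le_add_right _ _), Nat.add_sub_cancel_left] at hc
      exact hv0 hc.symm
    · intro l _ hl
      split_ifs with hle
      · apply hz
        rcases lt_trichotomy (l : ℕ) (l0 : ℕ) with h1 | h1 | h1
        · have h2 : p * ((l : ℕ) + 1) ≤ p * (l0 : ℕ) := Nat.mul_le_mul_left _ h1
          rw [Nat.mul_succ] at h2
          omega
        · exact absurd (Fin.ext h1) hl
        · have h2 : p * ((l0 : ℕ) + 1) ≤ p * (l : ℕ) := Nat.mul_le_mul_left _ h1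
          rw [Nat.mul_succ] at h2
          omega
      · rfl
    · intro h1; exact absurd (mem_univ _) h1
  refine ⟨hne0, ?_⟩
  have h1 : (∑ l : Fin B, h l * X ^ (p * (l : ℕ))).coeff
      (∑ l : Fin B, h l * X ^ (p * (l : ℕ))).natTrailingDegree ≠ 0 :=
    coeff_natTrailingDegree_ne_zero.2 hne0
  rw [WB_coeff] at h1
  obtain ⟨l, -, hl⟩ := Finset.exists_ne_zero_of_sum_ne_zero h1
  split_ifs at hl with hle
  · refine ⟨l, (∑ l : Fin B, h l * X ^ (p * (l : ℕ))).natTrailingDegree - p * (l : ℕ), ?_, by omega⟩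
    by_contra hc
    exact hl (hz l _ (by omega))
  · exact absurd rfl hl

private theorem WB_arith {p m P e A j j' l l' v v' : ℕ} (hm : 2 ≤ m) (hp : p = m * P + 1)
    (hcop : Nat.Coprime e m) (hA : A + e ≤ P + 1) (hj : j < m) (hj' : j' < m) (hv : v < A)
    (hv' : v' < A) (h : p * l + v + j * P * e = p * l' + v' + j' * P * e) : j = j' := by
  have he : 1 ≤ e := by
    rcases Nat.eq_zero_or_pos e with h0 | h0
    · rw [h0, Nat.coprime_zero_left] at hcop
      omega
    · exact h0
  have hP : 1 ≤ P := by omega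
  have key : ∀ i : ℕ, i < m → ∃ q r : ℕ, i * e = q * m + r ∧ r < m ∧ q < e := by
    intro i hi
    refine ⟨i * e / m, i * e % m, by rw [mul_comm _ m]; exact (Nat.div_add_mod _ _).symm,
      Nat.mod_lt _ (by omega), ?_⟩
    rw [Nat.div_lt_iff_lt_mul (by omega), mul_comm e m]
    exact Nat.mul_lt_mul_of_pos_right hi (by omega)
  obtain ⟨q, r, h1, hr, hq⟩ := key j hj
  obtain ⟨q', r', h1', hr', hq'⟩ := key j' hj'
  have hrr : r = r' := by
    zify at h h1 h1' hp hA hv hv' hr hr' hq hq' hP he hm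
    have e1 : (j : ℤ) * P * e = q * (p - 1) + r * P := by
      have : (j : ℤ) * P * e = (j * e) * P := by ring
      rw [this, h1, hp]; ring
    have e1' : (j' : ℤ) * P * e = q' * (p - 1) + r' * P := by
      have : (j' : ℤ) * P * e = (j' * e) * P := by ring
      rw [this, h1', hp]; ring
    rw [e1, e1'] at h
    have hz : (p : ℤ) * (l + q - l' - q') = (v' - v) + (r' - r) * P - (q' - q) := by linarith
    have b1 : ((r' : ℤ) - r) * P ≤ (m - 1) * P :=
      mul_le_mul_of_nonneg_right (by linarith [Int.natCast_nonneg r]) (by linarith)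
    have b2 : ((r : ℤ) - r') * P ≤ (m - 1) * P :=
      mul_le_mul_of_nonneg_right (by linarith [Int.natCast_nonneg r']) (by linarith)
    have hq0 := Int.natCast_nonneg q
    have hq0' := Int.natCast_nonneg q'
    have hv0 := Int.natCast_nonneg v
    have hv0' := Int.natCast_nonneg v'
    have hpp : (0 : ℤ) ≤ p := Int.natCast_nonneg p
    have hk : (l + q - l' - q' : ℤ) = 0 := by
      rcases lt_trichotomy (l + q - l' - q' : ℤ) 0 with hk | hk | hk
      · exfalso
        have : (p : ℤ) * (l + q - l' - q') ≤ p * (-1) :=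
          mul_le_mul_of_nonneg_left (by linarith [Int.add_one_le_iff.2 hk]) hpp
        nlinarith
      · exact hk
      · exfalso
        have : (p : ℤ) * 1 ≤ p * (l + q - l' - q') :=
          mul_le_mul_of_nonneg_left (by linarith [Int.add_one_le_iff.2 hk]) hpp
        nlinarith
    rw [hk, mul_zero] at hz
    rcases lt_trichotomy (r : ℤ) r' with hk2 | hk2 | hk2
    · exfalso
      have : 1 * (P : ℤ) ≤ (r' - r) * P :=
        mul_le_mul_of_nonneg_right (by linarith [Int.add_one_le_iff.2 hk2]) (by linarith)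
      linarith
    · exact_mod_cast hk2
    · exfalso
      have : 1 * (P : ℤ) ≤ (r - r') * P :=
        mul_le_mul_of_nonneg_right (by linarith [Int.add_one_le_iff.2 hk2]) (by linarith)
      linarith
  have hmod : j * e ≡ j' * e [MOD m] := by
    rw [h1, h1', hrr]
    unfold Nat.ModEq
    rw [Nat.mul_add_mod', Nat.mul_add_mod']
  exact (Nat.ModEq.cancel_right_of_coprime (Nat.coprime_comm.1 hcop) hmod).eq_of_lt_of_lt hj hj'

theorem stepanov_ne {F : Type*} [Field F] {p m P e A B : ℕ} (hm : 2 ≤ m) (hp : p = m * P + 1) (f f1 : F[X])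
    (hf : f = X ^ e * f1) (h0 : f1.coeff 0 ≠ 0) (hcop : Nat.Coprime e m) (hA : A + e ≤ P + 1)
    (h : Fin m → Fin B → F[X]) (hdeg : ∀ j l, (h j l).degree < (A : WithBot ℕ)) (hne : ∃ j l, h j l ≠ 0) :
    ∑ j : Fin m, ∑ l : Fin B, h j l * X ^ (p * (l : ℕ)) * f ^ ((j : ℕ) * P) ≠ 0 := by
  classical
  have hf1 : f1 ≠ 0 := by rintro rfl; simp at h0
  have hfne : f ≠ 0 := by rw [hf]; exact mul_ne_zero (pow_ne_zero _ X_ne_zero) hf1
  have hftd : f.natTrailingDegree = e := by
    rw [hf, natTrailingDegree_mul (pow_ne_zero _ X_ne_zero) hf1, natTrailingDegree_X_pow,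
      natTrailingDegree_eq_zero.2 (Or.inr h0), add_zero]
  have hpow : ∀ n, (f ^ n).natTrailingDegree = n * e := by
    intro n
    induction n with
    | zero => simp
    | succ n ih =>
      rw [pow_succ, natTrailingDegree_mul (pow_ne_zero _ hfne) hfne, ih, hftd]; ring
  have hAp : A ≤ p := by
    have : P ≤ m * P := Nat.le_mul_of_pos_left _ (by omega)
    omega
  have hp0 : 0 < p := by omega
  have e1 : ∀ j : Fin m, ∑ l : Fin B, h j l * X ^ (p * (l : ℕ)) * f ^ ((j : ℕ) * P) =
      (∑ l : Fin B, h j l * X ^ (p * (l : ℕ))) * f ^ ((j : ℕ) * P) := fun j =>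
    (Finset.sum_mul _ _ _).symm
  have hblock : ∀ j : Fin m,
      ∑ l : Fin B, h j l * X ^ (p * (l : ℕ)) * f ^ ((j : ℕ) * P) ≠ 0 → ∃ l, h j l ≠ 0 := by
    intro j hj
    by_contra hc
    push Not at hc
    exact hj (Finset.sum_eq_zero fun l _ => by rw [hc l, zero_mul, zero_mul])
  apply sum_ne_zero_of_trailing
    (fun j : Fin m => ∑ l : Fin B, h j l * X ^ (p * (l : ℕ)) * f ^ ((j : ℕ) * P))
  · obtain ⟨j, hj⟩ := hne
    refine ⟨j, ?_⟩
    simp only [e1]
    exact mul_ne_zero (block_trailing hp0 hAp (h j) (hdeg j) hj).1 (pow_ne_zero _ hfne)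
  · intro i j hi hj hij
    obtain ⟨hi1, l, v, hv, hl⟩ := block_trailing hp0 hAp (h i) (hdeg i) (hblock i hi)
    obtain ⟨hj1, l', v', hv', hl'⟩ := block_trailing hp0 hAp (h j) (hdeg j) (hblock j hj)
    simp only [e1] at hij
    rw [natTrailingDegree_mul hi1 (pow_ne_zero _ hfne),
      natTrailingDegree_mul hj1 (pow_ne_zero _ hfne), hl, hl', hpow, hpow] at hij
    exact Fin.ext (WB_arith hm hp hcop hA i.2 j.2 hv hv' hij)

end Pool.Agent.Lib.MP_42948a_nt.BU
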