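import Pool.Agent.Lib.MP_42948a_nt.BU.WA

/-!
# Linear algebra for the auxiliary polynomial (job WC)

Let `V = Fin m × Fin B → degreeLT F A` (dimension `m B A`, `degreeLTEquiv`), `W = (k : Fin L) → degreeLT F (A + B + k n)` (dimension
`∑_{k<L} (A + B + k n)`, `Module.finrank_pi_fintype` and `degreeLTEquiv`). The linear map sends `h` to the family
`∑_j ∑_l C (ζ^j) * X^l * Hd f (L + j P) k (h (j, l))`, which has degree `< B + (A + k n)` by `Hd_degree` (`l ≤ B - 1`; use
`mem_degreeLT`, `degree_mul_le`, `degree_sum_le`-like or closure of the submodule under sums: each summand lies in `degreeLT F (A + B + k n)`).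
Since `dim W < dim V` the kernel is not trivial (`LinearMap.ker_ne_bot_of_finrank_lt`, `Submodule.exists_mem_ne_zero_of_ne_bot`).
-/

namespace Pool.Agent.Lib.MP_42948a_nt.BU

open Polynomial Finset

theorem exists_h {F : Type*} [Field F] (f : F[X]) (n m A B L P : ℕ) (hf : f.natDegree ≤ n) (hn : 1 ≤ n) (ζ : F)
    (hdim : ∑ k ∈ range L, (A + B + k * n) < m * B * A) :
    ∃ h : Fin m → Fin B → F[X], (∀ j l, (h j l).degree < (A : WithBot ℕ)) ∧ (∃ j l, h j l ≠ 0) ∧
      ∀ k < L, ∑ j : Fin m, ∑ l : Fin B, C (ζ ^ (j : ℕ)) * X ^ (l : ℕ) * Hd f (L + (j : ℕ) * P) k (h j l) = 0 := by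
  classical
  have hfr : ∀ N : ℕ, Module.finrank F (degreeLT F N) = N := by
    intro N
    rw [(degreeLTEquiv F N).finrank_eq, Module.finrank_fin_fun]
  have hfd : ∀ N : ℕ, Module.Finite F (degreeLT F N) := fun N =>
    Module.Finite.equiv (degreeLTEquiv F N).symm
  -- the pieces
  let T : (k : Fin L) → (Fin m → Fin B → degreeLT F A) →ₗ[F] F[X] := fun k =>
    ∑ j : Fin m, ∑ l : Fin B, (LinearMap.mulLeft F (C (ζ ^ (j : ℕ)) * X ^ (l : ℕ))) ∘ₗ
      (Hd f (L + (j : ℕ) * P) k) ∘ₗ (degreeLT F A).subtype ∘ₗ (LinearMap.proj l) ∘ₗ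
        (LinearMap.proj j)
  have hT : ∀ (k : Fin L) (h : Fin m → Fin B → degreeLT F A), T k h =
      ∑ j : Fin m, ∑ l : Fin B, C (ζ ^ (j : ℕ)) * X ^ (l : ℕ) *
        Hd f (L + (j : ℕ) * P) k (h j l : F[X]) := by
    intro k h
    simp only [T, LinearMap.sum_apply, LinearMap.comp_apply, LinearMap.mulLeft_apply,
      LinearMap.proj_apply, Submodule.subtype_apply]
  have hTdeg : ∀ (k : Fin L) (h : Fin m → Fin B → degreeLT F A),
      T k h ∈ degreeLT F (A + B + k * n) := by
    intro k h
    rw [hT]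
    refine Submodule.sum_mem _ fun j _ => Submodule.sum_mem _ fun l _ => ?_
    rw [mem_degreeLT]
    have h1 := Hd_degree f (h j l : F[X]) n A (L + (j : ℕ) * P) k hf hn (mem_degreeLT.mp (h j l).2)
    generalize Hd f (L + (j : ℕ) * P) k (h j l : F[X]) = G at h1 ⊢
    rcases eq_or_ne G 0 with h0 | h0
    · rw [h0, mul_zero, degree_zero]
      exact WithBot.bot_lt_coe _
    · have h2 : G.natDegree < A + k * n := by
        rw [degree_eq_natDegree h0] at h1
        exact_mod_cast h1
      have h3 : (C (ζ ^ (j : ℕ)) * X ^ (l : ℕ) * G).natDegree ≤ (l : ℕ) + G.natDegree := by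
        refine natDegree_mul_le.trans (Nat.add_le_add_right ?_ _)
        exact (natDegree_C_mul_le _ _).trans (natDegree_X_pow_le _)
      refine lt_of_le_of_lt (degree_le_of_natDegree_le h3) ?_
      have h4 : (l : ℕ) + G.natDegree < A + B + k * n := by
        have := l.2
        omega
      exact_mod_cast h4
  let Φ : (Fin m → Fin B → degreeLT F A) →ₗ[F] ((k : Fin L) → degreeLT F (A + B + k * n)) :=
    LinearMap.pi fun k => (T k).codRestrict _ (hTdeg k)
  have hV : Module.finrank F (Fin m → Fin B → degreeLT F A) = m * B * A := by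
    rw [Module.finrank_pi_fintype]
    simp only [Module.finrank_pi_fintype, hfr]
    simp [mul_assoc]
  have hW : Module.finrank F ((k : Fin L) → degreeLT F (A + B + k * n)) =
      ∑ k ∈ range L, (A + B + k * n) := by
    rw [Module.finrank_pi_fintype, ← Fin.sum_univ_eq_sum_range]
    exact sum_congr rfl fun k _ => hfr _
  have hker : LinearMap.ker Φ ≠ ⊥ := by
    apply LinearMap.ker_ne_bot_of_finrank_lt
    rw [hV, hW]
    exact hdim
  obtain ⟨h, hmem, hne⟩ := Submodule.exists_mem_ne_zero_of_ne_bot hker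
  refine ⟨fun j l => (h j l : F[X]), fun j l => mem_degreeLT.mp (h j l).2, ?_, ?_⟩
  · by_contra hcon
    push Not at hcon
    apply hne
    funext j l
    exact Subtype.ext (hcon j l)
  · intro k hk
    rw [LinearMap.mem_ker] at hmem
    have h1 := congrFun hmem ⟨k, hk⟩
    have h2 : T ⟨k, hk⟩ h = 0 := congrArg Subtype.val h1
    rw [hT] at h2
    exact h2

end Pool.Agent.Lib.MP_42948a_nt.BU
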