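import Pool.Agent.Lib.MP_42948a_nt.BU.WB
import Pool.Agent.Lib.MP_42948a_nt.BU.WC

/-!
# Stepanov's count (job WD)

`card_mul_le`: for `x ∈ S`, `(X - C x)^L ∣ Ψ`: if `L = 0` clear; otherwise `L - 1 < rootMultiplicity x Ψ` by
`lt_rootMultiplicity_of_isRoot_iterate_derivative_of_mem_nonZeroDivisors` (or its primed version) since `(L-1)!` is not zero in `ZMod p`
(`L ≤ p`, `ZMod.natCast_eq_zero_iff`, `Nat.Prime.dvd_factorial`), and `pow_rootMultiplicity_dvd` / `le_rootMultiplicity_iff`. The powers for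
different `x` are coprime, so `∏_{x ∈ S} (X - C x)^L ∣ Ψ` (`Finset.prod_dvd_of_coprime`, `Polynomial.pairwise_coprime_X_sub_C`), and compare
degrees (`natDegree_le_of_dvd`, `natDegree_prod_of_monic`).

`stepanov_card`: `e ≤ n` since `natDegree f = e + natDegree f1` (`f1 ≠ 0`). Take `h` from `exists_h` and `Ψ = f^L * ∑_j ∑_l h j l * X^(p l) * f^(j P)`; it
is not zero by `stepanov_ne` (`f ≠ 0`). It equals `∑_{j,l} f^(L + j P) * h j l * X^(p l)`, so for `k < L` by `iterate_form`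
`D^k Ψ = ∑_{j,l} f^(L + jP - k) * Hd f (L+jP) k (h j l) * X^(p l)`, whose value at `x` in the set is
`f(x)^(L-k) * ∑_{j,l} ζ^j * (Hd ..)(x) * x^l = 0` (`f(x)^(j P) = ζ^j`, `x^(p l) = x^l` by `ZMod.pow_card`; evaluate the identity of `exists_h`).
Degree of `Ψ`: `≤ L n + (A + p (B-1) + m (n P))` (each term: `natDegree (h j l) ≤ A`, `l ≤ B - 1`, `j ≤ m`).
-/

namespace Pool.Agent.Lib.MP_42948a_nt.BU

open Polynomial Finset

theorem card_mul_le {p : ℕ} [Fact p.Prime] (Ψ : (ZMod p)[X]) (hΨ : Ψ ≠ 0) (L : ℕ) (hL : L ≤ p) (S : Finset (ZMod p))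
    (hS : ∀ x ∈ S, ∀ k < L, (derivative^[k] Ψ).eval x = 0) : S.card * L ≤ Ψ.natDegree := by
  classical
  rcases Nat.eq_zero_or_pos L with h0 | h0
  · rw [h0, mul_zero]
    exact Nat.zero_le _
  have hm : ∀ x ∈ S, L ≤ Ψ.roots.count x := by
    intro x hx
    rw [count_roots]
    have h1 : L - 1 < Ψ.rootMultiplicity x := by
      refine lt_rootMultiplicity_of_isRoot_iterate_derivative_of_mem_nonZeroDivisors' hΨ ?_ ?_
      · intro k hk
        exact hS x hx k (by omega)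
      · intro k hk hk0
        refine mem_nonZeroDivisors_of_ne_zero fun h => ?_
        rw [ZMod.natCast_eq_zero_iff] at h
        have := Nat.le_of_dvd (Nat.pos_of_ne_zero hk0) h
        omega
    omega
  have h1 : S.card * L ≤ ∑ x ∈ S, Ψ.roots.count x := by
    rw [← smul_eq_mul, ← Finset.sum_const]
    exact Finset.sum_le_sum hm
  have h3 : ∑ y ∈ S, Ψ.roots.count y ≤ ∑ y ∈ S ∪ Ψ.roots.toFinset, Ψ.roots.count y :=
    Finset.sum_le_sum_of_subset Finset.subset_union_left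
  have h4 : ∑ y ∈ Ψ.roots.toFinset, Ψ.roots.count y = ∑ y ∈ S ∪ Ψ.roots.toFinset, Ψ.roots.count y := by
    refine Finset.sum_subset Finset.subset_union_right fun y _ hy => ?_
    rw [Multiset.mem_toFinset] at hy
    exact Multiset.count_eq_zero_of_notMem hy
  rw [← h4, Multiset.toFinset_sum_count_eq] at h3
  exact (h1.trans h3).trans (card_roots' Ψ)

theorem stepanov_card {p : ℕ} [Fact p.Prime] {m n A B L P e : ℕ} (hm : 2 ≤ m) (hn : 1 ≤ n) (hB : 1 ≤ B)
    (hp : p = m * P + 1) (f f1 : (ZMod p)[X]) (hf : f.natDegree ≤ n) (hf1 : f = X ^ e * f1) (h0 : f1.coeff 0 ≠ 0)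
    (hcop : Nat.Coprime e m) (hA : A + n ≤ P + 1) (hL : L ≤ p) (hdim : ∑ k ∈ range L, (A + B + k * n) < m * B * A)
    (ζ : ZMod p) (hζ : ζ ≠ 0) :
    (univ.filter (fun x : ZMod p => (f.eval x) ^ P = ζ)).card * L ≤ n * L + A + m * (n * P) + p * (B - 1) := by
  have hf10 : f1 ≠ 0 := by
    intro h
    rw [h, coeff_zero] at h0
    exact h0 rfl
  have hXe : (X ^ e : (ZMod p)[X]) ≠ 0 := pow_ne_zero _ X_ne_zero
  have hf0 : f ≠ 0 := by
    rw [hf1]
    exact mul_ne_zero hXe hf10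
  have hen : e ≤ n := by
    have h1 : f.natDegree = e + f1.natDegree := by
      rw [hf1, natDegree_mul hXe hf10, natDegree_X_pow]
    omega
  obtain ⟨h, hdeg, hne, hid⟩ := exists_h f n m A B L P hf hn ζ hdim
  have hΦ := stepanov_ne (p := p) hm hp f f1 hf1 h0 hcop (by omega) h hdeg hne
  obtain ⟨Ψ, hΨdef⟩ : ∃ Ψ : (ZMod p)[X], Ψ =
      f ^ L * ∑ j : Fin m, ∑ l : Fin B, h j l * X ^ (p * (l : ℕ)) * f ^ ((j : ℕ) * P) := ⟨_, rfl⟩
  have hΨ : Ψ ≠ 0 := by
    rw [hΨdef]
    exact mul_ne_zero (pow_ne_zero _ hf0) hΦ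
  have hΨ2 : Ψ = ∑ j : Fin m, ∑ l : Fin B, f ^ (L + (j : ℕ) * P) * h j l * X ^ (p * (l : ℕ)) := by
    rw [hΨdef, mul_sum]
    refine sum_congr rfl fun j _ => ?_
    rw [mul_sum]
    refine sum_congr rfl fun l _ => ?_
    rw [pow_add]
    ring
  have hder : ∀ x ∈ univ.filter (fun x : ZMod p => (f.eval x) ^ P = ζ), ∀ k < L,
      (derivative^[k] Ψ).eval x = 0 := by
    intro x hx k hk
    have hx' : (f.eval x) ^ P = ζ := (mem_filter.1 hx).2
    rw [hΨ2, iterate_derivative_sum, eval_finsetSum]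
    have h1 : ∀ j : Fin m, (derivative^[k] (∑ l : Fin B, f ^ (L + (j : ℕ) * P) * h j l * X ^ (p * (l : ℕ)))).eval x =
        (f.eval x) ^ (L - k) *
          (∑ l : Fin B, C (ζ ^ (j : ℕ)) * X ^ (l : ℕ) * Hd f (L + (j : ℕ) * P) k (h j l)).eval x := by
      intro j
      rw [iterate_derivative_sum, eval_finsetSum, eval_finsetSum, mul_sum]
      refine sum_congr rfl fun l _ => ?_
      rw [iterate_form p f (h j l) (L + (j : ℕ) * P) l k (by omega)]
      simp only [eval_mul, eval_pow, eval_X, eval_C]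
      have h2 : L + (j : ℕ) * P - k = (L - k) + P * (j : ℕ) := by
        rw [Nat.mul_comm P]
        omega
      rw [h2, pow_add, pow_mul, hx', pow_mul, ZMod.pow_card]
      ring
    rw [sum_congr rfl fun j _ => h1 j, ← mul_sum, ← eval_finsetSum, hid k hk, eval_zero, mul_zero]
  have hcard := card_mul_le Ψ hΨ L hL _ hder
  refine hcard.trans ?_
  have hfp : ∀ N : ℕ, (f ^ N).natDegree ≤ N * n := fun N =>
    natDegree_pow_le.trans (Nat.mul_le_mul_left N hf)
  rw [hΨdef]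
  refine natDegree_mul_le.trans ?_
  have h2 : (∑ j : Fin m, ∑ l : Fin B, h j l * X ^ (p * (l : ℕ)) * f ^ ((j : ℕ) * P)).natDegree ≤
      A + p * (B - 1) + m * (n * P) := by
    refine natDegree_sum_le_of_forall_le _ _ fun j _ => ?_
    refine natDegree_sum_le_of_forall_le _ _ fun l _ => ?_
    refine natDegree_mul_le.trans (Nat.add_le_add (natDegree_mul_le.trans (Nat.add_le_add ?_ ?_)) ?_)
    · exact natDegree_le_of_degree_le (hdeg j l).le
    · rw [natDegree_X_pow]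
      refine Nat.mul_le_mul_left p ?_
      have := l.2
      omega
    · refine (hfp _).trans ?_
      have h3 : (j : ℕ) ≤ m := j.2.le
      calc (j : ℕ) * P * n = (j : ℕ) * (n * P) := by ring
        _ ≤ m * (n * P) := Nat.mul_le_mul_right _ h3
  have h3 := hfp L
  have h4 : L * n = n * L := Nat.mul_comm _ _
  omega

end Pool.Agent.Lib.MP_42948a_nt.BU
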