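import Mathlib

/-!
# Sums of roots of unity (job WI)

`∑_x v x = ∑_{w ∈ μ_m} w * N_w`, `μ_m = nthRootsFinset m 1`, `N_w = #{x : v x = w}` (the `x` with `v x = 0` contribute nothing), `∑_w w = 0` (`m ≥ 2`,
`IsPrimitiveRoot.geom_sum_eq_zero` with `Complex.isPrimitiveRoot_exp`; or multiply the sum by a primitive root),
so `‖∑_w w N_w‖ = ‖∑_w w (N_w - U)‖ ≤ ∑_w (U - N_w) = m U - ∑ N_w` and
`∑_w N_w = #{x : v x ≠ 0} ≥ #X - n` (`#μ_m = m`: `IsPrimitiveRoot.card_nthRootsFinset`).
-/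

namespace Pool.Agent.Lib.MP_42948a_nt.BU

open Polynomial Finset

private theorem WI_sum (m : ℕ) (hm : 2 ≤ m) : ∑ w ∈ nthRootsFinset m (1 : ℂ), w = 0 := by
  have hm0 : 0 < m := by omega
  have hζ : IsPrimitiveRoot (Complex.exp (2 * Real.pi * Complex.I / m)) m :=
    Complex.isPrimitiveRoot_exp m hm0.ne'
  obtain ⟨ζ, hζe⟩ : ∃ ζ : ℂ, ζ = Complex.exp (2 * Real.pi * Complex.I / m) := ⟨_, rfl⟩
  rw [← hζe] at hζ
  have hζ1 : ζ ≠ 1 := hζ.ne_one (by omega)
  have hζ0 : ζ ≠ 0 := hζ.ne_zero hm0.ne'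
  have hmul : ζ * ∑ w ∈ nthRootsFinset m (1 : ℂ), w = ∑ w ∈ nthRootsFinset m (1 : ℂ), w := by
    rw [Finset.mul_sum]
    refine Finset.sum_nbij' (fun w => ζ * w) (fun w => ζ⁻¹ * w) ?_ ?_ ?_ ?_ ?_
    · intro w hw
      rw [mem_nthRootsFinset hm0] at hw ⊢
      rw [mul_pow, hζ.pow_eq_one, hw, one_mul]
    · intro w hw
      rw [mem_nthRootsFinset hm0] at hw ⊢
      rw [mul_pow, inv_pow, hζ.pow_eq_one, hw, inv_one, one_mul]
    · intro w _
      rw [← mul_assoc, inv_mul_cancel₀ hζ0, one_mul]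
    · intro w _
      rw [← mul_assoc, mul_inv_cancel₀ hζ0, one_mul]
    · intro w _
      rfl
  have h2 : (ζ - 1) * ∑ w ∈ nthRootsFinset m (1 : ℂ), w = 0 := by
    rw [sub_mul, hmul, one_mul, sub_self]
  rcases mul_eq_zero.1 h2 with h3 | h3
  · exact absurd (sub_eq_zero.1 h3) hζ1
  · exact h3

open Classical in
theorem root_sum {X : Type*} [Fintype X] (v : X → ℂ) (m n : ℕ) (hm : 2 ≤ m) (U : ℝ) (hU : 0 ≤ U)
    (hv : ∀ x, v x = 0 ∨ v x ^ m = 1) (hn : (univ.filter (fun x => v x = 0)).card ≤ n)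
    (hw : ∀ w : ℂ, w ^ m = 1 → ((univ.filter (fun x => v x = w)).card : ℝ) ≤ U) :
    ‖∑ x, v x‖ ≤ m * U - (Fintype.card X : ℝ) + n := by
  have hm0 : 0 < m := by omega
  have hcard : (nthRootsFinset m (1 : ℂ)).card = m :=
    (Complex.isPrimitiveRoot_exp m hm0.ne').card_nthRootsFinset
  have hmem : ∀ x, v x ∈ nthRootsFinset m (1 : ℂ) ↔ v x ≠ 0 := by
    intro x
    rw [mem_nthRootsFinset hm0]
    constructor
    · intro h h0
      rw [h0, zero_pow hm0.ne'] at h
      exact zero_ne_one h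
    · intro h
      exact (hv x).resolve_left h
  have h1 : ∑ x, v x = ∑ w ∈ nthRootsFinset m (1 : ℂ),
      w * ((univ.filter (fun x => v x = w)).card : ℂ) := by
    have h2 : ∀ x, v x = ∑ w ∈ nthRootsFinset m (1 : ℂ), if v x = w then w else 0 := by
      intro x
      rw [Finset.sum_ite_eq]
      by_cases h0 : v x = 0
      · rw [if_neg (fun h => (hmem x).1 h h0), h0]
      · rw [if_pos ((hmem x).2 h0)]
    rw [Finset.sum_congr rfl fun x _ => h2 x, Finset.sum_comm]
    apply Finset.sum_congr rfl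
    intro w _
    rw [← Finset.sum_filter, Finset.sum_const, nsmul_eq_mul, mul_comm]
  have h3 : ∑ w ∈ nthRootsFinset m (1 : ℂ), ((univ.filter (fun x => v x = w)).card : ℝ) ≥
      (Fintype.card X : ℝ) - n := by
    have h4 : ∑ w ∈ nthRootsFinset m (1 : ℂ), (univ.filter (fun x => v x = w)).card =
        (univ.filter (fun x => ¬ v x = 0)).card := by
      have h5 : ∀ w ∈ nthRootsFinset m (1 : ℂ), (univ.filter (fun x => v x = w)).card =
          ∑ x, if v x = w then 1 else 0 := by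
        intro w _
        rw [Finset.card_filter]
      rw [Finset.sum_congr rfl h5, Finset.sum_comm, Finset.card_filter]
      apply Finset.sum_congr rfl
      intro x _
      rw [Finset.sum_ite_eq]
      by_cases h0 : v x = 0
      · rw [if_neg (fun h => (hmem x).1 h h0), if_neg (fun h => h h0)]
      · rw [if_pos ((hmem x).2 h0), if_pos h0]
    have h6 : (univ.filter (fun x => v x = 0)).card + (univ.filter (fun x => ¬ v x = 0)).card =
        Fintype.card X := by
      rw [Finset.card_filter_add_card_filter_not]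
      rfl
    have h7 : (Fintype.card X : ℝ) ≤ n + ∑ w ∈ nthRootsFinset m (1 : ℂ),
        ((univ.filter (fun x => v x = w)).card : ℝ) := by
      rw [← h6, ← h4]
      push_cast
      have h8 : ((univ.filter (fun x => v x = 0)).card : ℝ) ≤ n := by exact_mod_cast hn
      linarith
    linarith
  have h9 : ∑ x, v x = ∑ w ∈ nthRootsFinset m (1 : ℂ),
      w * (((univ.filter (fun x => v x = w)).card : ℂ) - (U : ℂ)) := by
    rw [h1]
    have h10 : ∑ w ∈ nthRootsFinset m (1 : ℂ), w * (U : ℂ) = 0 := by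
      rw [← Finset.sum_mul, WI_sum m hm, zero_mul]
    rw [← sub_eq_zero, ← Finset.sum_sub_distrib]
    rw [← h10]
    apply Finset.sum_congr rfl
    intro w _
    ring
  rw [h9]
  have h11 : ∀ w ∈ nthRootsFinset m (1 : ℂ),
      ‖w * (((univ.filter (fun x => v x = w)).card : ℂ) - (U : ℂ))‖ ≤
        U - ((univ.filter (fun x => v x = w)).card : ℝ) := by
    intro w hwm
    rw [mem_nthRootsFinset hm0] at hwm
    have h12 : ‖w‖ = 1 := Complex.norm_eq_one_of_pow_eq_one hwm hm0.ne'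
    have h13 : (((univ.filter (fun x => v x = w)).card : ℂ) - (U : ℂ)) =
        ((((univ.filter (fun x => v x = w)).card : ℝ) - U : ℝ) : ℂ) := by
      push_cast
      ring
    rw [norm_mul, h12, one_mul, h13, Complex.norm_real, Real.norm_eq_abs, abs_sub_comm,
      abs_of_nonneg (sub_nonneg.2 (hw w hwm))]
  refine le_trans (norm_sum_le _ _) (le_trans (Finset.sum_le_sum h11) ?_)
  rw [Finset.sum_sub_distrib, Finset.sum_const, hcard, nsmul_eq_mul]
  linarith

end Pool.Agent.Lib.MP_42948a_nt.BU
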