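import Pool.Agent.Lib.MP_42948a_nt.BU.WE
import Pool.Agent.Lib.MP_42948a_nt.BU.WF
import Pool.Agent.Lib.MP_42948a_nt.BU.WI

/-!
# The Weil bound for character sums over polynomials (job WG)

`m ≥ 2` is the order of `χ`; `C = m C0 + n`, `C0` from `stepanov_count m n`. Let `g = f.comp (X + C α)`, so `∑_x χ(f(x)) = ∑_x χ(g(x))` (translate,
`Equiv.addRight`), `natDegree g = natDegree f ≤ n`, `g ≠ 0`, and `g = X^e * g1`, `g1.coeff 0 ≠ 0`, `e = rootMultiplicity α f`
(`exists_eq_pow_rootMultiplicity_mul_and_not_dvd f hf α`: `f = (X - C α)^e * f1`, `¬ (X - C α) ∣ f1`, so `f1.eval α ≠ 0`; compose). Let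
`v x = χ (g.eval x)`, `U = p/m + C0 √p`, `P` from `level_set`. `v x = 0` iff `g(x) = 0`, at most `natDegree g ≤ n` times (`card_roots'`); otherwise
`v x ^ m = 1` (`χ^m = 1`, `pow_orderOf_eq_one`). For `w^m = 1`: if no `x` has `v x = w` the count is `0 ≤ U`; otherwise fix such an `x0`
(`g(x0) ≠ 0` as `w ≠ 0`) and `{x : v x = w} ⊆ {x : g(x)^P = g(x0)^P}` (`level_set`; `g(x) ≠ 0` as `w ≠ 0`), `stepanov_count`. `root_sum` gives
`‖∑‖ ≤ m U - p + n = m C0 √p + n ≤ (m C0 + n) √p`.
-/

namespace Pool.Agent.Lib.MP_42948a_nt.BU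

open Polynomial Finset

theorem weil_char (m n : ℕ) (hm : 2 ≤ m) (hn : 1 ≤ n) :
    ∃ C : ℝ, 0 ≤ C ∧ ∀ (p : ℕ) [Fact p.Prime] (χ : MulChar (ZMod p) ℂ), orderOf χ = m →
      ∀ f : (ZMod p)[X], f.natDegree ≤ n → f ≠ 0 → ∀ α : ZMod p, Nat.Coprime (f.rootMultiplicity α) m →
      ‖∑ x : ZMod p, χ (f.eval x)‖ ≤ C * √(p : ℝ) := by
  classical
  obtain ⟨C0, hC0, hS⟩ := stepanov_count m n hm hn
  refine ⟨m * C0 + n, by positivity, ?_⟩
  intro p _ χ hχ f hfn hf α hcop
  obtain ⟨P, hP, hlev⟩ := level_set χ hm hχ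
  obtain ⟨f1, hf1, hnd⟩ := exists_eq_pow_rootMultiplicity_mul_and_not_dvd f hf α
  have hgn : (f.comp (X + C α)).natDegree ≤ n := by
    rw [natDegree_comp, natDegree_X_add_C, mul_one]; exact hfn
  have hg1 : f.comp (X + C α) = X ^ (f.rootMultiplicity α) * (f1.comp (X + C α)) := by
    conv_lhs => rw [hf1]
    rw [mul_comp, pow_comp, sub_comp, X_comp, C_comp, add_sub_cancel_right]
  have h0 : (f1.comp (X + C α)).coeff 0 ≠ 0 := by
    rw [coeff_zero_eq_eval_zero, eval_comp]
    simp only [eval_add, eval_X, eval_C, zero_add]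
    intro h
    exact hnd (dvd_iff_isRoot.mpr h)
  have hg0 : f.comp (X + C α) ≠ 0 := by
    rw [hg1]
    apply mul_ne_zero (pow_ne_zero _ X_ne_zero)
    intro h
    apply h0
    rw [h, coeff_zero]
  have hsum : ∑ x : ZMod p, χ (f.eval x) = ∑ x : ZMod p, χ ((f.comp (X + C α)).eval x) := by
    rw [← Equiv.sum_comp (Equiv.addRight α) (fun x : ZMod p => χ (f.eval x))]
    apply Finset.sum_congr rfl
    intro x _
    rw [eval_comp]
    simp
  rw [hsum]
  have hp1 : 1 ≤ p := (Fact.out : p.Prime).one_lt.le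
  have hp : (0:ℝ) < p := by exact_mod_cast hp1
  have hm0 : (0:ℝ) < m := by exact_mod_cast (by omega : 0 < m)
  have hval : ∀ x : ZMod p, (f.comp (X + C α)).eval x ≠ 0 → χ ((f.comp (X + C α)).eval x) ^ m = 1 := by
    intro x h
    have h2 : (χ ^ m) ((f.comp (X + C α)).eval x) = 1 := by
      rw [← hχ, pow_orderOf_eq_one χ]
      exact MulChar.one_apply (IsUnit.mk0 _ h)
    rwa [MulChar.pow_apply' χ (by omega)] at h2
  have hzero : ∀ x : ZMod p, χ ((f.comp (X + C α)).eval x) = 0 → (f.comp (X + C α)).eval x = 0 := by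
    intro x h
    by_contra h3
    have := hval x h3
    rw [h, zero_pow (by omega)] at this
    exact zero_ne_one this
  have h1 := root_sum (fun x : ZMod p => χ ((f.comp (X + C α)).eval x)) m n hm
    ((p:ℝ)/m + C0 * √(p:ℝ)) (by positivity) ?_ ?_ ?_
  · rw [ZMod.card] at h1
    refine h1.trans ?_
    have hs : (1:ℝ) ≤ √(p:ℝ) := by
      rw [Real.one_le_sqrt]
      exact_mod_cast hp1
    have hn0 : (0:ℝ) ≤ n := by positivity
    have he : (m:ℝ) * ((p:ℝ)/m + C0 * √(p:ℝ)) - p + n = m * C0 * √(p:ℝ) + n := by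
      field_simp
      ring
    rw [he]
    nlinarith
  · intro x
    by_cases h : (f.comp (X + C α)).eval x = 0
    · left
      show χ ((f.comp (X + C α)).eval x) = 0
      rw [h]
      exact MulChar.map_zero χ
    · right
      exact hval x h
  · have hsub : (univ.filter (fun x : ZMod p => χ ((f.comp (X + C α)).eval x) = 0)) ⊆
        (f.comp (X + C α)).roots.toFinset := by
      intro x hx
      rw [Finset.mem_filter] at hx
      rw [Multiset.mem_toFinset, mem_roots hg0]
      exact hzero x hx.2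
    calc _ ≤ _ := Finset.card_le_card hsub
      _ ≤ _ := Multiset.toFinset_card_le _
      _ ≤ _ := card_roots' _
      _ ≤ n := hgn
  · intro w hw
    have hw0 : w ≠ 0 := by
      intro h
      rw [h, zero_pow (by omega)] at hw
      exact zero_ne_one hw
    by_cases hex : ∃ x0 : ZMod p, χ ((f.comp (X + C α)).eval x0) = w
    · obtain ⟨x0, hx0⟩ := hex
      have hgx0 : (f.comp (X + C α)).eval x0 ≠ 0 := by
        intro h
        rw [h, MulChar.map_zero] at hx0
        exact hw0 hx0.symm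
      have h2 := hS p P (f.rootMultiplicity α) hP (f.comp (X + C α)) (f1.comp (X + C α)) hgn hg1 h0 hcop
        (((f.comp (X + C α)).eval x0) ^ P) (pow_ne_zero _ hgx0)
      refine le_trans ?_ h2
      have hsub : (univ.filter (fun x : ZMod p => χ ((f.comp (X + C α)).eval x) = w)) ⊆
          (univ.filter (fun x : ZMod p => ((f.comp (X + C α)).eval x) ^ P =
            ((f.comp (X + C α)).eval x0) ^ P)) := by
        intro x hx
        rw [Finset.mem_filter] at hx ⊢
        refine ⟨Finset.mem_univ _, ?_⟩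
        have hgx : (f.comp (X + C α)).eval x ≠ 0 := by
          intro h
          have := hx.2
          rw [h, MulChar.map_zero] at this
          exact hw0 this.symm
        rw [← hlev _ _ hgx hgx0, hx.2, hx0]
      exact_mod_cast Finset.card_le_card hsub
    · push Not at hex
      rw [Finset.filter_false_of_mem (fun x _ => hex x), Finset.card_empty, Nat.cast_zero]
      positivity

end Pool.Agent.Lib.MP_42948a_nt.BU
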