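import Pool.Agent.Lib.MP_42948a_nt.BU.WG

/-!
# Products of shifted characters (job WH)

`C` = `1` + the sum of the constants of `weil_char m' (r M0 + 1)` over `m' ∈ Icc 2 M0`. Let `m' = orderOf χ`; `m' ≠ 1` since `χ ≠ 1`, `m' ∣ m`, so
`2 ≤ m' ≤ m ≤ M0`. For every `y`: `conj (χ y) = χ y ^ (m' - 1)`: for `y = 0` both sides are `0` (`m' - 1 ≥ 1`, `MulChar.map_zero`), for
`y ≠ 0`: `χ y ^ m' = 1`, so `‖χ y‖ = 1` and `conj (χ y) = (χ y)⁻¹`. So the summand is `χ (f.eval x)` with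
`f = (∏_i (X + C (b (inl i)))) * ∏_i (X + C (b (inr i)))^(m'-1)`, `natDegree f ≤ r + r (m' - 1) ≤ r M0 + 1`, `f ≠ 0` (monic).
Root `α = - b j`: the factors with index `i ≠ j` do not vanish at `α` (`b i ≠ b j`), the factor with index `j` is `X + C (b j) = X - C α`; so
`rootMultiplicity α f` is `1` (if `j = inl i`) or `m' - 1` (if `j = inr i`) (`rootMultiplicity_mul`, `rootMultiplicity_X_sub_C_pow`,
`rootMultiplicity_eq_zero`; or `f = (X - C α)^e * g` with `g.eval α ≠ 0`), coprime to `m'` in both cases.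
-/

namespace Pool.Agent.Lib.MP_42948a_nt.BU

open Polynomial Finset

private theorem WH_conj {p : ℕ} [Fact p.Prime] (χ : MulChar (ZMod p) ℂ) (h2 : 2 ≤ orderOf χ) (y : ZMod p) :
    (starRingEnd ℂ) (χ y) = χ (y ^ (orderOf χ - 1)) := by
  by_cases hy : y = 0
  · subst hy
    rw [zero_pow (by omega), MulChar.map_zero, map_zero]
  · have h1 : χ y ^ orderOf χ = 1 := by
      rw [← MulChar.pow_apply' _ (by omega), pow_orderOf_eq_one, MulChar.one_apply (Ne.isUnit hy)]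
    have hn : ‖χ y‖ = 1 := Complex.norm_eq_one_of_pow_eq_one h1 (by omega)
    rw [← Complex.inv_eq_conj hn, map_pow]
    apply inv_eq_of_mul_eq_one_right
    rw [← pow_succ', Nat.sub_add_cancel (by omega), h1]

private theorem WH_mult {K ι : Type*} [Field K] [DecidableEq ι] (s : Finset ι) (b : ι → K) (e : ι → ℕ) (j : ι) (hj : j ∈ s)
    (hb : ∀ i, i ≠ j → b i ≠ b j) :
    (∏ i ∈ s, (X + C (b i)) ^ e i : K[X]).rootMultiplicity (- b j) = e j := by
  classical
  have hne : ∀ t : Finset ι, (∏ i ∈ t, (X + C (b i)) ^ e i : K[X]) ≠ 0 := by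
    intro t
    apply Monic.ne_zero
    exact monic_prod_of_monic _ _ (fun i _ => (monic_X_add_C (b i)).pow _)
  rw [← mul_prod_erase s _ hj, rootMultiplicity_mul]
  · have h1 : ((X + C (b j)) ^ e j : K[X]) = (X - C (- b j)) ^ e j := by
      rw [map_neg, sub_neg_eq_add]
    rw [h1, rootMultiplicity_X_sub_C_pow]
    rw [rootMultiplicity_eq_zero, add_zero]
    rw [IsRoot.def, eval_prod, prod_eq_zero_iff]
    rintro ⟨i, hi, h0⟩
    rw [eval_pow, eval_add, eval_X, eval_C] at h0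
    have h3 : -b j + b i = 0 := by
      by_contra h4
      exact pow_ne_zero _ h4 h0
    apply hb i (ne_of_mem_erase hi)
    linear_combination h3
  · exact mul_ne_zero (((monic_X_add_C (b j)).pow _).ne_zero) (hne _)

private theorem WH_deg {K ι : Type*} [Field K] (s : Finset ι) (b : ι → K) (e : ι → ℕ) :
    (∏ i ∈ s, (X + C (b i)) ^ e i : K[X]).natDegree = ∑ i ∈ s, e i := by
  rw [natDegree_prod_of_monic _ _ (fun i _ => (monic_X_add_C (b i)).pow _)]
  apply sum_congr rfl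
  intro i _
  rw [(monic_X_add_C (b i)).natDegree_pow, natDegree_X_add_C, mul_one]

/-- the constant `C` works in the Weil bound for products of `r + r` shifts of characters of order `≤ M0` -/
def WeilC (M0 r : ℕ) (C : ℝ) : Prop :=
  ∀ (p : ℕ) [Fact p.Prime] (χ : MulChar (ZMod p) ℂ) (m : ℕ), 1 ≤ m → m ≤ M0 → χ ^ m = 1 → χ ≠ 1 →
    ∀ (b : Fin r ⊕ Fin r → ZMod p) (j : Fin r ⊕ Fin r), (∀ i, i ≠ j → b i ≠ b j) →
    ‖∑ x : ZMod p, (∏ i : Fin r, χ (x + b (Sum.inl i))) * ∏ i : Fin r, (starRingEnd ℂ) (χ (x + b (Sum.inr i)))‖ ≤ C * √(p : ℝ)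

theorem weil_tuple (M0 r : ℕ) (hr : 1 ≤ r) : ∃ C : ℝ, 1 ≤ C ∧ WeilC M0 r C := by
  classical
  have hW : ∀ m' : ℕ, ∃ C : ℝ, 0 ≤ C ∧ (2 ≤ m' → ∀ (p : ℕ) [Fact p.Prime] (χ : MulChar (ZMod p) ℂ), orderOf χ = m' →
      ∀ f : (ZMod p)[X], f.natDegree ≤ r * M0 + 1 → f ≠ 0 → ∀ α : ZMod p, Nat.Coprime (f.rootMultiplicity α) m' →
      ‖∑ x : ZMod p, χ (f.eval x)‖ ≤ C * √(p : ℝ)) := by
    intro m'
    by_cases h : 2 ≤ m'
    · obtain ⟨C, hC, h2⟩ := weil_char m' (r * M0 + 1) h (by omega)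
      exact ⟨C, hC, fun _ => h2⟩
    · exact ⟨0, le_refl _, fun h' => absurd h' h⟩
  choose Cf hC0 hC using hW
  refine ⟨1 + ∑ m' ∈ Icc 2 M0, Cf m', ?_, ?_⟩
  · have : 0 ≤ ∑ m' ∈ Icc 2 M0, Cf m' := sum_nonneg (fun i _ => hC0 i)
    linarith
  intro p _ χ m hm1 hmM hχm hχ1 b j hb
  have hpos : 0 < orderOf χ := orderOf_pos_iff.2 (isOfFinOrder_iff_pow_eq_one.2 ⟨m, by omega, hχm⟩)
  have hdvd : orderOf χ ∣ m := orderOf_dvd_of_pow_eq_one hχm
  have hle : orderOf χ ≤ m := Nat.le_of_dvd (by omega) hdvd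
  have hne1 : orderOf χ ≠ 1 := fun h => hχ1 (orderOf_eq_one_iff.1 h)
  have h2 : 2 ≤ orderOf χ := by omega
  set e : Fin r ⊕ Fin r → ℕ := Sum.elim (fun _ => 1) (fun _ => orderOf χ - 1) with he
  set f : (ZMod p)[X] := ∏ i : Fin r ⊕ Fin r, (X + Polynomial.C (b i)) ^ e i with hf
  have hf0 : f ≠ 0 := by
    apply Monic.ne_zero
    exact monic_prod_of_monic _ _ (fun i _ => (monic_X_add_C (b i)).pow _)
  have hdeg : f.natDegree ≤ r * M0 + 1 := by
    rw [hf, WH_deg, Fintype.sum_sum_type]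
    simp only [he, Sum.elim_inl, Sum.elim_inr, sum_const, card_univ, Fintype.card_fin, smul_eq_mul, mul_one]
    have h3 : r + r * (orderOf χ - 1) = r * orderOf χ := by
      obtain ⟨k, hk⟩ := Nat.exists_eq_add_of_le h2
      rw [hk, show 2 + k - 1 = k + 1 by omega]
      ring
    have h4 : r * orderOf χ ≤ r * M0 := Nat.mul_le_mul_left _ (hle.trans hmM)
    omega
  have hmul : f.rootMultiplicity (- b j) = e j := WH_mult univ b e j (mem_univ _) hb
  have hcop : Nat.Coprime (f.rootMultiplicity (- b j)) (orderOf χ) := by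
    rw [hmul]
    rcases j with j | j
    · simp [he]
    · simp only [he, Sum.elim_inr]
      rw [Nat.coprime_comm]
      exact (Nat.coprime_self_sub_right (by omega)).2 (Nat.coprime_one_right _)
  have hsum : ∀ x : ZMod p, (∏ i : Fin r, χ (x + b (Sum.inl i))) * ∏ i : Fin r, (starRingEnd ℂ) (χ (x + b (Sum.inr i)))
      = χ (f.eval x) := by
    intro x
    rw [hf, eval_prod, map_prod, Fintype.prod_sum_type]
    congr 1
    · apply prod_congr rfl
      intro i _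
      rw [eval_pow, eval_add, eval_X, eval_C]
      simp [he]
    · apply prod_congr rfl
      intro i _
      rw [eval_pow, eval_add, eval_X, eval_C, WH_conj χ h2]
      simp [he]
  rw [sum_congr rfl (fun x _ => hsum x)]
  refine (hC (orderOf χ) h2 p χ rfl f hdeg hf0 (- b j) hcop).trans ?_
  apply mul_le_mul_of_nonneg_right _ (Real.sqrt_nonneg _)
  have h5 : Cf (orderOf χ) ≤ ∑ m' ∈ Icc 2 M0, Cf m' :=
    single_le_sum (fun i _ => hC0 i) (mem_Icc.2 ⟨h2, hle.trans hmM⟩)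
  linarith

end Pool.Agent.Lib.MP_42948a_nt.BU
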